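import Mathlib
import Pool.Agent.Lib.MP_9b4c76_pr.Statement

section

/-! Deterministic criterion for infinitely many ends (TASK F). -/

namespace MP_9b4c76_pr

variable {V : Type*}

/-- sites visited by the particle `w` and its descendants -/
def below (N : List ℕ → ℕ) (X : List ℕ → V) (w : List ℕ) : Set V :=
  {z | ∃ u, IsParticle N (u ++ w) ∧ X (u ++ w) = z}

/-- TASK F1. -/
theorem isParticle_append_left {N : List ℕ → ℕ} {u w : List ℕ} (h : IsParticle N (u ++ w)) :
    IsParticle N w := by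
  induction u with
  | nil => exact h
  | cons i u ih => exact ih h.1

/-- TASK F1. Every particle has descendants in every later generation. -/
theorem exists_descendant {N : List ℕ → ℕ} (h1 : ∀ u, 0 < N u) {w : List ℕ}
    (hw : IsParticle N w) (n : ℕ) : ∃ u, u.length = n ∧ IsParticle N (u ++ w) := by
  induction n with
  | zero => exact ⟨[], rfl, hw⟩
  | succ n ih =>
    obtain ⟨u, hu, hp⟩ := ih
    exact ⟨0 :: u, by simp [hu], hp, h1 _⟩

theorem F1_subset (N : List ℕ → ℕ) (X : List ℕ → V) (u w : List ℕ) :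
    below N X (u ++ w) ⊆ below N X w := by
  rintro z ⟨v, hv, rfl⟩
  exact ⟨v ++ u, by rwa [List.append_assoc], by rw [List.append_assoc]⟩

theorem F1_labels_infinite {N : List ℕ → ℕ} (h1 : ∀ u, 0 < N u) {w : List ℕ}
    (hw : IsParticle N w) : {u | IsParticle N (u ++ w)}.Infinite := by
  intro hfin
  have : (List.length '' {u | IsParticle N (u ++ w)}).Finite := hfin.image _
  have huniv : (List.length '' {u | IsParticle N (u ++ w)}) = Set.univ := by
    refine Set.eq_univ_of_forall fun n => ?_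
    obtain ⟨u, hu, hp⟩ := exists_descendant h1 hw n
    exact ⟨u, hp, hu⟩
  rw [huniv] at this
  exact Set.infinite_univ this

/-- TASK F1. -/
theorem below_infinite {N : List ℕ → ℕ} {X : List ℕ → V} (h1 : ∀ u, 0 < N u)
    (h3 : ∀ z, {u | IsParticle N u ∧ X u = z}.Finite) {w : List ℕ} (hw : IsParticle N w) :
    (below N X w).Infinite := by
  intro hfin
  have hcov : (fun u => u ++ w) '' {u | IsParticle N (u ++ w)} ⊆
      ⋃ z ∈ below N X w, {u | IsParticle N u ∧ X u = z} := by
    rintro _ ⟨u, hu, rfl⟩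
    refine Set.mem_iUnion₂.2 ⟨X (u ++ w), ⟨u, hu, rfl⟩, hu, rfl⟩
  have hfin2 : ((fun u => u ++ w) '' {u | IsParticle N (u ++ w)}).Finite :=
    (hfin.biUnion fun z _ => h3 z).subset hcov
  have hinj : Set.InjOn (fun u : List ℕ => u ++ w) {u | IsParticle N (u ++ w)} := by
    intro a _ b _ hab
    exact List.append_left_injective w hab
  exact F1_labels_infinite h1 hw (hfin2.of_finite_image hinj)

/-- TASK F1. Distinct particles of the same generation have traces with finite intersection. -/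
theorem below_inter_finite {N : List ℕ → ℕ} {X : List ℕ → V}
    (h4 : ∀ w i j, i ≠ j → (below N X (i :: w) ∩ below N X (j :: w)).Finite)
    {w w' : List ℕ} (hl : w.length = w'.length) (hne : w ≠ w') :
    (below N X w ∩ below N X w').Finite := by
  induction w generalizing w' with
  | nil =>
    cases w' with
    | nil => exact absurd rfl hne
    | cons _ _ => simp at hl
  | cons i t ih =>
    cases w' with
    | nil => simp at hl
    | cons j t' =>
      by_cases ht : t = t'
      · subst ht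
        have hij : i ≠ j := fun h => hne (by rw [h])
        exact h4 t i j hij
      · have := ih (w' := t') (by simpa using hl) ht
        refine this.subset ?_
        exact Set.inter_subset_inter (F1_subset N X [i] t) (F1_subset N X [j] t')

theorem F2_closed (H : SimpleGraph V) (K : Finset V) (U : Set V)
    (hcl : ∀ a b, a ∈ U → b ∉ K → H.Adj a b → b ∈ U)
    {a b : ((K : Set V)ᶜ : Set V)} (p : (H.induce ((K : Set V)ᶜ)).Walk a b) (ha : a.1 ∈ U) :
    b.1 ∈ U := by
  induction p with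
  | nil => exact ha
  | @cons u v w h p ih =>
    apply ih
    refine hcl u.1 v.1 ha ?_ (by simpa using h)
    exact fun h' => v.2 h'

/-- TASK F2. Abstract criterion: `n` disjoint sets `U i`, closed under adjacency outside `K`, each
containing an infinite connected piece outside `K`. -/
theorem encard_components_ge (H : SimpleGraph V) (K : Finset V) (n : ℕ) (U T : Fin n → Set V)
    (hU : ∀ i j, i ≠ j → Disjoint (U i) (U j))
    (hcl : ∀ i a b, a ∈ U i → b ∉ K → H.Adj a b → b ∈ U i)
    (hTU : ∀ i, T i ⊆ U i) (hTK : ∀ i, ∀ z ∈ T i, z ∉ K) (hTinf : ∀ i, (T i).Infinite)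
    (hconn : ∀ i, ∀ a ∈ T i, ∀ b ∈ T i, ∃ p : H.Walk a b, ∀ z ∈ p.support, z ∉ K) :
    (n : ℕ∞) ≤ {C : (H.induce ((K : Set V)ᶜ)).ConnectedComponent | C.supp.Infinite}.encard := by
  classical
  choose a ha using fun i => (hTinf i).nonempty
  have hmem : ∀ i, ∀ z ∈ T i, z ∈ ((K : Set V)ᶜ : Set V) := fun i z hz => by
    simpa using hTK i z hz
  let C : Fin n → (H.induce ((K : Set V)ᶜ)).ConnectedComponent := fun i =>
    (H.induce ((K : Set V)ᶜ)).connectedComponentMk ⟨a i, hmem i _ (ha i)⟩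
  have hsub : ∀ i, T i ⊆ Subtype.val '' (C i).supp := by
    intro i z hz
    refine ⟨⟨z, hmem i z hz⟩, ?_, rfl⟩
    rw [SimpleGraph.ConnectedComponent.mem_supp_iff]
    obtain ⟨p, hp⟩ := hconn i z hz (a i) (ha i)
    have hp' : ∀ x ∈ p.support, x ∈ ((K : Set V)ᶜ : Set V) := fun x hx => by
      simpa using hp x hx
    exact SimpleGraph.ConnectedComponent.sound ⟨p.induce _ hp'⟩
  have hinf : ∀ i, (C i).supp.Infinite := fun i hfin =>
    hTinf i ((hfin.image _).subset (hsub i))
  have hin : ∀ i, ∀ v ∈ (C i).supp, v.1 ∈ U i := by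
    intro i v hv
    rw [SimpleGraph.ConnectedComponent.mem_supp_iff] at hv
    obtain ⟨p⟩ := SimpleGraph.ConnectedComponent.exact hv
    exact F2_closed H K (U i) (hcl i) p.reverse (hTU i (ha i))
  have hinj : Function.Injective C := by
    intro i j hij
    by_contra hne
    have h1 : (⟨a i, hmem i _ (ha i)⟩ : ((K : Set V)ᶜ : Set V)) ∈ (C i).supp := by
      rw [SimpleGraph.ConnectedComponent.mem_supp_iff]
    have h2 := h1
    rw [hij] at h2
    exact Set.disjoint_left.1 (hU i j hne) (hin i _ h1) (hin j _ h2)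
  calc (n : ℕ∞) ≤ (Set.range C).encard := by
        simpa using hinj.encard_range
    _ ≤ _ := Set.encard_le_encard (by rintro _ ⟨i, rfl⟩; exact hinf i)

theorem F3_gen_finite (N : List ℕ → ℕ) (g : ℕ) :
    {u : List ℕ | u.length = g ∧ IsParticle N u}.Finite := by
  induction g with
  | zero =>
    refine (Set.finite_singleton ([] : List ℕ)).subset ?_
    rintro u ⟨hu, -⟩
    exact List.length_eq_zero_iff.1 hu
  | succ g ih =>
    refine (ih.biUnion (t := fun u => (fun i => i :: u) '' Set.Iio (N u))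
      fun u _ => (Set.finite_Iio (N u)).image _).subset ?_
    rintro u ⟨hu, hp⟩
    cases u with
    | nil => simp at hu
    | cons i u =>
      exact Set.mem_iUnion₂.2 ⟨u, ⟨by simpa using hu, hp.1⟩, i, hp.2, rfl⟩

theorem F3_split {N : List ℕ → ℕ} {u : List ℕ} (hu : IsParticle N u) {g : ℕ}
    (hg : g ≤ u.length) : ∃ s w, u = s ++ w ∧ w.length = g ∧ IsParticle N w := by
  refine ⟨u.take (u.length - g), u.drop (u.length - g), (List.take_append_drop _ _).symm,
    by simp; omega, ?_⟩
  apply isParticle_append_left (u := u.take (u.length - g))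
  rwa [List.take_append_drop]

theorem F3_walk {N : List ℕ → ℕ} {X : List ℕ → V} {v : List ℕ} (u : List ℕ)
    (h : IsParticle N (u ++ v)) :
    ∃ p : (traceGraph N X).Walk (X v) (X (u ++ v)), ∀ z ∈ p.support, z ∈ below N X v := by
  induction u with
  | nil =>
    refine ⟨SimpleGraph.Walk.nil, fun z hz => ?_⟩
    have : z = X v := by simpa using hz
    exact ⟨[], h, this.symm⟩
  | cons i u ih =>
    obtain ⟨p, hp⟩ := ih h.1
    have hmem : X (i :: u ++ v) ∈ below N X v := ⟨i :: u, h, rfl⟩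
    by_cases heq : X (u ++ v) = X (i :: u ++ v)
    · rw [← heq]
      exact ⟨p, hp⟩
    · have hadj : (traceGraph N X).Adj (X (u ++ v)) (X (i :: u ++ v)) :=
        ⟨heq, i, u ++ v, h, Or.inl ⟨rfl, rfl⟩⟩
      refine ⟨p.concat hadj, fun z hz => ?_⟩
      rw [SimpleGraph.Walk.support_concat] at hz
      have hz' : z ∈ p.support ∨ z = X (i :: u ++ v) := by simpa using hz
      rcases hz' with hz | hz
      · exact hp z hz
      · rw [hz]; exact hmem

/-- TASK F3. Deterministic criterion for infinitely many ends. -/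
theorem ends_top {N : List ℕ → ℕ} {X : List ℕ → V} (h1 : ∀ u, 0 < N u)
    (h2 : ∀ n : ℕ, ∃ g, (n : ℕ∞) ≤ {u : List ℕ | u.length = g ∧ IsParticle N u}.encard)
    (h3 : ∀ z, {u | IsParticle N u ∧ X u = z}.Finite)
    (h4 : ∀ w i j, i ≠ j → (below N X (i :: w) ∩ below N X (j :: w)).Finite) :
    numEnds (traceGraph N X) = ⊤ := by
  classical
  rw [ENat.eq_top_iff_forall_ge]
  intro n
  obtain ⟨g, hg⟩ := h2 n
  obtain ⟨t, ht, htc⟩ := Set.exists_subset_encard_eq hg
  have htfin : t.Finite := Set.finite_of_encard_eq_coe htc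
  have hcard : htfin.toFinset.card = n := by
    have := htfin.encard_eq_coe_toFinset_card
    rw [htc] at this
    exact_mod_cast this.symm
  let e := htfin.toFinset.equivFinOfCardEq hcard
  let w : Fin n → List ℕ := fun i => (e.symm i).1
  have hw_inj : Function.Injective w := fun i j h => e.symm.injective (Subtype.ext h)
  have hw_mem : ∀ i, w i ∈ {u : List ℕ | u.length = g ∧ IsParticle N u} := fun i =>
    ht (htfin.mem_toFinset.1 (e.symm i).2)
  -- the finite set
  have hK1 : {z | ∃ u, IsParticle N u ∧ u.length ≤ g ∧ X u = z}.Finite := by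
    refine ((Set.finite_Iic g).biUnion (t := fun k => X '' {u | u.length = k ∧ IsParticle N u})
      fun k _ => (F3_gen_finite N k).image _).subset ?_
    rintro z ⟨u, hu, hl, rfl⟩
    exact Set.mem_iUnion₂.2 ⟨u.length, hl, u, ⟨rfl, hu⟩, rfl⟩
  have hK2 : (⋃ a ∈ {u : List ℕ | u.length = g ∧ IsParticle N u},
      ⋃ b ∈ {u : List ℕ | u.length = g ∧ IsParticle N u},
        {z | a ≠ b ∧ z ∈ below N X a ∩ below N X b}).Finite := by
    refine (F3_gen_finite N g).biUnion fun a ha => (F3_gen_finite N g).biUnion fun b hb => ?_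
    by_cases hab : a = b
    · refine Set.finite_empty.subset ?_
      rintro z ⟨h, -⟩
      exact absurd hab h
    · exact (below_inter_finite h4 (ha.1.trans hb.1.symm) hab).subset fun z hz => hz.2
  obtain ⟨K, hK⟩ : ∃ K : Finset V, (K : Set V) =
      {z | ∃ u, IsParticle N u ∧ u.length ≤ g ∧ X u = z} ∪
      (⋃ a ∈ {u : List ℕ | u.length = g ∧ IsParticle N u},
        ⋃ b ∈ {u : List ℕ | u.length = g ∧ IsParticle N u},
        {z | a ≠ b ∧ z ∈ below N X a ∩ below N X b}) :=
    ⟨(hK1.union hK2).toFinset, by simp only [Set.Finite.coe_toFinset]⟩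
  have hKgen : ∀ u, IsParticle N u → X u ∉ K → g < u.length := by
    intro u hu hn
    by_contra hle
    apply hn
    have : X u ∈ (K : Set V) := by
      rw [hK]
      exact Or.inl ⟨u, hu, not_lt.1 hle, rfl⟩
    exact this
  have hKint : ∀ a b, a.length = g → IsParticle N a → b.length = g → IsParticle N b → ∀ z,
      z ∉ K → z ∈ below N X a → z ∈ below N X b → a = b := by
    intro a b ha ha' hb hb' z hz hza hzb
    by_contra hab
    apply hz
    have : z ∈ (K : Set V) := by
      rw [hK]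
      exact Or.inr (Set.mem_iUnion₂.2 ⟨a, ⟨ha, ha'⟩, Set.mem_iUnion₂.2 ⟨b, ⟨hb, hb'⟩,
        hab, hza, hzb⟩⟩)
    exact this
  -- particles on `K` have bounded length
  have hKfin : (⋃ z ∈ (K : Set V), {u | IsParticle N u ∧ X u = z}).Finite :=
    K.finite_toSet.biUnion fun z _ => h3 z
  obtain ⟨L, hL⟩ : ∃ L : ℕ, ∀ u, IsParticle N u → X u ∈ K → u.length ≤ L := by
    obtain ⟨L, hL⟩ := (hKfin.image List.length).bddAbove
    exact ⟨L, fun u hu hz => hL ⟨u, Set.mem_iUnion₂.2 ⟨X u, hz, hu, rfl⟩, rfl⟩⟩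
  choose s hs hsp using fun i => exists_descendant h1 (hw_mem i).2 (L + 1)
  have hTK : ∀ i, ∀ z ∈ below N X (s i ++ w i), z ∉ K := by
    rintro i z ⟨u, hu, rfl⟩ hz
    have := hL _ hu hz
    simp only [List.length_append, hs] at this
    omega
  refine le_trans ?_ (le_iSup (fun K : Finset V =>
    {C : ((traceGraph N X).induce ((K : Set V)ᶜ)).ConnectedComponent | C.supp.Infinite}.encard) K)
  refine encard_components_ge (traceGraph N X) K n (fun i => {z | z ∈ below N X (w i) ∧ z ∉ K})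
    (fun i => below N X (s i ++ w i)) ?_ ?_ ?_ hTK ?_ ?_
  · intro i j hij
    rw [Set.disjoint_left]
    rintro z ⟨hz, hzK⟩ ⟨hz', -⟩
    exact hij (hw_inj (hKint _ _ (hw_mem i).1 (hw_mem i).2 (hw_mem j).1 (hw_mem j).2 z hzK hz hz'))
  · rintro i a b ⟨ha, haK⟩ hbK ⟨-, j, u, hu, h | h⟩
    · obtain ⟨rfl, rfl⟩ := h
      refine ⟨?_, hbK⟩
      have hlen := hKgen u hu.1 haK
      obtain ⟨r, v, rfl, hv, hvp⟩ := F3_split hu.1 hlen.le
      have : v = w i := hKint _ _ hv hvp (hw_mem i).1 (hw_mem i).2 _ haK ⟨r, hu.1, rfl⟩ ha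
      subst this
      exact ⟨j :: r, hu, rfl⟩
    · obtain ⟨rfl, rfl⟩ := h
      refine ⟨?_, hbK⟩
      have hlen := hKgen (j :: u) hu haK
      have hlen' : g ≤ u.length := by simpa [Nat.lt_succ_iff] using hlen
      obtain ⟨r, v, rfl, hv, hvp⟩ := F3_split hu.1 hlen'
      have : v = w i := hKint _ _ hv hvp (hw_mem i).1 (hw_mem i).2 _ haK ⟨j :: r, hu, rfl⟩ ha
      subst this
      exact ⟨r, hu.1, rfl⟩
  · intro i z hz
    exact ⟨F1_subset N X (s i) (w i) hz, hTK i z hz⟩
  · intro i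
    exact below_infinite h1 h3 (hsp i)
  · rintro i a ⟨u, hu, rfl⟩ b ⟨u', hu', rfl⟩
    obtain ⟨p, hp⟩ := F3_walk (X := X) u hu
    obtain ⟨p', hp'⟩ := F3_walk (X := X) u' hu'
    refine ⟨p.reverse.append p', fun z hz => ?_⟩
    rw [SimpleGraph.Walk.mem_support_append_iff] at hz
    rcases hz with hz | hz
    · rw [SimpleGraph.Walk.support_reverse, List.mem_reverse] at hz
      exact hTK i z (hp z hz)
    · exact hTK i z (hp' z hz)

end MP_9b4c76_pr
end

section

/-!
# MP_9b4c76_pr: branching random walk, canonical space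

Labels of particles are lists of natural numbers: the root is `[]` and the `i`-th child of the
particle `u` is `i :: u`.  A configuration gives to every label the number of its offspring and
the steps (in `Fin d`, an enumeration of the neighbours) of its offspring.
-/

namespace MP_9b4c76_pr

open MeasureTheory ProbabilityTheory Filter Topology
open scoped ENNReal NNReal

/-- Mark of a particle: number of offspring, and the step of the `i`-th offspring. -/
abbrev Mark (d : ℕ) := ℕ × (ℕ → Fin d)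

/-- A configuration: a mark for every label. -/
abbrev Conf (d : ℕ) := List ℕ → Mark d

/-- Uniform measure on `Fin d`. -/
noncomputable def uni (d : ℕ) [NeZero d] : Measure (Fin d) :=
  (PMF.uniformOfFintype (Fin d)).toMeasure

/-- Law of one mark: offspring number of law `μ`, independent i.i.d. uniform steps. -/
noncomputable def markLaw (μ : PMF ℕ) (d : ℕ) [NeZero d] : Measure (Mark d) :=
  μ.toMeasure.prod (Measure.infinitePi fun _ : ℕ => uni d)

/-- Law of the configuration: i.i.d. marks. -/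
noncomputable def confLaw (μ : PMF ℕ) (d : ℕ) [NeZero d] : Measure (Conf d) :=
  Measure.infinitePi fun _ : List ℕ => markLaw μ d

section det

variable {V : Type*} {d : ℕ}

/-- The label `u` is the label of a particle. -/
def Alive (c : Conf d) : List ℕ → Prop
  | [] => True
  | i :: u => Alive c u ∧ i < (c u).1

/-- Position of the particle `u` of the branching random walk started at `x`. -/
def pos (nb : V → Fin d → V) (x : V) (c : Conf d) : List ℕ → V
  | [] => x
  | i :: u => nb (pos nb x c u) ((c u).2 i)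

/-- Configuration seen from the `i`-th child of the root. -/
def sub (i : ℕ) (c : Conf d) : Conf d := fun u => c (u ++ [i])

/-- Configuration seen from the label `w`. -/
def subL (w : List ℕ) (c : Conf d) : Conf d := fun u => c (u ++ w)

/-- Average over the neighbours. -/
noncomputable def avg (nb : V → Fin d → V) (F : V → ℝ≥0∞) (x : V) : ℝ≥0∞ :=
  (∑ j, F (nb x j)) / d

/-- Generating function of the offspring law. -/
noncomputable def gf (μ : PMF ℕ) (s : ℝ≥0∞) : ℝ≥0∞ := ∑' n, μ n * s ^ n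

open Classical in
/-- `n`-step transition probabilities. -/
noncomputable def pn (nb : V → Fin d → V) : ℕ → V → V → ℝ≥0∞
  | 0, x, y => if x = y then 1 else 0
  | n + 1, x, y => avg nb (fun z => pn nb n z y) x

/-- Green function `∑ (θ/ρ)^k p_k(x,y)`. -/
noncomputable def green (nb : V → Fin d → V) (ρ θ : ℝ≥0) (x y : V) : ℝ≥0∞ :=
  ∑' k, ((θ / ρ : ℝ≥0) : ℝ≥0∞) ^ k * pn nb k x y

/-- Discounted potential of the first `n` generations of the trace. -/
noncomputable def Dn (nb : V → Fin d → V) (ρ θ : ℝ≥0) : ℕ → V → V → Conf d → ℝ≥0∞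
  | 0, x, y, _ => green nb ρ θ x y
  | n + 1, x, y, c => green nb ρ θ x y +
      θ * ∑ i ∈ Finset.range (c []).1, Dn nb ρ θ n (nb x ((c []).2 i)) y (sub i c)

/-- Discounted potential of the trace. -/
noncomputable def D (nb : V → Fin d → V) (ρ θ : ℝ≥0) (x y : V) (c : Conf d) : ℝ≥0∞ :=
  ⨆ n, Dn nb ρ θ n x y c

/-- `exp (-x)` for `x ∈ [0,∞]`. -/
noncomputable def eneg (x : ℝ≥0∞) : ℝ≥0∞ :=
  if x = ⊤ then 0 else ENNReal.ofReal (Real.exp (-x.toReal))

/-- The standing assumptions on the chain and the offspring law. -/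
structure Setting (nb : V → Fin d → V) (ρ : ℝ≥0) (μ : PMF ℕ) : Prop where
  rpos : 0 < ρ
  rlt : ρ < 1
  symm : ∀ n x y, pn nb n x y = pn nb n y x
  bound : ∀ n x y, pn nb n x y ≤ (ρ : ℝ≥0∞) ^ n
  back : ∀ x j, ∃ j', nb (nb x j) j' = x
  conn : ∀ x y, ∃ l : List (Fin d), l.foldl nb x = y
  hom : ∀ x y : V, ∃ φ : V ≃ V, φ x = y ∧
    ∀ (F : V → ℝ≥0∞) (z : V), avg nb F (φ z) = avg nb (fun w => F (φ w)) z
  mu0 : μ 0 = 0
  crit : ∑' n, μ n * n = ((ρ⁻¹ : ℝ≥0) : ℝ≥0∞)

/-- Some particle of generation at most `n` has the property `Q`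
(a property of generation, position, and future configuration). -/
def Ex (nb : V → Fin d → V) (Q : ℕ → V → Conf d → Prop) (n : ℕ) (x : V) (c : Conf d) : Prop :=
  ∃ u : List ℕ, u.length ≤ n ∧ Alive c u ∧ Q u.length (pos nb x c u) (subL u c)

open Classical in
/-- Number of particles of generation at most `n`, of the right parity, at a site where
`a ≤ f`. -/
noncomputable def cnt (nb : V → Fin d → V) (f : V → ℝ) (a : ℝ) : ℕ → Bool → V → Conf d → ℕ
  | 0, b, y, _ => if b = true ∧ a ≤ f y then 1 else 0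
  | n + 1, b, y, c => (if b = true ∧ a ≤ f y then 1 else 0) +
      ∑ i ∈ Finset.range (c []).1, cnt nb f a n (!b) (nb y ((c []).2 i)) (sub i c)

end det

end MP_9b4c76_pr
end

section

/-! From a transitive graph to the setting of the library. -/

namespace MP_9b4c76_pr

open MeasureTheory ProbabilityTheory Filter Topology
open scoped ENNReal NNReal

variable {V : Type*}

theorem Q23_nonneg (G : SimpleGraph V) [G.LocallyFinite] (n : ℕ) (x y : V) :
    0 ≤ stepProb G n x y := by
  induction n generalizing x with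
  | zero => simp only [stepProb]; split_ifs <;> norm_num
  | succ n ih =>
    simp only [stepProb]
    exact Finset.sum_nonneg fun z _ => mul_nonneg (by positivity) (ih z)

theorem Q23_succ' (G : SimpleGraph V) [G.LocallyFinite] {d : ℕ}
    (hdeg : ∀ x, G.degree x = d) (n : ℕ) (x y : V) :
    stepProb G (n + 1) x y = ∑ z ∈ G.neighborFinset y, (d : ℝ)⁻¹ * stepProb G n x z := by
  classical
  induction n generalizing x with
  | zero =>
    simp only [stepProb, hdeg, mul_ite, mul_one, mul_zero]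
    rw [Finset.sum_ite_eq' , Finset.sum_ite_eq]
    simp only [SimpleGraph.mem_neighborFinset, G.adj_comm]
  | succ n ih =>
    rw [stepProb]
    simp_rw [ih, hdeg, Finset.mul_sum]
    rw [Finset.sum_comm]
    refine Finset.sum_congr rfl fun w _ => ?_
    rw [stepProb, Finset.mul_sum]
    simp_rw [hdeg]

theorem Q1_degree_pos [Nontrivial V] (G : SimpleGraph V) [G.LocallyFinite] (hconn : G.Connected)
    (x : V) : 0 < G.degree x := by
  rw [G.degree_pos_iff_exists_adj]
  exact hconn.preconnected.exists_adj_of_nontrivial x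

/-- TASK Q1.  A transitive locally finite graph is regular, and its neighbours can be
enumerated. -/
theorem exists_nb [Nontrivial V] (G : SimpleGraph V) [G.LocallyFinite] (hconn : G.Connected)
    (htrans : ∀ x y : V, ∃ φ : G ≃g G, φ x = y) :
    ∃ (d : ℕ) (_ : NeZero d) (nb : V → Fin d → V), (∀ x, Function.Injective (nb x)) ∧
      (∀ x y, G.Adj x y ↔ ∃ j, nb x j = y) ∧ ∀ x, G.degree x = d := by
  classical
  obtain ⟨o⟩ := hconn.nonempty
  have hdeg : ∀ x, G.degree x = G.degree o := by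
    intro x
    obtain ⟨φ, hφ⟩ := htrans o x
    rw [← hφ]
    exact φ.degree_eq o
  have hcard : ∀ x, (G.neighborFinset x).card = G.degree o := fun x => by
    rw [G.card_neighborFinset_eq_degree, hdeg]
  let e : ∀ x, (G.neighborFinset x) ≃ Fin (G.degree o) := fun x =>
    (G.neighborFinset x).equivFinOfCardEq (hcard x)
  refine ⟨G.degree o, ⟨(Q1_degree_pos G hconn o).ne'⟩, fun x j => ((e x).symm j).1, ?_, ?_, hdeg⟩
  · intro x i j hij
    exact (e x).symm.injective (Subtype.ext hij)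
  · intro x y
    constructor
    · intro h
      exact ⟨e x ⟨y, by simpa using h⟩, by simp⟩
    · rintro ⟨j, rfl⟩
      exact (G.mem_neighborFinset x _).1 ((e x).symm j).2

/-- TASK Q1. -/
theorem countable_of_connected (G : SimpleGraph V) [G.LocallyFinite] (hconn : G.Connected) :
    Countable V := by
  classical
  obtain ⟨o⟩ := hconn.nonempty
  have hfin : ∀ n : ℕ, {y | ∃ p : G.Walk o y, p.length = n}.Finite := by
    intro n
    induction n with
    | zero =>
      refine (Set.finite_singleton o).subset ?_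
      rintro y ⟨p, hp⟩
      exact (SimpleGraph.Walk.eq_of_length_eq_zero hp).symm
    | succ n ih =>
      refine (ih.biUnion (t := fun z => (G.neighborFinset z : Set V))
        fun z _ => Finset.finite_toSet _).subset ?_
      rintro y ⟨p, hp⟩
      obtain ⟨z, q, h, rfl⟩ : ∃ z, ∃ q : G.Walk o z, ∃ h : G.Adj z y, p = q.concat h := by
        cases p with
        | nil => simp at hp
        | cons h' p' => exact SimpleGraph.Walk.exists_cons_eq_concat h' p'
      refine Set.mem_iUnion₂.2 ⟨z, ⟨q, ?_⟩, by simpa using h⟩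
      simpa using hp
  have hun : (Set.univ : Set V) = ⋃ n : ℕ, {y | ∃ p : G.Walk o y, p.length = n} := by
    refine (Set.eq_univ_of_forall fun y => ?_).symm
    obtain ⟨p⟩ := hconn.preconnected o y
    exact Set.mem_iUnion.2 ⟨p.length, p, rfl⟩
  have : (Set.univ : Set V).Countable := by
    rw [hun]
    exact Set.countable_iUnion fun n => (hfin n).countable
  exact Set.countable_univ_iff.1 this

/-- TASK Q2. -/
theorem pn_eq_stepProb (G : SimpleGraph V) [G.LocallyFinite] {d : ℕ} [NeZero d]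
    {nb : V → Fin d → V} (hinj : ∀ x, Function.Injective (nb x))
    (hadj : ∀ x y, G.Adj x y ↔ ∃ j, nb x j = y) (hdeg : ∀ x, G.degree x = d) (n : ℕ) (x y : V) :
    pn nb n x y = ENNReal.ofReal (stepProb G n x y) := by
  classical
  induction n generalizing x with
  | zero => simp only [pn, stepProb]; split_ifs <;> simp
  | succ n ih =>
    have him : G.neighborFinset x = Finset.univ.image (nb x) := by
      ext z
      rw [SimpleGraph.mem_neighborFinset, hadj]
      simp
    simp only [pn, stepProb, avg]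
    rw [him, Finset.sum_image (fun i _ j _ h => hinj x h),
      ENNReal.ofReal_sum_of_nonneg (fun i _ => mul_nonneg (by positivity) (Q23_nonneg G n _ _)),
      ENNReal.div_eq_inv_mul, Finset.mul_sum]
    refine Finset.sum_congr rfl fun j _ => ?_
    rw [ih, ENNReal.ofReal_mul (by positivity), hdeg,
      ENNReal.ofReal_inv_of_pos (by exact_mod_cast Nat.pos_of_ne_zero (NeZero.ne d)),
      ENNReal.ofReal_natCast]

/-- TASK Q3. -/
theorem stepProb_symm (G : SimpleGraph V) [G.LocallyFinite] {d : ℕ}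
    (hdeg : ∀ x, G.degree x = d) (n : ℕ) (x y : V) : stepProb G n x y = stepProb G n y x := by
  classical
  induction n generalizing x y with
  | zero => simp only [stepProb, eq_comm]
  | succ n ih =>
    rw [Q23_succ' G hdeg n y x, stepProb]
    refine Finset.sum_congr rfl fun z _ => ?_
    rw [hdeg, ih z y]

/-- TASK Q3. -/
theorem stepProb_nonneg (G : SimpleGraph V) [G.LocallyFinite] (n : ℕ) (x y : V) :
    0 ≤ stepProb G n x y := Q23_nonneg G n x y

/-- TASK Q3. -/
theorem stepProb_le_one (G : SimpleGraph V) [G.LocallyFinite] (n : ℕ) (x y : V) :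
    stepProb G n x y ≤ 1 := by
  induction n generalizing x with
  | zero => simp only [stepProb]; split_ifs <;> norm_num
  | succ n ih =>
    simp only [stepProb]
    calc ∑ z ∈ G.neighborFinset x, (G.degree x : ℝ)⁻¹ * stepProb G n z y
        ≤ ∑ z ∈ G.neighborFinset x, (G.degree x : ℝ)⁻¹ * 1 :=
          Finset.sum_le_sum fun z _ => mul_le_mul_of_nonneg_left (ih z) (by positivity)
      _ ≤ 1 := by
          rw [Finset.sum_const, G.card_neighborFinset_eq_degree, nsmul_eq_mul, mul_one]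
          exact mul_inv_le_one

-- TASK Q4 (helper72, v2 compiled): replaces the two theorems of TASK Q4 in Graph.lean (auxiliary lemmas q4_*)
theorem q4_mul_le (G : SimpleGraph V) [G.LocallyFinite] (m n : ℕ) (x z y : V) :
    stepProb G m x z * stepProb G n z y ≤ stepProb G (m + n) x y := by
  induction m generalizing x with
  | zero =>
    rw [Nat.zero_add]
    by_cases h : x = z
    · subst h; simp [stepProb]
    · simp only [stepProb, if_neg h, zero_mul]
      exact stepProb_nonneg G n x y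
  | succ m ih =>
    rw [Nat.succ_add_eq_add_succ, Nat.add_succ]
    simp only [stepProb]
    rw [Finset.sum_mul]
    refine Finset.sum_le_sum fun w _ => ?_
    rw [mul_assoc]
    exact mul_le_mul_of_nonneg_left (ih w) (by positivity)

theorem q4_pow_le (G : SimpleGraph V) [G.LocallyFinite] (m k : ℕ) (x : V) :
    stepProb G m x x ^ k ≤ stepProb G (m * k) x x := by
  induction k with
  | zero => simp [stepProb]
  | succ k ih =>
    rw [pow_succ, Nat.mul_succ]
    exact (mul_le_mul_of_nonneg_right ih (stepProb_nonneg G m x x)).trans (q4_mul_le G _ _ _ _ _)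

theorem q4_aut (G : SimpleGraph V) [G.LocallyFinite] (φ : G ≃g G) (n : ℕ) (x y : V) :
    stepProb G n (φ x) (φ y) = stepProb G n x y := by
  induction n generalizing x with
  | zero =>
    simp only [stepProb]
    by_cases h : x = y
    · subst h; rw [if_pos rfl, if_pos rfl]
    · rw [if_neg h, if_neg (fun h' => h (φ.injective h'))]
  | succ n ih =>
    simp only [stepProb]
    symm
    have hdeg : G.degree (φ x) = G.degree x := φ.degree_eq x
    refine Finset.sum_bij (fun z _ => φ z) ?_ ?_ ?_ ?_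
    · intro z hz
      rw [SimpleGraph.mem_neighborFinset] at hz ⊢
      exact φ.map_adj_iff.mpr hz
    · intro a _ b _ h
      exact φ.injective h
    · intro b hb
      rw [SimpleGraph.mem_neighborFinset] at hb
      refine ⟨φ.symm b, ?_, φ.apply_symm_apply b⟩
      rw [SimpleGraph.mem_neighborFinset]
      have : G.Adj (φ x) (φ (φ.symm b)) := by rwa [φ.apply_symm_apply]
      exact φ.map_adj_iff.mp this
    · intro z _
      rw [hdeg, ih]

theorem q4_rpow_le (G : SimpleGraph V) [G.LocallyFinite] (o : V) {m : ℕ} (hm : 0 < m) :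
    stepProb G m o o ^ ((1 : ℝ) / m) ≤ spectralRadius G o o := by
  unfold spectralRadius
  refine le_limsup_of_frequently_le ?_ ?_
  · rw [frequently_atTop]
    intro N
    refine ⟨m * (N + 1), ?_, ?_⟩
    · calc N ≤ 1 * (N + 1) := by omega
        _ ≤ m * (N + 1) := Nat.mul_le_mul_right _ hm
    · have h0 := stepProb_nonneg G m o o
      have h1 := q4_pow_le G m (N + 1) o
      have hmR : (m : ℝ) ≠ 0 := by exact_mod_cast hm.ne'
      have hNR : ((N + 1 : ℕ) : ℝ) ≠ 0 := by positivity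
      calc stepProb G m o o ^ ((1 : ℝ) / m)
          = (stepProb G m o o ^ (N + 1)) ^ ((1 : ℝ) / ((m * (N + 1) : ℕ) : ℝ)) := by
            rw [← Real.rpow_natCast, ← Real.rpow_mul h0]
            congr 1
            rw [Nat.cast_mul]
            field_simp
        _ ≤ _ := Real.rpow_le_rpow (pow_nonneg h0 _) h1 (by positivity)
  · refine ⟨1, ?_⟩
    rw [eventually_map]
    refine Eventually.of_forall fun n => ?_
    exact Real.rpow_le_one (stepProb_nonneg G n o o) (stepProb_le_one G n o o) (by positivity)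

theorem q4_spectralRadius_nonneg (G : SimpleGraph V) [G.LocallyFinite] (o : V) :
    0 ≤ spectralRadius G o o :=
  (Real.rpow_nonneg (stepProb_nonneg G 1 o o) _).trans (q4_rpow_le G o (m := 1) one_pos)

/-- TASK Q4.  `p_n(x,y) ≤ ρ^n`. -/
theorem stepProb_le (G : SimpleGraph V) [G.LocallyFinite] {d : ℕ} (hdeg : ∀ x, G.degree x = d)
    (htrans : ∀ x y : V, ∃ φ : G ≃g G, φ x = y) (o : V) (n : ℕ) (x y : V) :
    stepProb G n x y ≤ spectralRadius G o o ^ n := by
  rcases Nat.eq_zero_or_pos n with rfl | hn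
  · rw [pow_zero]
    exact stepProb_le_one G 0 x y
  · have hR := q4_spectralRadius_nonneg G o
    obtain ⟨φ, hφ⟩ := htrans o x
    have h1 : stepProb G n x y ^ 2 ≤ stepProb G (n + n) o o := by
      have h2 := q4_mul_le G n n x y x
      rw [stepProb_symm G hdeg n y x, ← sq] at h2
      rw [← q4_aut G φ (n + n) o o, hφ]
      exact h2
    have h3 : stepProb G (n + n) o o ≤ (spectralRadius G o o ^ n) ^ 2 := by
      have h4 := q4_rpow_le G o (m := n + n) (by omega)
      have h5 : stepProb G (n + n) o o =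
          (stepProb G (n + n) o o ^ ((1 : ℝ) / ((n + n : ℕ) : ℝ))) ^ (n + n) := by
        rw [one_div, Real.rpow_inv_natCast_pow (stepProb_nonneg G _ o o) (by omega)]
      rw [h5, ← pow_mul, mul_two]
      exact pow_le_pow_left₀ (Real.rpow_nonneg (stepProb_nonneg G _ o o) _) h4 _
    exact (abs_le_of_sq_le_sq' (h1.trans h3) (pow_nonneg hR n)).2

/-- TASK Q4. -/
theorem spectralRadius_pos (G : SimpleGraph V) [G.LocallyFinite] [Nontrivial V]
    (hconn : G.Connected) {d : ℕ} (hdeg : ∀ x, G.degree x = d)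
    (htrans : ∀ x y : V, ∃ φ : G ≃g G, φ x = y) (o : V) :
    0 < spectralRadius G o o := by
  obtain ⟨y, hy⟩ : ∃ y, G.Adj o y := by
    obtain ⟨z, hz⟩ := exists_ne o
    obtain ⟨p⟩ := hconn.preconnected o z
    cases p with
    | nil => exact absurd rfl hz
    | cons h _ => exact ⟨_, h⟩
  have h1 := stepProb_le G hdeg htrans o 1 o y
  rw [pow_one] at h1
  refine lt_of_lt_of_le ?_ h1
  have hd : 0 < (G.degree o : ℝ) := by
    have : 0 < G.degree o := by
      rw [SimpleGraph.degree_pos_iff_exists_adj]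
      exact ⟨y, hy⟩
    exact_mod_cast this
  have h2 : (G.degree o : ℝ)⁻¹ * stepProb G 0 y y ≤ stepProb G 1 o y := by
    show _ ≤ ∑ z ∈ G.neighborFinset o, (G.degree o : ℝ)⁻¹ * stepProb G 0 z y
    refine Finset.single_le_sum (f := fun z => (G.degree o : ℝ)⁻¹ * stepProb G 0 z y)
      (fun z _ => mul_nonneg (by positivity) (stepProb_nonneg G 0 z y)) ?_
    rwa [SimpleGraph.mem_neighborFinset]
  refine lt_of_lt_of_le ?_ h2
  simp only [stepProb, if_true, mul_one]
  positivity

theorem q5_sum_nb (G : SimpleGraph V) [G.LocallyFinite] {d : ℕ}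
    {nb : V → Fin d → V} (hinj : ∀ x, Function.Injective (nb x))
    (hadj : ∀ x y, G.Adj x y ↔ ∃ j, nb x j = y) (F : V → ℝ≥0∞) (x : V) :
    ∑ j, F (nb x j) = ∑ w ∈ G.neighborFinset x, F w := by
  refine Finset.sum_bij (fun j _ => nb x j) ?_ ?_ ?_ ?_
  · intro j _
    rw [SimpleGraph.mem_neighborFinset, hadj]
    exact ⟨j, rfl⟩
  · intro i _ j _ h
    exact hinj x h
  · intro w hw
    rw [SimpleGraph.mem_neighborFinset, hadj] at hw
    obtain ⟨j, hj⟩ := hw
    exact ⟨j, Finset.mem_univ _, hj⟩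
  · intro j _
    rfl

theorem q5_conn (G : SimpleGraph V) {d : ℕ}
    {nb : V → Fin d → V}
    (hadj : ∀ x y, G.Adj x y ↔ ∃ j, nb x j = y) {x y : V} (p : G.Walk x y) :
    ∃ l : List (Fin d), l.foldl nb x = y := by
  induction p with
  | nil => exact ⟨[], rfl⟩
  | cons h p ih =>
    obtain ⟨l, hl⟩ := ih
    obtain ⟨j, hj⟩ := (hadj _ _).1 h
    exact ⟨j :: l, by simp [hj, hl]⟩

/-- TASK Q5 (from Q1–Q4). -/
theorem setting_of_graph (G : SimpleGraph V) [G.LocallyFinite] [Nontrivial V]
    (hconn : G.Connected) (htrans : ∀ x y : V, ∃ φ : G ≃g G, φ x = y) {d : ℕ} [NeZero d]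
    {nb : V → Fin d → V} (hinj : ∀ x, Function.Injective (nb x))
    (hadj : ∀ x y, G.Adj x y ↔ ∃ j, nb x j = y) (hdeg : ∀ x, G.degree x = d)
    (μ : PMF ℕ) (hμ0 : μ 0 = 0) (o : V) (hna : spectralRadius G o o < 1)
    (hcrit : ∑' n, μ n * n = ENNReal.ofReal (spectralRadius G o o)⁻¹) :
    Setting nb (spectralRadius G o o).toNNReal μ := by
  have hpos := spectralRadius_pos G hconn hdeg htrans o
  refine ⟨Real.toNNReal_pos.2 hpos, Real.toNNReal_lt_one.2 hna, ?_, ?_, ?_, ?_, ?_, hμ0, ?_⟩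
  · intro n x y
    rw [pn_eq_stepProb G hinj hadj hdeg, pn_eq_stepProb G hinj hadj hdeg,
      stepProb_symm G hdeg]
  · intro n x y
    rw [pn_eq_stepProb G hinj hadj hdeg]
    refine (ENNReal.ofReal_le_ofReal (stepProb_le G hdeg htrans o n x y)).trans (le_of_eq ?_)
    rw [ENNReal.ofReal_pow hpos.le]
    rfl
  · intro x j
    have h : G.Adj x (nb x j) := (hadj _ _).2 ⟨j, rfl⟩
    exact (hadj _ _).1 h.symm
  · intro x y
    obtain ⟨p⟩ := hconn.preconnected x y
    exact q5_conn G hadj p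
  · intro x y
    obtain ⟨φ, hφ⟩ := htrans x y
    refine ⟨φ.toEquiv, hφ, fun F z => ?_⟩
    unfold avg
    rw [q5_sum_nb G hinj hadj F, q5_sum_nb G hinj hadj (fun w => F (φ.toEquiv w))]
    congr 1
    symm
    refine Finset.sum_bij (fun w _ => φ w) ?_ ?_ ?_ ?_
    · intro w hw
      rw [SimpleGraph.mem_neighborFinset] at hw ⊢
      exact φ.map_adj_iff.2 hw
    · intro a _ b _ h
      exact φ.injective h
    · intro w hw
      rw [SimpleGraph.mem_neighborFinset] at hw
      refine ⟨φ.symm w, ?_, φ.apply_symm_apply w⟩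
      rw [SimpleGraph.mem_neighborFinset]
      have := φ.symm.map_adj_iff.2 hw
      simpa using this
    · intro w _
      rfl
  · rw [hcrit]
    change ((Real.toNNReal (spectralRadius G o o)⁻¹ : ℝ≥0) : ℝ≥0∞) = _
    rw [Real.toNNReal_inv]

end MP_9b4c76_pr
end

section

/-! The canonical probability space: decomposition at the root. -/

namespace MP_9b4c76_pr

open MeasureTheory ProbabilityTheory Filter Topology
open scoped ENNReal NNReal

variable {d : ℕ} [NeZero d]

instance : IsProbabilityMeasure (uni d) := by unfold uni; infer_instance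
instance (μ : PMF ℕ) : IsProbabilityMeasure (markLaw μ d) := by unfold markLaw; infer_instance
instance (μ : PMF ℕ) : IsProbabilityMeasure (confLaw μ d) := by unfold confLaw; infer_instance

theorem measurable_sub (i : ℕ) : Measurable (sub (d := d) i) := by
  unfold sub; fun_prop

theorem measurable_subL (w : List ℕ) : Measurable (subL (d := d) w) := by
  unfold subL; fun_prop

theorem measurable_decomp :
    Measurable (fun c : Conf d => (c [], fun i : ℕ => sub i c)) := by
  unfold sub; fun_prop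

/-- index types for `map_decomp` -/
def a1_k : Bool → Type
  | true => Unit
  | false => ℕ × List ℕ

/-- the label of an index -/
def a1_f : (Σ b, a1_k b) → List ℕ
  | ⟨true, _⟩ => []
  | ⟨false, p⟩ => p.2 ++ [p.1]

theorem a1_inj : Function.Injective a1_f := by
  rintro ⟨b, p⟩ ⟨b', p'⟩ h
  cases b <;> cases b'
  · obtain ⟨i, u⟩ := p
    obtain ⟨i', u'⟩ := p'
    simp only [a1_f] at h
    obtain ⟨h1, h2⟩ := List.append_inj' h rfl
    simp only [List.cons.injEq, and_true] at h2
    subst h1 h2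
    rfl
  · simp [a1_f] at h
  · simp [a1_f] at h
  · rfl

/-- TASK A1.  Root mark and sub-configurations of the children are independent. -/
theorem map_decomp (μ : PMF ℕ) :
    (confLaw μ d).map (fun c => (c [], fun i : ℕ => sub i c)) =
      (markLaw μ d).prod (Measure.infinitePi fun _ : ℕ => confLaw μ d) := by
  have h1 : (confLaw μ d).map (fun c (p : Σ b, a1_k b) => c (a1_f p)) =
      Measure.infinitePi (fun _ : Σ b, a1_k b => markLaw μ d) :=
    Measure.map_infinitePi_infinitePi_of_inj a1_inj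
  have h2 : (Measure.infinitePi (fun _ : Σ b, a1_k b => markLaw μ d)).map
      (MeasurableEquiv.piCurry fun (b : Bool) (_ : a1_k b) => Mark d) =
      Measure.infinitePi fun b : Bool => Measure.infinitePi fun _ : a1_k b => markLaw μ d :=
    Measure.infinitePi_map_piCurry (X := fun (b : Bool) (_ : a1_k b) => Mark d)
      fun (b : Bool) (_ : a1_k b) => markLaw μ d
  have h3 := Measure.infinitePi_map_eval_prod
    (P := fun b : Bool => Measure.infinitePi fun _ : a1_k b => markLaw μ d)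
    (i := true) (j := false) (by decide)
  have h4 : (Measure.infinitePi fun _ : a1_k true => markLaw μ d).map (fun ω => ω ()) =
      markLaw μ d := Measure.infinitePi_map_eval _ _
  have h5 : (Measure.infinitePi fun _ : a1_k false => markLaw μ d).map
      (fun ω (i : ℕ) (u : List ℕ) => ω (i, u)) =
      Measure.infinitePi fun _ : ℕ => confLaw μ d :=
    Measure.infinitePi_map_curry (ι := ℕ) (κ := List ℕ) (X := Mark d)
      fun (_ : ℕ) (_ : List ℕ) => markLaw μ d
  have m4 : Measurable (fun ω : (a1_k true → Mark d) => ω ()) := measurable_pi_apply _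
  have m5 : Measurable (fun (ω : a1_k false → Mark d) (i : ℕ) (u : List ℕ) => ω (i, u)) := by
    refine measurable_pi_lambda _ fun i => measurable_pi_lambda _ fun u => measurable_pi_apply _
  rw [← h4, ← h5, Measure.map_prod_map _ _ m4 m5, ← h3, Measure.map_map (by fun_prop)
    (by fun_prop), ← h2, Measure.map_map (by fun_prop) (MeasurableEquiv.measurable _), ← h1,
    Measure.map_map (by fun_prop) (by fun_prop)]
  rfl

/-- TASK A2. -/
theorem map_subL (μ : PMF ℕ) (w : List ℕ) : (confLaw μ d).map (subL w) = confLaw μ d :=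
  Measure.map_infinitePi_infinitePi_of_inj (f := fun u : List ℕ => u ++ w)
    (List.append_left_injective w)

/-- TASK A2. -/
theorem map_sub_pair (μ : PMF ℕ) {i j : ℕ} (hij : i ≠ j) :
    (confLaw μ d).map (fun c => (sub i c, sub j c)) = (confLaw μ d).prod (confLaw μ d) := by
  have h1 : (fun c : Conf d => (sub i c, sub j c)) =
      (fun w : ℕ → Conf d => (w i, w j)) ∘ (Prod.snd : Mark d × (ℕ → Conf d) → _) ∘
        (fun c => (c [], fun i : ℕ => sub i c)) := rfl
  rw [h1, ← Measure.map_map (by fun_prop) (measurable_snd.comp measurable_decomp),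
    ← Measure.map_map measurable_snd measurable_decomp, map_decomp, Measure.map_snd_prod,
    measure_univ, one_smul]
  exact Measure.infinitePi_map_eval_prod (P := fun _ : ℕ => confLaw μ d) hij

theorem a3_pmf (μ : PMF ℕ) (f : ℕ → ℝ≥0∞) : ∫⁻ n, f n ∂μ.toMeasure = ∑' n, μ n * f n := by
  rw [lintegral_countable']
  refine tsum_congr fun n => ?_
  rw [PMF.toMeasure_apply_singleton _ _ (measurableSet_singleton n), mul_comm]

theorem a3_uni (h : Fin d → ℝ≥0∞) : ∫⁻ j, h j ∂(uni d) = (∑ j, h j) / d := by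
  rw [lintegral_fintype]
  have : ∀ j, uni d {j} = (d : ℝ≥0∞)⁻¹ := by
    intro j
    unfold uni
    rw [PMF.toMeasure_apply_singleton _ _ (measurableSet_singleton j),
      PMF.uniformOfFintype_apply, Fintype.card_fin]
  simp only [this]
  rw [← Finset.sum_mul, div_eq_mul_inv]

theorem a3_meas (G : Fin d → Conf d → ℝ≥0∞) (hG : ∀ j, Measurable (G j)) (i : ℕ) :
    Measurable fun p : Mark d × (ℕ → Conf d) => G (p.1.2 i) (p.2 i) := by
  have h1 : Measurable fun q : Fin d × Conf d => G q.1 q.2 :=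
    measurable_from_prod_countable_right hG
  have h2 : Measurable fun p : Mark d × (ℕ → Conf d) => (p.1.2 i, p.2 i) := by fun_prop
  exact h1.comp h2

theorem a3_measN {β : Type*} [MeasurableSpace β] (F : ℕ → Mark d × β → ℝ≥0∞)
    (hF : ∀ n, Measurable (F n)) :
    Measurable fun p : Mark d × β => F p.1.1 p := by
  have h1 : Measurable fun q : ℕ × (Mark d × β) => F q.1 q.2 :=
    measurable_from_prod_countable_right hF
  have h2 : Measurable fun p : Mark d × β => (p.1.1, p) := by fun_prop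
  exact h1.comp h2

/-- TASK A3.  Product over the children of the root. -/
theorem lintegral_prod_children (μ : PMF ℕ) (G : Fin d → Conf d → ℝ≥0∞)
    (hG : ∀ j, Measurable (G j)) :
    ∫⁻ c, ∏ i ∈ Finset.range (c []).1, G ((c []).2 i) (sub i c) ∂(confLaw μ d) =
      gf μ ((∑ j, ∫⁻ c, G j c ∂(confLaw μ d)) / d) := by
  set F : Mark d × (ℕ → Conf d) → ℝ≥0∞ :=
    fun p => ∏ i ∈ Finset.range p.1.1, G (p.1.2 i) (p.2 i) with hF
  have hFm : Measurable F :=
    a3_measN (fun n (p : Mark d × (ℕ → Conf d)) => ∏ i ∈ Finset.range n, G (p.1.2 i) (p.2 i))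
      fun n => Finset.measurable_prod _ fun i _ => a3_meas G hG i
  have h1 : ∫⁻ c, ∏ i ∈ Finset.range (c []).1, G ((c []).2 i) (sub i c) ∂(confLaw μ d) =
      ∫⁻ p, F p ∂((markLaw μ d).prod (Measure.infinitePi fun _ : ℕ => confLaw μ d)) := by
    rw [← map_decomp, lintegral_map hFm measurable_decomp]
  set h : Fin d → ℝ≥0∞ := fun j => ∫⁻ c, G j c ∂(confLaw μ d) with hh
  have h2 : ∀ r : Mark d, ∫⁻ w, F (r, w) ∂(Measure.infinitePi fun _ : ℕ => confLaw μ d) =
      ∏ i ∈ Finset.range r.1, h (r.2 i) := by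
    intro r
    simp only [hF]
    rw [lintegral_prod_eq_prod_lintegral_of_indepFun (Finset.range r.1)
      (fun i (w : ℕ → Conf d) => G (r.2 i) (w i))
      (iIndepFun_infinitePi (X := fun i (c : Conf d) => G (r.2 i) c) fun i => hG _)
      fun i => (hG _).comp (measurable_pi_apply i)]
    refine Finset.prod_congr rfl fun i _ => ?_
    exact (measurePreserving_eval_infinitePi (fun _ : ℕ => confLaw μ d) i).lintegral_comp (hG _)
  have hrm : Measurable fun r : Mark d => ∏ i ∈ Finset.range r.1, h (r.2 i) := by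
    have := hFm.lintegral_prod_right' (ν := Measure.infinitePi fun _ : ℕ => confLaw μ d)
    simpa only [h2] using this
  rw [h1, lintegral_prod _ hFm.aemeasurable]
  simp only [h2]
  unfold markLaw
  rw [lintegral_prod _ hrm.aemeasurable]
  have h3 : ∀ n : ℕ, ∫⁻ s : ℕ → Fin d, ∏ i ∈ Finset.range n, h (s i)
      ∂(Measure.infinitePi fun _ : ℕ => uni d) = ((∑ j, h j) / d) ^ n := by
    intro n
    have hhm : Measurable h := measurable_of_countable h
    rw [lintegral_prod_eq_prod_lintegral_of_indepFun (Finset.range n)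
      (fun i (s : ℕ → Fin d) => h (s i))
      (iIndepFun_infinitePi (X := fun _ (j : Fin d) => h j) fun _ => hhm)
      fun i => hhm.comp (measurable_pi_apply i)]
    have h4 : ∀ i : ℕ, ∫⁻ s : ℕ → Fin d, h (s i) ∂(Measure.infinitePi fun _ : ℕ => uni d) =
        (∑ j, h j) / d := by
      intro i
      rw [← a3_uni]
      exact (measurePreserving_eval_infinitePi (fun _ : ℕ => uni d) i).lintegral_comp hhm
    simp only [h4, Finset.prod_const, Finset.card_range]
  simp only [h3]
  rw [a3_pmf]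
  rfl

/-- TASK A3.  Sum over the children of the root. -/
theorem lintegral_sum_children (μ : PMF ℕ) (G : Fin d → Conf d → ℝ≥0∞)
    (hG : ∀ j, Measurable (G j)) :
    ∫⁻ c, ∑ i ∈ Finset.range (c []).1, G ((c []).2 i) (sub i c) ∂(confLaw μ d) =
      (∑' n, μ n * n) * ((∑ j, ∫⁻ c, G j c ∂(confLaw μ d)) / d) := by
  set F : Mark d × (ℕ → Conf d) → ℝ≥0∞ :=
    fun p => ∑ i ∈ Finset.range p.1.1, G (p.1.2 i) (p.2 i) with hF
  have hFm : Measurable F :=
    a3_measN (fun n (p : Mark d × (ℕ → Conf d)) => ∑ i ∈ Finset.range n, G (p.1.2 i) (p.2 i))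
      fun n => Finset.measurable_sum _ fun i _ => a3_meas G hG i
  have h1 : ∫⁻ c, ∑ i ∈ Finset.range (c []).1, G ((c []).2 i) (sub i c) ∂(confLaw μ d) =
      ∫⁻ p, F p ∂((markLaw μ d).prod (Measure.infinitePi fun _ : ℕ => confLaw μ d)) := by
    rw [← map_decomp, lintegral_map hFm measurable_decomp]
  set h : Fin d → ℝ≥0∞ := fun j => ∫⁻ c, G j c ∂(confLaw μ d) with hh
  have h2 : ∀ r : Mark d, ∫⁻ w, F (r, w) ∂(Measure.infinitePi fun _ : ℕ => confLaw μ d) =
      ∑ i ∈ Finset.range r.1, h (r.2 i) := by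
    intro r
    simp only [hF]
    have hmi : ∀ i ∈ Finset.range r.1, Measurable fun w : ℕ → Conf d => G (r.2 i) (w i) :=
      fun i _ => (hG _).comp (measurable_pi_apply i)
    rw [lintegral_finsetSum _ hmi]
    refine Finset.sum_congr rfl fun i _ => ?_
    exact (measurePreserving_eval_infinitePi (fun _ : ℕ => confLaw μ d) i).lintegral_comp (hG _)
  have hrm : Measurable fun r : Mark d => ∑ i ∈ Finset.range r.1, h (r.2 i) := by
    have := hFm.lintegral_prod_right' (ν := Measure.infinitePi fun _ : ℕ => confLaw μ d)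
    simpa only [h2] using this
  rw [h1, lintegral_prod _ hFm.aemeasurable]
  simp only [h2]
  unfold markLaw
  rw [lintegral_prod _ hrm.aemeasurable]
  have h3 : ∀ n : ℕ, ∫⁻ s : ℕ → Fin d, ∑ i ∈ Finset.range n, h (s i)
      ∂(Measure.infinitePi fun _ : ℕ => uni d) = n * ((∑ j, h j) / d) := by
    intro n
    have hhm : Measurable h := measurable_of_countable h
    have hmi : ∀ i ∈ Finset.range n, Measurable fun s : ℕ → Fin d => h (s i) :=
      fun i _ => hhm.comp (measurable_pi_apply i)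
    rw [lintegral_finsetSum _ hmi]
    have h4 : ∀ i : ℕ, ∫⁻ s : ℕ → Fin d, h (s i) ∂(Measure.infinitePi fun _ : ℕ => uni d) =
        (∑ j, h j) / d := by
      intro i
      rw [← a3_uni]
      exact (measurePreserving_eval_infinitePi (fun _ : ℕ => uni d) i).lintegral_comp hhm
    simp only [h4, Finset.sum_const, Finset.card_range, nsmul_eq_mul]
  simp only [h3]
  rw [a3_pmf, ← ENNReal.tsum_mul_right]
  refine tsum_congr fun n => ?_
  rw [mul_assoc]

/-- TASK A4.  Measurability of sums over the children. -/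
theorem measurable_sum_children (G : Fin d → Conf d → ℝ≥0∞) (hG : ∀ j, Measurable (G j)) :
    Measurable fun c : Conf d => ∑ i ∈ Finset.range (c []).1, G ((c []).2 i) (sub i c) := by
  have hFm : Measurable fun p : Mark d × (ℕ → Conf d) =>
      ∑ i ∈ Finset.range p.1.1, G (p.1.2 i) (p.2 i) :=
    a3_measN (fun n (p : Mark d × (ℕ → Conf d)) => ∑ i ∈ Finset.range n, G (p.1.2 i) (p.2 i))
      fun n => Finset.measurable_sum _ fun i _ => a3_meas G hG i
  exact hFm.comp measurable_decomp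

theorem a4_ind (E : Fin d → Set (Conf d)) (c : Conf d) :
    {c : Conf d | ∀ i < (c []).1, sub i c ∈ E ((c []).2 i)}.indicator (1 : Conf d → ℝ≥0∞) c =
      ∏ i ∈ Finset.range (c []).1, (E ((c []).2 i)).indicator (1 : Conf d → ℝ≥0∞) (sub i c) := by
  classical
  by_cases h : ∀ i < (c []).1, sub i c ∈ E ((c []).2 i)
  · rw [Set.indicator_of_mem (by exact h), Pi.one_apply]
    symm
    refine Finset.prod_eq_one fun i hi => ?_
    rw [Set.indicator_of_mem (h i (Finset.mem_range.mp hi)), Pi.one_apply]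
  · rw [Set.indicator_of_notMem (by exact h)]
    push Not at h
    obtain ⟨i, hi, hni⟩ := h
    symm
    exact Finset.prod_eq_zero (Finset.mem_range.mpr hi) (Set.indicator_of_notMem hni _)

/-- TASK A4. -/
theorem measurableSet_exists_child (E : Fin d → Set (Conf d)) (hE : ∀ j, MeasurableSet (E j)) :
    MeasurableSet {c : Conf d | ∃ i < (c []).1, sub i c ∈ E ((c []).2 i)} := by
  classical
  have h1 : Measurable fun c : Conf d => ∑ i ∈ Finset.range (c []).1,
      (E ((c []).2 i)).indicator (1 : Conf d → ℝ≥0∞) (sub i c) :=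
    measurable_sum_children (fun j => (E j).indicator 1) fun j => measurable_one.indicator (hE j)
  have h2 : {c : Conf d | ∃ i < (c []).1, sub i c ∈ E ((c []).2 i)} =
      (fun c : Conf d => ∑ i ∈ Finset.range (c []).1,
        (E ((c []).2 i)).indicator (1 : Conf d → ℝ≥0∞) (sub i c)) ⁻¹' {0}ᶜ := by
    ext c
    simp only [Set.mem_ofPred_eq, Set.mem_preimage, Set.mem_compl_iff, Set.mem_singleton_iff,
      Finset.sum_eq_zero_iff, Finset.mem_range, Set.indicator_apply, Pi.one_apply]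
    push Not
    constructor
    · rintro ⟨i, hi, hm⟩
      exact ⟨i, hi, by rw [if_pos hm]; exact one_ne_zero⟩
    · rintro ⟨i, hi, hm⟩
      refine ⟨i, hi, ?_⟩
      by_contra hn
      exact hm (if_neg hn)
  rw [h2]
  exact h1 (measurableSet_singleton 0).compl

/-- TASK A4 (from A3).  All children of the root have a property. -/
theorem measure_forall_children (μ : PMF ℕ) (E : Fin d → Set (Conf d))
    (hE : ∀ j, MeasurableSet (E j)) :
    confLaw μ d {c | ∀ i < (c []).1, sub i c ∈ E ((c []).2 i)} =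
      gf μ ((∑ j, confLaw μ d (E j)) / d) := by
  have hm : MeasurableSet {c : Conf d | ∀ i < (c []).1, sub i c ∈ E ((c []).2 i)} := by
    have h1 := (measurableSet_exists_child (fun j => (E j)ᶜ) fun j => (hE j).compl).compl
    convert h1 using 1
    ext c
    simp
  rw [← lintegral_indicator_one hm]
  have h2 : ∀ c : Conf d, {c : Conf d | ∀ i < (c []).1, sub i c ∈ E ((c []).2 i)}.indicator
      (1 : Conf d → ℝ≥0∞) c = _ := a4_ind E
  rw [lintegral_congr h2, lintegral_prod_children μ (fun j => (E j).indicator 1)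
    fun j => measurable_one.indicator (hE j)]
  congr 2
  refine Finset.sum_congr rfl fun j _ => ?_
  exact lintegral_indicator_one (hE j)

end MP_9b4c76_pr
end

section

/-! Deterministic facts on labels (TASK T1: the whole file). -/

namespace MP_9b4c76_pr

open scoped ENNReal NNReal

variable {V : Type*} {d : ℕ} (nb : V → Fin d → V)

theorem subL_append_singleton (c : Conf d) (u : List ℕ) (i : ℕ) :
    subL (u ++ [i]) c = subL u (sub i c) := by
  funext v
  simp only [subL, sub, List.append_assoc]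

theorem alive_append_singleton (c : Conf d) (u : List ℕ) (i : ℕ) :
    Alive c (u ++ [i]) ↔ i < (c []).1 ∧ Alive (sub i c) u := by
  induction u with
  | nil => simp [Alive]
  | cons j u ih =>
    rw [List.cons_append]
    simp only [Alive]
    rw [ih]
    simp only [sub]
    tauto

theorem pos_append_singleton (x : V) (c : Conf d) (u : List ℕ) (i : ℕ) :
    pos nb x c (u ++ [i]) = pos nb (nb x ((c []).2 i)) (sub i c) u := by
  induction u with
  | nil => simp [pos]
  | cons j u ih =>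
    rw [List.cons_append]
    simp only [pos]
    rw [ih]
    rfl

theorem alive_append (c : Conf d) (u w : List ℕ) :
    Alive c (u ++ w) ↔ Alive c w ∧ Alive (subL w c) u := by
  induction u with
  | nil => simp [Alive]
  | cons j u ih =>
    rw [List.cons_append]
    simp only [Alive]
    rw [ih]
    simp only [subL]
    tauto

theorem pos_append (x : V) (c : Conf d) (u w : List ℕ) :
    pos nb x c (u ++ w) = pos nb (pos nb x c w) (subL w c) u := by
  induction u with
  | nil => simp [pos]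
  | cons j u ih =>
    rw [List.cons_append]
    simp only [pos]
    rw [ih]
    rfl

theorem subL_append (c : Conf d) (u w : List ℕ) : subL (u ++ w) c = subL u (subL w c) := by
  funext v
  simp only [subL, List.append_assoc]

/-- finitely many particles in every generation -/
theorem finite_alive_le (c : Conf d) (n : ℕ) : {u : List ℕ | u.length ≤ n ∧ Alive c u}.Finite := by
  induction n with
  | zero =>
    refine (Set.finite_singleton ([] : List ℕ)).subset ?_
    rintro u ⟨h1, -⟩
    exact List.length_eq_zero_iff.mp (by omega)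
  | succ n ih =>
    have h2 : {u : List ℕ | u.length ≤ n + 1 ∧ Alive c u} ⊆ {[]} ∪
        ⋃ u ∈ {u : List ℕ | u.length ≤ n ∧ Alive c u},
          (fun i => i :: u) '' (Set.Iio (c u).1) := by
      rintro u ⟨h1, h2⟩
      cases u with
      | nil => exact Or.inl rfl
      | cons i u =>
        right
        simp only [Alive] at h2
        simp only [List.length_cons] at h1
        simp only [Set.mem_iUnion]
        exact ⟨u, ⟨by omega, h2.1⟩, i, h2.2, rfl⟩
    refine Set.Finite.subset ?_ h2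
    exact (Set.finite_singleton _).union
      (ih.biUnion fun u _ => (Set.finite_Iio _).image _)

theorem ex_zero (Q : ℕ → V → Conf d → Prop) (x : V) (c : Conf d) : Ex nb Q 0 x c ↔ Q 0 x c := by
  have h0 : subL ([] : List ℕ) c = c := by
    funext v
    simp [subL]
  constructor
  · rintro ⟨u, h1, -, h3⟩
    have hu : u = [] := List.length_eq_zero_iff.mp (by omega)
    subst hu
    rw [h0] at h3
    exact h3
  · intro h
    refine ⟨[], by simp, trivial, ?_⟩
    rw [h0]
    exact h

/-- first-generation decomposition of `Ex` -/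
theorem ex_succ (Q : ℕ → V → Conf d → Prop) (n : ℕ) (x : V) (c : Conf d) :
    Ex nb Q (n + 1) x c ↔ Q 0 x c ∨
      ∃ i < (c []).1, Ex nb (fun k => Q (k + 1)) n (nb x ((c []).2 i)) (sub i c) := by
  have h0 : subL ([] : List ℕ) c = c := by
    funext v
    simp [subL]
  constructor
  · rintro ⟨u, h1, h2, h3⟩
    rcases List.eq_nil_or_concat' u with rfl | ⟨u', i, rfl⟩
    · left
      rw [h0] at h3
      exact h3
    · right
      rw [alive_append_singleton] at h2
      rw [pos_append_singleton, subL_append_singleton, List.length_append] at h3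
      rw [List.length_append] at h1
      simp only [List.length_singleton] at h1 h3
      exact ⟨i, h2.1, u', by omega, h2.2, h3⟩
  · rintro (h | ⟨i, hi, u, h1, h2, h3⟩)
    · refine ⟨[], by simp, trivial, ?_⟩
      rw [h0]
      exact h
    · refine ⟨u ++ [i], ?_, ?_, ?_⟩
      · rw [List.length_append, List.length_singleton]
        omega
      · rw [alive_append_singleton]
        exact ⟨hi, h2⟩
      · rw [pos_append_singleton, subL_append_singleton, List.length_append,
          List.length_singleton]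
        exact h3

theorem t1b_cnt (f : V → ℝ) (a : ℝ) (n : ℕ) : ∀ (b : Bool) (y : V) (c : Conf d) (s : Finset ℕ)
    (_ : ∀ k ∈ s, k ≤ n ∧ (Even k ↔ b = true) ∧
      ∃ u : List ℕ, u.length = k ∧ Alive c u ∧ a ≤ f (pos nb y c u)),
    s.card ≤ cnt nb f a n b y c := by
  classical
  -- the generation `0`
  have key0 : ∀ (n : ℕ) (b : Bool) (y : V) (c : Conf d) (s : Finset ℕ)
      (_ : ∀ k ∈ s, k ≤ n ∧ (Even k ↔ b = true) ∧
        ∃ u : List ℕ, u.length = k ∧ Alive c u ∧ a ≤ f (pos nb y c u)),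
      (s.filter (· = 0)).card ≤ if b = true ∧ a ≤ f y then 1 else 0 := by
    intro n b y c s hs
    by_cases h0 : 0 ∈ s
    · obtain ⟨-, h2, u, h3, -, h5⟩ := hs 0 h0
      have hu : u = [] := List.length_eq_zero_iff.mp h3
      subst hu
      rw [if_pos ⟨h2.mp Even.zero, h5⟩]
      rw [Finset.filter_eq']
      split_ifs <;> simp
    · rw [Finset.filter_eq', if_neg h0]
      simp
  induction n with
  | zero =>
    intro b y c s hs
    have h1 : s = s.filter (· = 0) := by
      ext k
      simp only [Finset.mem_filter]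
      constructor
      · intro hk
        exact ⟨hk, by have := (hs k hk).1; omega⟩
      · exact fun h => h.1
    rw [h1]
    exact key0 0 b y c s hs
  | succ n ih =>
    intro b y c s hs
    have h1 : s.card = (s.filter (· = 0)).card + (s.filter (¬ · = 0)).card :=
      (Finset.card_filter_add_card_filter_not _).symm
    let S : ℕ → Finset ℕ := fun i => (Finset.range (n + 1)).filter fun k => k + 1 ∈ s ∧
      ∃ u : List ℕ, u.length = k ∧ Alive (sub i c) u ∧
        a ≤ f (pos nb (nb y ((c []).2 i)) (sub i c) u)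
    have h2 : s.filter (¬ · = 0) ⊆
        (Finset.range (c []).1).biUnion fun i => (S i).image (· + 1) := by
      intro k hk
      rw [Finset.mem_filter] at hk
      obtain ⟨h3, -, u, h4, h5, h6⟩ := hs k hk.1
      rcases List.eq_nil_or_concat' u with rfl | ⟨u', i, rfl⟩
      · exact absurd h4.symm hk.2
      · rw [alive_append_singleton] at h5
        rw [pos_append_singleton] at h6
        rw [List.length_append, List.length_singleton] at h4
        simp only [Finset.mem_biUnion, Finset.mem_range, Finset.mem_image]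
        refine ⟨i, h5.1, u'.length, ?_, h4⟩
        simp only [S, Finset.mem_filter, Finset.mem_range]
        exact ⟨by omega, by rw [h4]; exact hk.1, u', rfl, h5.2, h6⟩
    have h3 : (s.filter (¬ · = 0)).card ≤
        ∑ i ∈ Finset.range (c []).1, cnt nb f a n (!b) (nb y ((c []).2 i)) (sub i c) := by
      refine (Finset.card_le_card h2).trans (Finset.card_biUnion_le.trans ?_)
      refine Finset.sum_le_sum fun i _ => ?_
      refine Finset.card_image_le.trans (ih (!b) _ _ _ ?_)
      intro k hk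
      simp only [S, Finset.mem_filter, Finset.mem_range] at hk
      refine ⟨by omega, ?_, hk.2.2⟩
      have h4 := (hs (k + 1) hk.2.1).2.1
      rw [Nat.even_add_one] at h4
      cases b
      · simp only [Bool.false_eq_true, iff_false, not_not] at h4
        simp [h4]
      · simp only [iff_true] at h4
        simp [h4]
    have h4 := key0 (n + 1) b y c s hs
    rw [cnt, h1]
    exact add_le_add h4 h3

/-- the count dominates the number of even generations containing a particle at a site with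
`a ≤ f` -/
theorem le_cnt (f : V → ℝ) (a : ℝ) (n : ℕ) (y : V) (c : Conf d) (s : Finset ℕ)
    (hs : ∀ k ∈ s, k ≤ n ∧ Even k ∧ ∃ u : List ℕ, u.length = k ∧ Alive c u ∧ a ≤ f (pos nb y c u)) :
    s.card ≤ cnt nb f a n true y c := by
  refine t1b_cnt nb f a n true y c s fun k hk => ?_
  obtain ⟨h1, h2, h3⟩ := hs k hk
  exact ⟨h1, by simp [h2], h3⟩

end MP_9b4c76_pr
end

section

/-! The law of a branching random walk is that of the canonical one. -/

namespace MP_9b4c76_pr

open MeasureTheory ProbabilityTheory Filter Topology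
open scoped ENNReal NNReal

variable {V : Type*} {d : ℕ} [NeZero d]

/-- TASK W1. -/
theorem isParticle_iff (c : Conf d) (u : List ℕ) :
    IsParticle (fun v => (c v).1) u ↔ Alive c u := by
  induction u with
  | nil => simp [IsParticle, Alive]
  | cons i u ih => simp [IsParticle, Alive, ih]

/-- the observables of the canonical process -/
def obs (nb : V → Fin d → V) (o : V) (c : Conf d) : List ℕ → ℕ × V :=
  fun u => ((c u).1, pos nb o c u)

/-- the event of a cylinder is a box -/
theorem cyl_box_aux {nb : V → Fin d → V} (F : Finset (List ℕ)) (hF0 : [] ∈ F)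
    (hF : ∀ i u, i :: u ∈ F → u ∈ F) (k : List ℕ → ℕ) (x : List ℕ → V) :
    {c : Conf d | ∀ u ∈ F, (c u).1 = k u ∧ pos nb (x []) c u = x u} =
      Set.pi (F : Set (List ℕ)) fun v =>
        {m : Mark d | m.1 = k v ∧ ∀ i, i :: v ∈ F → nb (x v) (m.2 i) = x (i :: v)} := by
  ext c
  simp only [Set.mem_setOf_eq, Set.mem_pi, Finset.mem_coe]
  constructor
  · intro h v hv
    refine ⟨(h v hv).1, fun i hi => ?_⟩
    have h1 := (h _ hi).2
    rw [pos, (h v hv).2] at h1
    exact h1
  · intro h u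
    induction u with
    | nil => intro hu; exact ⟨(h _ hu).1, rfl⟩
    | cons i u ih =>
      intro hu
      refine ⟨(h _ hu).1, ?_⟩
      have h1 := ih (hF i u hu)
      rw [pos, h1.2]
      exact (h u (hF i u hu)).2 i hu

theorem uni_apply_aux (G : SimpleGraph V) [G.LocallyFinite] {nb : V → Fin d → V}
    (hinj : ∀ x, Function.Injective (nb x))
    (hadj : ∀ x y, G.Adj x y ↔ ∃ j, nb x j = y) (hdeg : ∀ x, G.degree x = d) (y z : V) :
    uni d {j | nb y j = z} = ENNReal.ofReal (stepProb G 1 y z) := by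
  classical
  have hd : (0 : ℝ) < d := by exact_mod_cast Nat.pos_of_ne_zero (NeZero.ne d)
  have h1 : stepProb G 1 y z = if G.Adj y z then (d : ℝ)⁻¹ else 0 := by
    simp only [stepProb, hdeg]
    have : ∀ w ∈ G.neighborFinset y, (d : ℝ)⁻¹ * (if w = z then (1 : ℝ) else 0) =
        if w = z then (d : ℝ)⁻¹ else 0 := by
      intro w _
      split_ifs <;> simp
    rw [Finset.sum_congr rfl this, Finset.sum_ite_eq']
    simp
  rw [h1]
  unfold uni
  by_cases hyz : G.Adj y z
  · obtain ⟨j, hj⟩ := (hadj y z).1 hyz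
    have h2 : {j | nb y j = z} = {j} := by
      ext i
      simp only [Set.mem_setOf_eq, Set.mem_singleton_iff]
      constructor
      · intro h; exact hinj y (h.trans hj.symm)
      · rintro rfl; exact hj
    rw [h2, PMF.toMeasure_apply_singleton _ _ (MeasurableSet.singleton _), if_pos hyz,
      PMF.uniformOfFintype_apply, Fintype.card_fin, ENNReal.ofReal_inv_of_pos hd,
      ENNReal.ofReal_natCast]
  · have h2 : {j | nb y j = z} = ∅ := by
      ext i
      simp only [Set.mem_setOf_eq, Set.mem_empty_iff_false, iff_false]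
      intro h
      exact hyz ((hadj y z).2 ⟨i, h⟩)
    rw [h2, if_neg hyz]
    simp

/-- TASK W2.  Cylinder probabilities of the canonical process. -/
theorem confLaw_cylinder (G : SimpleGraph V) [G.LocallyFinite] {nb : V → Fin d → V}
    (hinj : ∀ x, Function.Injective (nb x))
    (hadj : ∀ x y, G.Adj x y ↔ ∃ j, nb x j = y) (hdeg : ∀ x, G.degree x = d)
    (μ : PMF ℕ) (F : Finset (List ℕ)) (hF0 : [] ∈ F) (hF : ∀ i u, i :: u ∈ F → u ∈ F)
    (k : List ℕ → ℕ) (x : List ℕ → V) :
    confLaw μ d {c | ∀ u ∈ F, (c u).1 = k u ∧ pos nb (x []) c u = x u} =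
      ∏ u ∈ F, μ (k u) * stepFactor G x u := by
  classical
  rw [cyl_box_aux F hF0 hF]
  -- finite set of children in F
  let I : List ℕ → Finset ℕ := fun v =>
    (F.filter fun u => u ≠ [] ∧ u.tail = v).image fun u => u.head?.getD 0
  have hI : ∀ v i, i ∈ I v ↔ i :: v ∈ F := by
    intro v i
    simp only [I, Finset.mem_image, Finset.mem_filter]
    constructor
    · rintro ⟨u, ⟨hu, hne, ht⟩, hi⟩
      cases u with
      | nil => exact absurd rfl hne
      | cons a t =>
        simp only [List.tail_cons] at ht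
        simp only [List.head?_cons, Option.getD_some] at hi
        subst ht hi
        exact hu
    · intro h
      exact ⟨i :: v, ⟨h, by simp, rfl⟩, by simp⟩
  have hset : ∀ v, {m : Mark d | m.1 = k v ∧ ∀ i, i :: v ∈ F → nb (x v) (m.2 i) = x (i :: v)} =
      ({k v} : Set ℕ) ×ˢ (Set.pi (I v : Set ℕ) fun i => {j | nb (x v) j = x (i :: v)}) := by
    intro v
    ext m
    simp only [Set.mem_setOf_eq, Set.mem_prod, Set.mem_singleton_iff, Set.mem_pi,
      Finset.mem_coe, hI]
  have hmeas : ∀ v, MeasurableSet (Set.pi (I v : Set ℕ) fun i =>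
      ({j | nb (x v) j = x (i :: v)} : Set (Fin d))) := fun v =>
    MeasurableSet.pi (I v).countable_toSet fun _ _ => MeasurableSet.of_discrete
  have hval : ∀ v, markLaw μ d
      {m : Mark d | m.1 = k v ∧ ∀ i, i :: v ∈ F → nb (x v) (m.2 i) = x (i :: v)} =
      μ (k v) * ∏ i ∈ I v, ENNReal.ofReal (stepProb G 1 (x v) (x (i :: v))) := by
    intro v
    rw [hset]
    unfold markLaw
    rw [Measure.prod_prod, PMF.toMeasure_apply_singleton _ _ (MeasurableSet.singleton _),
      Measure.infinitePi_pi _ (fun _ _ => MeasurableSet.of_discrete)]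
    congr 1
    exact Finset.prod_congr rfl fun i _ => uni_apply_aux G hinj hadj hdeg _ _
  unfold confLaw
  rw [Measure.infinitePi_pi _ (fun v _ => by
    rw [hset]
    exact (MeasurableSet.singleton _).prod (hmeas v))]
  rw [Finset.prod_congr rfl fun v _ => hval v, Finset.prod_mul_distrib, Finset.prod_mul_distrib]
  congr 1
  rw [← Finset.prod_erase F (a := ([] : List ℕ)) (f := fun u => stepFactor G x u) rfl,
    Finset.prod_sigma']
  refine Finset.prod_bij' (fun p _ => p.2 :: p.1)
    (fun u _ => (⟨u.tail, u.head?.getD 0⟩ : Σ _ : List ℕ, ℕ)) ?_ ?_ ?_ ?_ ?_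
  · rintro ⟨v, i⟩ hp
    simp only [Finset.mem_sigma, hI] at hp
    simp [hp.2]
  · rintro u hu
    rw [Finset.mem_erase] at hu
    cases u with
    | nil => exact absurd rfl hu.1
    | cons a t =>
      simp only [Finset.mem_sigma, hI, List.tail_cons, List.head?_cons, Option.getD_some]
      exact ⟨hF _ _ hu.2, hu.2⟩
  · rintro ⟨v, i⟩ _
    simp
  · rintro u hu
    rw [Finset.mem_erase] at hu
    cases u with
    | nil => exact absurd rfl hu.1
    | cons a t => simp
  · rintro ⟨v, i⟩ _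
    rfl

/-- the closure of a label under taking ancestors -/
def anc : List ℕ → Finset (List ℕ)
  | [] => {[]}
  | i :: u => insert (i :: u) (anc u)

theorem nil_mem_anc (u : List ℕ) : [] ∈ anc u := by
  induction u with
  | nil => simp [anc]
  | cons i u ih => simp [anc, ih]

theorem self_mem_anc (u : List ℕ) : u ∈ anc u := by
  cases u <;> simp [anc]

theorem anc_closed (u : List ℕ) : ∀ i v, i :: v ∈ anc u → v ∈ anc u := by
  induction u with
  | nil => intro i v h; simp [anc] at h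
  | cons j u ih =>
    intro i v h
    simp only [anc, Finset.mem_insert, List.cons.injEq] at h ⊢
    rcases h with ⟨_, rfl⟩ | h
    · exact Or.inr (self_mem_anc _)
    · exact Or.inr (ih i v h)

/-- TASK W3.  Two probability measures on `List ℕ → ℕ × V` which agree on the cylinders with
tree-like support are equal (`V` countable with its discrete σ-algebra). -/
theorem ext_of_cylinder [Countable V] [MeasurableSpace V] [MeasurableSingletonClass V]
    (P Q : Measure (List ℕ → ℕ × V)) [IsProbabilityMeasure P] [IsProbabilityMeasure Q]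
    (h : ∀ F : Finset (List ℕ), [] ∈ F → (∀ i u, i :: u ∈ F → u ∈ F) → ∀ x : List ℕ → ℕ × V,
      P {w | ∀ u ∈ F, w u = x u} = Q {w | ∀ u ∈ F, w u = x u}) : P = Q := by
  classical
  let C : Set (Set (List ℕ → ℕ × V)) := {s | ∃ F : Finset (List ℕ), [] ∈ F ∧
    (∀ i u, i :: u ∈ F → u ∈ F) ∧ ∃ x : List ℕ → ℕ × V, s = {w | ∀ u ∈ F, w u = x u}}
  have hCm : ∀ s ∈ C, MeasurableSet s := by
    rintro s ⟨F, _, _, x, rfl⟩
    have : {w : List ℕ → ℕ × V | ∀ u ∈ F, w u = x u} =
        ⋂ u ∈ F, (fun w : List ℕ → ℕ × V => w u) ⁻¹' {x u} := by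
      ext w; simp
    rw [this]
    exact Finset.measurableSet_biInter _ fun u _ =>
      (measurable_pi_apply u) (MeasurableSet.singleton _)
  refine ext_of_generate_finite C ?_ ?_ ?_ (by simp)
  · apply le_antisymm
    · rw [MeasurableSpace.pi]
      refine iSup_le fun u => ?_
      rintro _ ⟨A, hA, rfl⟩
      have hrep : (fun w : List ℕ → ℕ × V => w u) ⁻¹' A =
          ⋃ y : {y : anc u → ℕ × V // y ⟨u, self_mem_anc u⟩ ∈ A},
            {w : List ℕ → ℕ × V | ∀ v ∈ anc u, w v =
              (fun v => if hv : v ∈ anc u then y.1 ⟨v, hv⟩ else w v) v} := by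
        ext w
        simp only [Set.mem_preimage, Set.mem_iUnion, Set.mem_setOf_eq]
        constructor
        · intro hw
          refine ⟨⟨fun v => w v, hw⟩, fun v hv => ?_⟩
          simp [hv]
        · rintro ⟨⟨y, hy⟩, hw⟩
          have := hw u (self_mem_anc u)
          simp only [self_mem_anc u, dif_pos] at this
          rw [this]; exact hy
      rw [hrep]
      refine MeasurableSet.iUnion fun y => ?_
      apply MeasurableSpace.measurableSet_generateFrom
      by_cases hne : Nonempty (ℕ × V)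
      · refine ⟨anc u, nil_mem_anc u, anc_closed u,
          fun v => if hv : v ∈ anc u then y.1 ⟨v, hv⟩ else hne.some, ?_⟩
        ext w
        simp only [Set.mem_setOf_eq]
        refine forall₂_congr fun v hv => ?_
        simp [hv]
      · exact absurd ⟨y.1 ⟨u, self_mem_anc u⟩⟩ hne
    · exact MeasurableSpace.generateFrom_le hCm
  · rintro s ⟨F, hF0, hF, x, rfl⟩ t ⟨F', hF0', hF', x', rfl⟩ ⟨w0, hw0, hw0'⟩
    refine ⟨F ∪ F', by simp [hF0], ?_, w0, ?_⟩
    · intro i u hu
      rw [Finset.mem_union] at hu ⊢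
      exact hu.imp (hF i u) (hF' i u)
    · ext w
      simp only [Set.mem_inter_iff, Set.mem_setOf_eq, Finset.mem_union] at hw0 hw0' ⊢
      constructor
      · rintro ⟨h1, h2⟩ u (hu | hu)
        · rw [h1 u hu, hw0 u hu]
        · rw [h2 u hu, hw0' u hu]
      · intro h
        exact ⟨fun u hu => by rw [h u (Or.inl hu), hw0 u hu],
          fun u hu => by rw [h u (Or.inr hu), hw0' u hu]⟩
  · rintro s ⟨F, hF0, hF, x, rfl⟩
    exact h F hF0 hF x

/-- The good event in terms of the observables. -/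
def GoodObs (w : List ℕ → ℕ × V) : Prop :=
  (∀ u, 0 < (w u).1) ∧
  (∀ n : ℕ, ∃ g, (n : ℕ∞) ≤ {u : List ℕ | u.length = g ∧ IsParticle (fun v => (w v).1) u}.encard) ∧
  (∀ z, {u | IsParticle (fun v => (w v).1) u ∧ (w u).2 = z}.Finite) ∧
  (∀ v i j, i ≠ j → (below (fun v => (w v).1) (fun v => (w v).2) (i :: v) ∩
    below (fun v => (w v).1) (fun v => (w v).2) (j :: v)).Finite)

theorem natCast_le_encard_iff {α : Type*} (S : Set α) (n : ℕ) :
    (n : ℕ∞) ≤ S.encard ↔ ∃ t : Finset α, t.card = n ∧ ∀ u ∈ t, u ∈ S := by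
  constructor
  · intro h
    obtain ⟨t, ht, hc⟩ := Set.exists_subset_encard_eq h
    have hfin : t.Finite := Set.finite_of_encard_eq_coe hc
    refine ⟨hfin.toFinset, ?_, fun u hu => ht (by simpa using hu)⟩
    have := hfin.encard_eq_coe_toFinset_card
    rw [hc] at this
    exact_mod_cast this.symm
  · rintro ⟨t, rfl, ht⟩
    rw [← Set.encard_coe_eq_coe_finsetCard]
    exact Set.encard_le_encard ht

theorem finite_iff_exists_finset {α : Type*} (S : Set α) :
    S.Finite ↔ ∃ t : Finset α, ∀ u, u ∈ S → u ∈ t := by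
  constructor
  · intro h; exact ⟨h.toFinset, fun u hu => by simpa using hu⟩
  · rintro ⟨t, ht⟩; exact t.finite_toSet.subset ht

section meas

variable [Countable V] [MeasurableSpace V] [MeasurableSingletonClass V]

theorem measurableSet_isParticle (u : List ℕ) :
    MeasurableSet {w : List ℕ → ℕ × V | IsParticle (fun v => (w v).1) u} := by
  induction u with
  | nil => simp [IsParticle]
  | cons i u ih =>
    have h1 : MeasurableSet {w : List ℕ → ℕ × V | i < (w u).1} :=
      (measurable_fst.comp (measurable_pi_apply u)) (measurableSet_Ioi (a := i))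
    exact ih.inter h1

theorem measurableSet_pos_eq (u : List ℕ) (z : V) :
    MeasurableSet {w : List ℕ → ℕ × V | (w u).2 = z} :=
  (measurable_snd.comp (measurable_pi_apply u)) (MeasurableSet.singleton z)

theorem measurableSet_below (v : List ℕ) (z : V) :
    MeasurableSet {w : List ℕ → ℕ × V |
      z ∈ below (fun v => (w v).1) (fun v => (w v).2) v} := by
  have : {w : List ℕ → ℕ × V | z ∈ below (fun v => (w v).1) (fun v => (w v).2) v} =
      ⋃ u : List ℕ, {w : List ℕ → ℕ × V | IsParticle (fun v => (w v).1) (u ++ v)} ∩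
        {w | (w (u ++ v)).2 = z} := by
    ext w; simp [below]
  rw [this]
  exact MeasurableSet.iUnion fun u =>
    (measurableSet_isParticle _).inter (measurableSet_pos_eq _ _)

end meas

/-- TASK W4.  The good event is measurable. -/
theorem measurableSet_goodObs [Countable V] [MeasurableSpace V] [MeasurableSingletonClass V] :
    MeasurableSet {w : List ℕ → ℕ × V | GoodObs w} := by
  have hP : ∀ u : List ℕ, Measurable fun w : List ℕ → ℕ × V =>
      IsParticle (fun v => (w v).1) u := fun u =>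
    measurableSet_setOf.1 (measurableSet_isParticle u)
  have hX : ∀ (u : List ℕ) (z : V), Measurable fun w : List ℕ → ℕ × V => (w u).2 = z :=
    fun u z => measurableSet_setOf.1 (measurableSet_pos_eq u z)
  have hB : ∀ (v : List ℕ) (z : V), Measurable fun w : List ℕ → ℕ × V =>
      z ∈ below (fun v => (w v).1) (fun v => (w v).2) v :=
    fun v z => measurableSet_setOf.1 (measurableSet_below v z)
  have hN : ∀ u : List ℕ, Measurable fun w : List ℕ → ℕ × V => 0 < (w u).1 := fun u =>
    measurableSet_setOf.1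
      ((measurable_fst.comp (measurable_pi_apply u)) (measurableSet_Ioi (a := 0)))
  rw [measurableSet_setOf]
  unfold GoodObs
  refine Measurable.and (Measurable.forall hN) (Measurable.and ?_ (Measurable.and ?_ ?_))
  · refine Measurable.forall fun n => Measurable.exists fun g => ?_
    simp only [natCast_le_encard_iff, Set.mem_setOf_eq]
    refine Measurable.exists fun t => Measurable.and measurable_const ?_
    refine Measurable.forall fun u => Measurable.imp measurable_const ?_
    exact Measurable.and measurable_const (hP u)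
  · refine Measurable.forall fun z => ?_
    simp only [finite_iff_exists_finset, Set.mem_setOf_eq]
    refine Measurable.exists fun t => Measurable.forall fun u => ?_
    exact Measurable.imp (Measurable.and (hP u) (hX u z)) measurable_const
  · refine Measurable.forall fun v => Measurable.forall fun i => Measurable.forall fun j =>
      Measurable.imp measurable_const ?_
    simp only [finite_iff_exists_finset, Set.mem_inter_iff]
    refine Measurable.exists fun t => Measurable.forall fun z => ?_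
    exact Measurable.imp (Measurable.and (hB _ z) (hB _ z)) measurable_const

/-- TASK W5 (from W2, W3).  Transfer of the almost sure statement. -/
theorem transfer [Countable V] {Ω : Type*} [MeasurableSpace Ω] (G : SimpleGraph V)
    [G.LocallyFinite]
    {nb : V → Fin d → V} (hinj : ∀ x, Function.Injective (nb x))
    (hadj : ∀ x y, G.Adj x y ↔ ∃ j, nb x j = y) (hdeg : ∀ x, G.degree x = d)
    (μ : PMF ℕ) (o : V) (P : Measure Ω) [IsProbabilityMeasure P] {N : List ℕ → Ω → ℕ}
    {X : List ℕ → Ω → V} (h : IsBRW G μ o P N X)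
    (hgood : ∀ᵐ c ∂(confLaw μ d), GoodObs (obs nb o c)) :
    ∀ᵐ ω ∂P, GoodObs (fun u => (N u ω, X u ω)) := by
  classical
  letI : MeasurableSpace V := ⊤
  haveI : MeasurableSingletonClass V := ⟨fun _ => trivial⟩
  haveI : DiscreteMeasurableSpace V := ⟨fun _ => trivial⟩
  have hNm : ∀ u, Measurable (N u) := fun u => measurable_to_countable' fun n => h.meas_N u n
  have hXm : ∀ u, Measurable (X u) := fun u => measurable_to_countable' fun x => h.meas_X u x
  have hm1 : Measurable fun (ω : Ω) (u : List ℕ) => (N u ω, X u ω) :=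
    measurable_pi_lambda _ fun u => (hNm u).prodMk (hXm u)
  have hpos : ∀ u, Measurable fun c : Conf d => pos nb o c u := by
    intro u
    induction u with
    | nil => exact measurable_const
    | cons i u ih =>
      have h1 : Measurable fun c : Conf d => (pos nb o c u, (c u).2 i) :=
        ih.prodMk ((measurable_pi_apply i).comp (measurable_snd.comp (measurable_pi_apply u)))
      have h2 : Measurable fun p : V × Fin d => nb p.1 p.2 := measurable_of_countable _
      exact h2.comp h1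
  have hm2 : Measurable (obs nb o : Conf d → List ℕ → ℕ × V) :=
    measurable_pi_lambda _ fun u =>
      (measurable_fst.comp (measurable_pi_apply u)).prodMk (hpos u)
  have hroot : P {ω | X [] ω ≠ o} = 0 := by
    have h1 : P {ω | X [] ω = o} = 1 := by
      have h2 : {ω | X [] ω = o} = ⋃ n : ℕ, {ω | N [] ω = n ∧ X [] ω = o} := by
        ext ω; simp
      rw [h2, measure_iUnion]
      · have h3 : ∀ n : ℕ, P {ω | N [] ω = n ∧ X [] ω = o} = μ n := by
          intro n
          have := h.law {[]} (by simp) (by intro i u hu; simp at hu) (fun _ => n) (fun _ => o) rfl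
          simpa [stepFactor] using this
        rw [tsum_congr h3]
        exact μ.tsum_coe
      · intro m n hmn
        rw [Function.onFun, Set.disjoint_left]
        rintro ω ⟨h3, _⟩ ⟨h4, _⟩
        exact hmn (h3.symm.trans h4)
      · intro n
        exact (h.meas_N [] n).inter (h.meas_X [] o)
    have h2 : {ω | X [] ω ≠ o} = {ω | X [] ω = o}ᶜ := rfl
    rw [h2, prob_compl_eq_zero_iff (h.meas_X [] o)]
    exact h1
  have hmap : P.map (fun (ω : Ω) (u : List ℕ) => (N u ω, X u ω)) =
      (confLaw μ d).map (obs nb o) := by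
    haveI := Measure.isProbabilityMeasure_map (μ := P) hm1.aemeasurable
    haveI := Measure.isProbabilityMeasure_map (μ := confLaw μ d) hm2.aemeasurable
    refine ext_of_cylinder _ _ fun F hF0 hF x => ?_
    have hms : MeasurableSet {w : List ℕ → ℕ × V | ∀ u ∈ F, w u = x u} := by
      have : {w : List ℕ → ℕ × V | ∀ u ∈ F, w u = x u} =
          ⋂ u ∈ F, (fun w : List ℕ → ℕ × V => w u) ⁻¹' {x u} := by
        ext w; simp
      rw [this]
      exact Finset.measurableSet_biInter _ fun u _ =>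
        (measurable_pi_apply u) (MeasurableSet.singleton _)
    rw [Measure.map_apply hm1 hms, Measure.map_apply hm2 hms]
    have e1 : (fun (ω : Ω) (u : List ℕ) => (N u ω, X u ω)) ⁻¹'
        {w : List ℕ → ℕ × V | ∀ u ∈ F, w u = x u} =
        {ω | ∀ u ∈ F, N u ω = (x u).1 ∧ X u ω = (x u).2} := by
      ext ω
      simp only [Set.mem_preimage, Set.mem_setOf_eq, Prod.ext_iff]
    have e2 : (obs nb o : Conf d → List ℕ → ℕ × V) ⁻¹'
        {w : List ℕ → ℕ × V | ∀ u ∈ F, w u = x u} =
        {c | ∀ u ∈ F, (c u).1 = (x u).1 ∧ pos nb o c u = (x u).2} := by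
      ext c
      simp only [Set.mem_preimage, Set.mem_setOf_eq, Prod.ext_iff, obs]
    rw [e1, e2]
    by_cases ho : (x []).2 = o
    · have h1 := confLaw_cylinder G hinj hadj hdeg μ F hF0 hF (fun u => (x u).1)
        (fun u => (x u).2)
      simp only [ho] at h1
      rw [h1]
      exact h.law F hF0 hF (fun u => (x u).1) (fun u => (x u).2) ho
    · have h1 : {c : Conf d | ∀ u ∈ F, (c u).1 = (x u).1 ∧ pos nb o c u = (x u).2} = ∅ := by
        ext c
        simp only [Set.mem_setOf_eq, Set.mem_empty_iff_false, iff_false]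
        intro hc
        exact ho (hc [] hF0).2.symm
      rw [h1, measure_empty]
      refine measure_mono_null ?_ hroot
      intro ω hω
      simp only [Set.mem_setOf_eq] at hω ⊢
      rw [(hω [] hF0).2]
      exact ho
  have hg1 : ∀ᵐ w ∂((confLaw μ d).map (obs nb o)), GoodObs w :=
    (ae_map_iff hm2.aemeasurable measurableSet_goodObs).2 hgood
  rw [← hmap] at hg1
  exact (ae_map_iff hm1.aemeasurable measurableSet_goodObs).1 hg1

end MP_9b4c76_pr
end

section

/-! The discounted Green function. -/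

namespace MP_9b4c76_pr

open MeasureTheory ProbabilityTheory Filter Topology
open scoped ENNReal NNReal

variable {V : Type*} {d : ℕ} [NeZero d] {nb : V → Fin d → V} {ρ : ℝ≥0} {μ : PMF ℕ}

/-- `F` is superharmonic for `(θ/ρ) P`. -/
def SH (nb : V → Fin d → V) (ρ θ : ℝ≥0) (F : V → ℝ≥0∞) : Prop :=
  ∀ z, ((θ / ρ : ℝ≥0) : ℝ≥0∞) * avg nb F z ≤ F z

/-- TASK G1. -/
theorem pn_hom {φ : V ≃ V}
    (hφ : ∀ (F : V → ℝ≥0∞) (z : V), avg nb F (φ z) = avg nb (fun w => F (φ w)) z)
    (n : ℕ) (x y : V) : pn nb n (φ x) (φ y) = pn nb n x y := by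
  induction n generalizing x with
  | zero =>
    by_cases h : x = y
    · simp [pn, h]
    · simp [pn, h]
  | succ n ih =>
    simp only [pn]
    rw [hφ]
    simp only [ih]

/-- TASK G1. -/
theorem green_hom {φ : V ≃ V}
    (hφ : ∀ (F : V → ℝ≥0∞) (z : V), avg nb F (φ z) = avg nb (fun w => F (φ w)) z)
    (θ : ℝ≥0) (x y : V) : green nb ρ θ (φ x) (φ y) = green nb ρ θ x y := by
  simp only [green, pn_hom hφ]

/-- TASK G1. -/
theorem green_symm (S : Setting nb ρ μ) (θ : ℝ≥0) (x y : V) :
    green nb ρ θ x y = green nb ρ θ y x := by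
  simp only [green]
  exact tsum_congr fun k => by rw [S.symm k x y]

/-- TASK G1. -/
theorem one_le_green_self (ρ θ : ℝ≥0) (x : V) : 1 ≤ green nb ρ θ x x := by
  have h := ENNReal.le_tsum (f := fun k => ((θ / ρ : ℝ≥0) : ℝ≥0∞) ^ k * pn nb k x x) 0
  simpa only [green, pn, pow_zero, one_mul, if_true] using h

/-! Auxiliary lemmas for the average. -/

theorem g2_avg_mul (nb : V → Fin d → V) (r : ℝ≥0∞) (F : V → ℝ≥0∞) (x : V) :
    avg nb (fun z => r * F z) x = r * avg nb F x := by
  unfold avg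
  rw [← Finset.mul_sum, mul_div_assoc]

theorem g2_avg_tsum (nb : V → Fin d → V) (F : ℕ → V → ℝ≥0∞) (x : V) :
    avg nb (fun z => ∑' k, F k z) x = ∑' k, avg nb (F k) x := by
  unfold avg
  simp only [div_eq_mul_inv]
  rw [ENNReal.tsum_mul_right]
  congr 1
  exact (Summable.tsum_finsetSum (fun i _ => ENNReal.summable)).symm

open Classical in
/-- TASK G2. -/
theorem green_eq (ρ θ : ℝ≥0) (x y : V) :
    green nb ρ θ x y = (if x = y then 1 else 0) +
      ((θ / ρ : ℝ≥0) : ℝ≥0∞) * avg nb (fun z => green nb ρ θ z y) x := by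
  unfold green
  rw [tsum_eq_zero_add' ENNReal.summable, pow_zero, one_mul, pn, g2_avg_tsum,
    ← ENNReal.tsum_mul_left]
  congr 1
  refine tsum_congr fun k => ?_
  rw [g2_avg_mul, ← mul_assoc, ← pow_succ', pn]

/-- TASK G2. -/
theorem green_SH (S : Setting nb ρ μ) (θ : ℝ≥0) (x : V) :
    SH nb ρ θ (fun y => green nb ρ θ x y) := by
  classical
  intro z
  have h1 : (fun y => green nb ρ θ x y) = fun y => green nb ρ θ y x := by
    funext y
    exact green_symm S θ x y
  rw [h1]
  show _ ≤ green nb ρ θ z x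
  conv_rhs => rw [green_eq]
  exact le_add_self

theorem g2_iter (ρ θ : ℝ≥0) (y : V) (k : ℕ) :
    (avg nb)^[k] (fun z => green nb ρ θ z y) =
      fun x => ∑' j, ((θ / ρ : ℝ≥0) : ℝ≥0∞) ^ j * pn nb (k + j) x y := by
  induction k with
  | zero =>
    funext x
    simp only [Function.iterate_zero, id_eq, Nat.zero_add]
    rfl
  | succ k ih =>
    rw [Function.iterate_succ_apply', ih]
    funext x
    rw [g2_avg_tsum]
    refine tsum_congr fun j => ?_
    rw [g2_avg_mul, show k + 1 + j = (k + j) + 1 by omega, pn]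

/-- TASK G2.  Iterated averages of the Green function:
`P^k g ≤ ρ^k / (1 - θ)`. -/
theorem avg_iter_green_le (S : Setting nb ρ μ) {θ : ℝ≥0} (hθ : θ < 1) (k : ℕ) (x y : V) :
    (avg nb)^[k] (fun z => green nb ρ θ z y) x ≤ (ρ : ℝ≥0∞) ^ k * (1 - (θ : ℝ≥0∞))⁻¹ := by
  rw [g2_iter, ← ENNReal.tsum_geometric, ← ENNReal.tsum_mul_left]
  refine ENNReal.tsum_le_tsum fun j => ?_
  calc ((θ / ρ : ℝ≥0) : ℝ≥0∞) ^ j * pn nb (k + j) x y
      ≤ ((θ / ρ : ℝ≥0) : ℝ≥0∞) ^ j * (ρ : ℝ≥0∞) ^ (k + j) := by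
        gcongr
        exact S.bound _ _ _
    _ = (ρ : ℝ≥0∞) ^ k * (θ : ℝ≥0∞) ^ j := by
        have h1 : (θ / ρ) ^ j * ρ ^ (k + j) = ρ ^ k * θ ^ j := by
          have h2 : θ / ρ * ρ = θ := div_mul_cancel₀ _ S.rpos.ne'
          rw [pow_add, mul_comm (ρ ^ k), ← mul_assoc, ← mul_pow, h2, mul_comm]
        exact_mod_cast h1

/-- TASK G3.  One step Harnack inequality. -/
theorem SH.step (S : Setting nb ρ μ) {θ : ℝ≥0} (hθ0 : 0 < θ) {F : V → ℝ≥0∞} (hF : SH nb ρ θ F)
    (x : V) (j : Fin d) : ((θ / ρ : ℝ≥0) : ℝ≥0∞) / d * F (nb x j) ≤ F x := by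
  refine le_trans ?_ (hF x)
  unfold avg
  have h1 : F (nb x j) ≤ ∑ i, F (nb x i) :=
    Finset.single_le_sum (f := fun i => F (nb x i)) (fun i _ => bot_le) (Finset.mem_univ j)
  generalize ((θ / ρ : ℝ≥0) : ℝ≥0∞) = r
  calc r / d * F (nb x j)
      = r * (F (nb x j) / d) := by
        rw [div_eq_mul_inv, div_eq_mul_inv, mul_assoc, mul_comm (d : ℝ≥0∞)⁻¹]
    _ ≤ _ := by
        gcongr

/-- TASK G3.  Harnack inequality, uniform in `θ ≥ θ₀`. -/
theorem harnack (S : Setting nb ρ μ) {θ₀ : ℝ≥0} (hθ₀ : 0 < θ₀) (x y : V) :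
    ∃ C : ℝ≥0, 0 < C ∧ ∀ θ : ℝ≥0, θ₀ ≤ θ → ∀ F : V → ℝ≥0∞, SH nb ρ θ F → F y ≤ C * F x := by
  obtain ⟨l, hl⟩ := S.conn x y
  have hd : (0 : ℝ≥0) < d := by
    have := Nat.pos_of_ne_zero (NeZero.ne d)
    exact_mod_cast this
  have hρ := S.rpos
  set C₁ : ℝ≥0 := d * ρ / θ₀ with hC₁
  have hC₁pos : 0 < C₁ := by positivity
  refine ⟨C₁ ^ l.length, by positivity, fun θ hθ F hF => ?_⟩
  have hθ0 : 0 < θ := lt_of_lt_of_le hθ₀ hθ
  have hstep : ∀ (x : V) (j : Fin d), F (nb x j) ≤ C₁ * F x := by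
    intro x j
    have h1 := hF.step S hθ0 x j
    have hc : ((θ / ρ : ℝ≥0) : ℝ≥0∞) / d = ((θ / ρ / d : ℝ≥0) : ℝ≥0∞) := by
      rw [ENNReal.coe_div hd.ne']
      simp
    rw [hc] at h1
    have hc' : C₁ * (θ / ρ / d) ≥ 1 := by
      rw [hC₁, ge_iff_le]
      have e : ↑d * ρ / θ₀ * (θ / ρ / ↑d) = θ / θ₀ := by
        field_simp
      rw [e, one_le_div hθ₀]
      exact hθ
    calc F (nb x j) = 1 * F (nb x j) := (one_mul _).symm
      _ ≤ ((C₁ * (θ / ρ / d) : ℝ≥0) : ℝ≥0∞) * F (nb x j) := by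
          gcongr
          exact_mod_cast hc'
      _ = C₁ * (((θ / ρ / d : ℝ≥0) : ℝ≥0∞) * F (nb x j)) := by
          rw [ENNReal.coe_mul, mul_assoc]
      _ ≤ C₁ * F x := by gcongr
  rw [← hl]
  clear hl
  induction l generalizing x with
  | nil => simp
  | cons j l ih =>
    rw [List.foldl_cons, List.length_cons, pow_succ]
    refine (ih (nb x j)).trans ?_
    calc ((C₁ ^ l.length : ℝ≥0) : ℝ≥0∞) * F (nb x j)
        ≤ ((C₁ ^ l.length : ℝ≥0) : ℝ≥0∞) * (C₁ * F x) := by
          gcongr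
          exact hstep x j
      _ = ((C₁ ^ l.length * C₁ : ℝ≥0) : ℝ≥0∞) * F x := by
          rw [ENNReal.coe_mul, mul_assoc]

end MP_9b4c76_pr
end

section

/-! The discounted potential of the trace. -/

namespace MP_9b4c76_pr

open MeasureTheory ProbabilityTheory Filter Topology
open scoped ENNReal NNReal

variable {V : Type*} {d : ℕ} [NeZero d] {nb : V → Fin d → V} {ρ : ℝ≥0} {μ : PMF ℕ}

/-- TASK P1. -/
theorem Dn_mono (ρ θ : ℝ≥0) (x y : V) (c : Conf d) : Monotone fun n => Dn nb ρ θ n x y c := by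
  refine monotone_nat_of_le_succ fun n => ?_
  induction n generalizing x c with
  | zero => exact le_self_add
  | succ n ih =>
    show green nb ρ θ x y + θ * ∑ i ∈ Finset.range (c []).1, Dn nb ρ θ n (nb x ((c []).2 i)) y (sub i c)
      ≤ green nb ρ θ x y +
        θ * ∑ i ∈ Finset.range (c []).1, Dn nb ρ θ (n + 1) (nb x ((c []).2 i)) y (sub i c)
    gcongr with i hi
    exact ih _ _

/-- TASK P1. -/
theorem measurable_Dn (ρ θ : ℝ≥0) (n : ℕ) (x y : V) : Measurable (Dn nb ρ θ n x y) := by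
  induction n generalizing x with
  | zero => exact measurable_const
  | succ n ih =>
    show Measurable fun c : Conf d => green nb ρ θ x y +
      θ * ∑ i ∈ Finset.range (c []).1, Dn nb ρ θ n (nb x ((c []).2 i)) y (sub i c)
    exact measurable_const.add (measurable_const.mul
      (measurable_sum_children (fun j => Dn nb ρ θ n (nb x j) y) fun j => ih (nb x j)))

/-- TASK P1. -/
theorem measurable_D (ρ θ : ℝ≥0) (x y : V) : Measurable (D nb ρ θ x y) := by
  show Measurable fun c => ⨆ n, Dn nb ρ θ n x y c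
  exact Measurable.iSup fun n => measurable_Dn ρ θ n x y

theorem p2_D_eq_succ (ρ θ : ℝ≥0) (x y : V) (c : Conf d) :
    D nb ρ θ x y c = ⨆ n, Dn nb ρ θ (n + 1) x y c := by
  refine le_antisymm (iSup_le fun n => ?_) (iSup_le fun n => le_iSup (fun n => Dn nb ρ θ n x y c) _)
  exact (Dn_mono ρ θ x y c (Nat.le_succ n)).trans (le_iSup (fun n => Dn nb ρ θ (n + 1) x y c) n)

/-- TASK P2. -/
theorem D_eq (ρ θ : ℝ≥0) (x y : V) (c : Conf d) :
    D nb ρ θ x y c = green nb ρ θ x y +
      θ * ∑ i ∈ Finset.range (c []).1, D nb ρ θ (nb x ((c []).2 i)) y (sub i c) := by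
  rw [p2_D_eq_succ]
  show (⨆ n, (green nb ρ θ x y +
      θ * ∑ i ∈ Finset.range (c []).1, Dn nb ρ θ n (nb x ((c []).2 i)) y (sub i c))) = _
  rw [← ENNReal.add_iSup, ← ENNReal.mul_iSup]
  congr 2
  rw [← ENNReal.finsetSum_iSup_of_monotone]
  · rfl
  · intro i
    exact Dn_mono ρ θ _ _ _

theorem p2_avg_mono (nb : V → Fin d → V) {F G : V → ℝ≥0∞} (h : ∀ z, F z ≤ G z) (x : V) :
    avg nb F x ≤ avg nb G x := by
  unfold avg
  gcongr with i hi
  exact h _

theorem p2_avg_add (nb : V → Fin d → V) (F G : V → ℝ≥0∞) (x : V) :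
    avg nb (fun z => F z + G z) x = avg nb F x + avg nb G x := by
  unfold avg
  rw [Finset.sum_add_distrib, ENNReal.add_div]

theorem p2_avg_sum (nb : V → Fin d → V) {ι : Type*} (s : Finset ι) (F : ι → V → ℝ≥0∞) (x : V) :
    avg nb (fun z => ∑ i ∈ s, F i z) x = ∑ i ∈ s, avg nb (F i) x := by
  unfold avg
  rw [Finset.sum_comm]
  simp only [div_eq_mul_inv]
  rw [Finset.sum_mul]

theorem p2_Dn_SH (S : Setting nb ρ μ) (θ : ℝ≥0) (n : ℕ) (x : V) (c : Conf d) :
    SH nb ρ θ (fun y => Dn nb ρ θ n x y c) := by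
  induction n generalizing x c with
  | zero => exact green_SH S θ x
  | succ n ih =>
    intro z
    show _ * avg nb (fun y => green nb ρ θ x y +
      θ * ∑ i ∈ Finset.range (c []).1, Dn nb ρ θ n (nb x ((c []).2 i)) y (sub i c)) z ≤
      green nb ρ θ x z +
      θ * ∑ i ∈ Finset.range (c []).1, Dn nb ρ θ n (nb x ((c []).2 i)) z (sub i c)
    rw [p2_avg_add, g2_avg_mul, p2_avg_sum, mul_add]
    refine add_le_add (green_SH S θ x z) ?_
    rw [mul_left_comm, Finset.mul_sum]
    gcongr with i hi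
    exact ih _ _ z

/-- TASK P2.  The potential is superharmonic in the second variable. -/
theorem D_SH (S : Setting nb ρ μ) (θ : ℝ≥0) (x : V) (c : Conf d) :
    SH nb ρ θ (fun y => D nb ρ θ x y c) := by
  intro z
  have h1 : avg nb (fun y => D nb ρ θ x y c) z = ⨆ n, avg nb (fun y => Dn nb ρ θ n x y c) z := by
    unfold avg D
    rw [ENNReal.finsetSum_iSup_of_monotone (fun i => Dn_mono ρ θ _ _ _)]
    simp only [div_eq_mul_inv]
    rw [ENNReal.iSup_mul]
  rw [h1, ENNReal.mul_iSup]
  exact iSup_mono fun n => p2_Dn_SH S θ n x c z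

/-- TASK P2. -/
theorem one_le_D (ρ θ : ℝ≥0) (x : V) (c : Conf d) : 1 ≤ D nb ρ θ x x c := by
  rw [D_eq]
  exact (one_le_green_self ρ θ x).trans le_self_add

theorem p2_D_child (ρ θ : ℝ≥0) (x y : V) (c : Conf d) (i : ℕ) (hi : i < (c []).1) :
    (θ : ℝ≥0∞) * D nb ρ θ (nb x ((c []).2 i)) y (sub i c) ≤ D nb ρ θ x y c := by
  rw [D_eq ρ θ x y c]
  refine le_trans ?_ le_add_self
  gcongr
  exact Finset.single_le_sum (f := fun i => D nb ρ θ (nb x ((c []).2 i)) y (sub i c))
    (fun i _ => bot_le) (Finset.mem_range.2 hi)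

/-- TASK P2. -/
theorem D_subL (ρ θ : ℝ≥0) (x y : V) (c : Conf d) (u : List ℕ) (hu : Alive c u) :
    (θ : ℝ≥0∞) ^ u.length * D nb ρ θ (pos nb x c u) y (subL u c) ≤ D nb ρ θ x y c := by
  induction u using List.reverseRecOn generalizing x c with
  | nil =>
    have h1 : subL [] c = c := by
      funext w
      simp [subL]
    simp only [List.length_nil, pow_zero, one_mul, pos, h1, le_refl]
  | append_singleton u i ih =>
    rw [alive_append_singleton] at hu
    rw [pos_append_singleton, subL_append_singleton, List.length_append, List.length_singleton,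
      pow_succ']
    refine le_trans ?_ (p2_D_child ρ θ x y c i hu.1)
    rw [mul_assoc]
    gcongr
    exact ih _ _ hu.2

/-- TASK P3.  Branching inequality with a constant uniform in `θ ≥ θ₀`. -/
theorem D_children (S : Setting nb ρ μ) {θ₀ : ℝ≥0} (hθ₀ : 0 < θ₀) :
    ∃ c₀ : ℝ≥0, 0 < c₀ ∧ c₀ < 1 ∧ ∀ θ : ℝ≥0, θ₀ ≤ θ → ∀ (x : V) (c : Conf d),
      (c₀ : ℝ≥0∞) * ∑ i ∈ Finset.range (c []).1,
        D nb ρ θ (nb x ((c []).2 i)) (nb x ((c []).2 i)) (sub i c) ≤ D nb ρ θ x x c := by
  have hd : (0 : ℝ≥0) < d := by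
    have := Nat.pos_of_ne_zero (NeZero.ne d)
    exact_mod_cast this
  have hρ := S.rpos
  refine ⟨min (1 / 2) (θ₀ * (θ₀ / ρ / d)), ?_, ?_, ?_⟩
  · have : 0 < θ₀ * (θ₀ / ρ / d) := by positivity
    exact lt_min (by norm_num) this
  · exact lt_of_le_of_lt (min_le_left _ _) (by
      rw [div_lt_one (by norm_num)]; norm_num)
  intro θ hθ x c
  have hθ0 : 0 < θ := lt_of_lt_of_le hθ₀ hθ
  rw [D_eq ρ θ x x c]
  refine le_trans ?_ le_add_self
  rw [Finset.mul_sum, Finset.mul_sum]
  refine Finset.sum_le_sum fun i _ => ?_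
  have h1 := (D_SH S θ (nb x ((c []).2 i)) (sub i c)).step S hθ0 x ((c []).2 i)
  have hc : ((θ / ρ : ℝ≥0) : ℝ≥0∞) / d = ((θ / ρ / d : ℝ≥0) : ℝ≥0∞) := by
    rw [ENNReal.coe_div hd.ne']
    simp
  rw [hc] at h1
  refine le_trans ?_ (mul_le_mul_right h1 (θ : ℝ≥0∞))
  rw [← mul_assoc, ← ENNReal.coe_mul]
  gcongr
  refine (min_le_right _ _).trans ?_
  gcongr

omit [NeZero d] in
/-- the average is linear -/
theorem p4_avg_sum (F : ℕ → V → ℝ≥0∞) (a : ℕ → ℝ≥0∞) (n : ℕ) (x : V) :
    avg nb (fun z => ∑ k ∈ Finset.range n, a k * F k z) x =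
      ∑ k ∈ Finset.range n, a k * avg nb (F k) x := by
  unfold avg
  rw [Finset.sum_comm, div_eq_mul_inv, Finset.sum_mul]
  refine Finset.sum_congr rfl fun k _ => ?_
  rw [← Finset.mul_sum, div_eq_mul_inv, mul_assoc]

/-- one step formula for the mean of the potential of finitely many generations -/
theorem p4_lintegral_Dn_succ (S : Setting nb ρ μ) (θ : ℝ≥0) (n : ℕ) (x y : V) :
    ∫⁻ c, Dn nb ρ θ (n + 1) x y c ∂(confLaw μ d) =
      green nb ρ θ x y + ((θ / ρ : ℝ≥0) : ℝ≥0∞) *
        avg nb (fun z => ∫⁻ c, Dn nb ρ θ n z y c ∂(confLaw μ d)) x := by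
  have h1 : ∀ c : Conf d, Dn nb ρ θ (n + 1) x y c = green nb ρ θ x y +
      θ * ∑ i ∈ Finset.range (c []).1, (fun j => Dn nb ρ θ n (nb x j) y) ((c []).2 i) (sub i c) :=
    fun c => rfl
  have hm : ∀ j : Fin d, Measurable ((fun j => Dn nb ρ θ n (nb x j) y) j) :=
    fun j => measurable_Dn ρ θ n (nb x j) y
  simp_rw [h1]
  rw [lintegral_add_left measurable_const, lintegral_const, measure_univ, mul_one,
    lintegral_const_mul _ (measurable_sum_children _ hm), lintegral_sum_children μ _ hm, S.crit]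
  congr 1
  rw [← mul_assoc, ← ENNReal.coe_mul, div_eq_mul_inv]
  rfl

theorem p4_lintegral_Dn (S : Setting nb ρ μ) (θ : ℝ≥0) (n : ℕ) (x y : V) :
    ∫⁻ c, Dn nb ρ θ n x y c ∂(confLaw μ d) =
      ∑ k ∈ Finset.range (n + 1), ((θ / ρ : ℝ≥0) : ℝ≥0∞) ^ k *
        (avg nb)^[k] (fun z => green nb ρ θ z y) x := by
  induction n generalizing x with
  | zero => simp [Dn]
  | succ n ih =>
    rw [p4_lintegral_Dn_succ S]
    simp_rw [ih]
    rw [p4_avg_sum (nb := nb) (fun k => (avg nb)^[k] (fun z => green nb ρ θ z y))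
      (fun k => ((θ / ρ : ℝ≥0) : ℝ≥0∞) ^ k), Finset.mul_sum,
      Finset.sum_range_succ' _ (n + 1), add_comm]
    congr 1
    · refine Finset.sum_congr rfl fun k _ => ?_
      rw [Function.iterate_succ_apply', pow_succ, ← mul_assoc, mul_comm _ (_ ^ k)]
    · simp

/-- TASK P4.  Finite expectation; here the symmetry of the walk is used. -/
theorem lintegral_D_lt_top (S : Setting nb ρ μ) {θ : ℝ≥0} (hθ : θ < 1) (x y : V) :
    ∫⁻ c, D nb ρ θ x y c ∂(confLaw μ d) < ⊤ := by
  have hθ' : (θ : ℝ≥0∞) < 1 := by exact_mod_cast hθ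
  have hne : (1 - (θ : ℝ≥0∞))⁻¹ < ⊤ := by
    rw [ENNReal.inv_lt_top]
    exact tsub_pos_of_lt hθ'
  have hρ : (ρ : ℝ≥0∞) ≠ 0 := by
    have := S.rpos
    exact_mod_cast this.ne'
  have hb : ∀ n, ∫⁻ c, Dn nb ρ θ n x y c ∂(confLaw μ d) ≤
      (1 - (θ : ℝ≥0∞))⁻¹ * (1 - (θ : ℝ≥0∞))⁻¹ := by
    intro n
    rw [p4_lintegral_Dn S]
    calc ∑ k ∈ Finset.range (n + 1), ((θ / ρ : ℝ≥0) : ℝ≥0∞) ^ k *
          (avg nb)^[k] (fun z => green nb ρ θ z y) x
        ≤ ∑ k ∈ Finset.range (n + 1), (θ : ℝ≥0∞) ^ k * (1 - (θ : ℝ≥0∞))⁻¹ := by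
          refine Finset.sum_le_sum fun k _ => ?_
          calc ((θ / ρ : ℝ≥0) : ℝ≥0∞) ^ k * (avg nb)^[k] (fun z => green nb ρ θ z y) x
              ≤ ((θ / ρ : ℝ≥0) : ℝ≥0∞) ^ k * ((ρ : ℝ≥0∞) ^ k * (1 - (θ : ℝ≥0∞))⁻¹) := by
                gcongr
                exact avg_iter_green_le S hθ k x y
            _ = (θ : ℝ≥0∞) ^ k * (1 - (θ : ℝ≥0∞))⁻¹ := by
                rw [← mul_assoc, ← mul_pow, ← ENNReal.coe_mul, div_mul_cancel₀ _ S.rpos.ne']
      _ = (∑ k ∈ Finset.range (n + 1), (θ : ℝ≥0∞) ^ k) * (1 - (θ : ℝ≥0∞))⁻¹ := by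
          rw [Finset.sum_mul]
      _ ≤ (∑' k, (θ : ℝ≥0∞) ^ k) * (1 - (θ : ℝ≥0∞))⁻¹ := by
          gcongr
          exact ENNReal.sum_le_tsum _
      _ = (1 - (θ : ℝ≥0∞))⁻¹ * (1 - (θ : ℝ≥0∞))⁻¹ := by
          rw [ENNReal.tsum_geometric]
  unfold D
  rw [lintegral_iSup (fun n => measurable_Dn ρ θ n x y)
    (fun n m hnm c => Dn_mono ρ θ x y c hnm)]
  exact lt_of_le_of_lt (iSup_le hb) (ENNReal.mul_lt_top hne hne)

/-- TASK P4. -/
theorem ae_D_lt_top (S : Setting nb ρ μ) {θ : ℝ≥0} (hθ0 : 0 < θ) (hθ : θ < 1) (x : V) :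
    ∀ᵐ c ∂(confLaw μ d), ∀ y, D nb ρ θ x y c < ⊤ := by
  filter_upwards [ae_lt_top (measurable_D ρ θ x x) (lintegral_D_lt_top S hθ x x).ne] with c hc y
  obtain ⟨C, _, hC⟩ := harnack S hθ0 x y
  exact lt_of_le_of_lt (hC θ le_rfl _ (D_SH S θ x c)) (ENNReal.mul_lt_top ENNReal.coe_lt_top hc)

end MP_9b4c76_pr
end

section

/-! Sharp quantiles of the potential. -/

namespace MP_9b4c76_pr

open MeasureTheory ProbabilityTheory Filter Topology
open scoped ENNReal NNReal

variable {V : Type*} {d : ℕ} [NeZero d] {nb : V → Fin d → V} {ρ : ℝ≥0} {μ : PMF ℕ}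

section eneg

theorem e0_eq (x : ℝ≥0∞) : eneg x = EReal.exp (-(x : EReal)) := by
  unfold eneg
  split_ifs with h
  · subst h
    simp
  · lift x to ℝ≥0 using h
    rw [show ((x : ℝ≥0∞) : EReal) = ((x : ℝ) : EReal) from rfl, ← EReal.coe_neg, EReal.exp_coe]
    simp

/-- TASK E0 (the section `eneg`). -/
theorem eneg_zero : eneg 0 = 1 := by
  simp [e0_eq]

theorem eneg_add (x y : ℝ≥0∞) : eneg (x + y) = eneg x * eneg y := by
  unfold eneg
  by_cases hx : x = ⊤
  · simp [hx]
  by_cases hy : y = ⊤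
  · simp [hy]
  rw [if_neg (ENNReal.add_ne_top.2 ⟨hx, hy⟩), if_neg hx, if_neg hy, ENNReal.toReal_add hx hy,
    ← ENNReal.ofReal_mul (Real.exp_pos _).le, ← Real.exp_add]
  congr 2
  ring

theorem eneg_anti : Antitone eneg := by
  intro x y hxy
  rw [e0_eq, e0_eq, EReal.exp_le_exp_iff, EReal.neg_le_neg_iff]
  exact_mod_cast hxy

theorem eneg_le_one (x : ℝ≥0∞) : eneg x ≤ 1 := by
  rw [← eneg_zero]
  exact eneg_anti bot_le

theorem continuous_eneg : Continuous eneg := by
  have h : eneg = fun x : ℝ≥0∞ => EReal.exp (-(x : EReal)) := funext e0_eq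
  rw [h]
  have h1 : Continuous fun x : ℝ≥0∞ => -(x : EReal) :=
    continuous_neg.comp continuous_coe_ennreal_ereal
  exact ENNReal.continuous_exp.comp h1

theorem measurable_eneg : Measurable eneg := continuous_eneg.measurable

theorem eneg_sum {ι : Type*} (s : Finset ι) (f : ι → ℝ≥0∞) :
    eneg (∑ i ∈ s, f i) = ∏ i ∈ s, eneg (f i) := by
  classical
  induction s using Finset.induction_on with
  | empty => simp [eneg_zero]
  | insert a s ha ih => rw [Finset.sum_insert ha, Finset.prod_insert ha, eneg_add, ih]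

end eneg

section gf

/-- TASK E1 (the section `gf`). -/
theorem gf_mono (μ : PMF ℕ) : Monotone (gf μ) := by
  intro x y hxy
  unfold gf
  gcongr

theorem gf_one (μ : PMF ℕ) : gf μ 1 = 1 := by
  simp [gf, μ.tsum_coe]

theorem e1_pow_convex {ε q : ℝ≥0∞} (hε : ε ≤ 1) (n : ℕ) :
    (ε + (1 - ε) * q) ^ n ≤ ε + (1 - ε) * q ^ n := by
  rcases Nat.eq_zero_or_pos n with rfl | hn
  · simp only [pow_zero, mul_one]
    rw [add_tsub_cancel_of_le hε]
  · have h := ENNReal.rpow_arith_mean_le_arith_mean2_rpow ε (1 - ε) 1 q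
      (add_tsub_cancel_of_le hε) (p := (n : ℝ)) (by exact_mod_cast hn)
    simpa only [mul_one, ENNReal.one_rpow, ENNReal.rpow_natCast, one_pow] using h

/-- convexity between `1` and `q` -/
theorem gf_convex (μ : PMF ℕ) {ε q : ℝ≥0∞} (hε : ε ≤ 1) :
    gf μ (ε + (1 - ε) * q) ≤ ε + (1 - ε) * gf μ q := by
  unfold gf
  calc ∑' n, μ n * (ε + (1 - ε) * q) ^ n ≤ ∑' n, μ n * (ε + (1 - ε) * q ^ n) := by
        refine ENNReal.tsum_le_tsum fun n => ?_
        gcongr
        exact e1_pow_convex hε n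
    _ = ∑' n, (ε * μ n + (1 - ε) * (μ n * q ^ n)) := by
        refine tsum_congr fun n => ?_
        ring
    _ = ε + (1 - ε) * ∑' n, μ n * q ^ n := by
        rw [ENNReal.tsum_add, ENNReal.tsum_mul_left, ENNReal.tsum_mul_left, μ.tsum_coe, mul_one]

theorem e1_exists_two (S : Setting nb ρ μ) : ∃ i, 2 ≤ i ∧ μ i ≠ 0 := by
  by_contra hcon
  push Not at hcon
  have h1 : ∑' n, μ n * (n : ℝ≥0∞) ≤ ∑' n, μ n := by
    refine ENNReal.tsum_le_tsum fun n => ?_
    rcases lt_or_ge n 2 with hn | hn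
    · have : (n : ℝ≥0∞) ≤ 1 := by
        have h2 : n ≤ 1 := by omega
        exact_mod_cast h2
      calc μ n * (n : ℝ≥0∞) ≤ μ n * 1 := by gcongr
        _ = μ n := mul_one _
    · rw [hcon n hn, zero_mul]
  rw [S.crit, μ.tsum_coe] at h1
  have h2 : (ρ⁻¹ : ℝ≥0) ≤ 1 := by exact_mod_cast h1
  have h3 := inv_anti₀ S.rpos S.rlt.le
  have h4 : (1 : ℝ≥0) < ρ⁻¹ := (one_lt_inv₀ S.rpos).2 S.rlt
  exact absurd h2 (not_le.2 h4)

theorem gf_iterate_tendsto (S : Setting nb ρ μ) {s : ℝ≥0∞} (hs : s < 1) :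
    Tendsto (fun n => (gf μ)^[n] s) atTop (𝓝 0) := by
  set r : ℝ≥0∞ := ∑' n, μ n * s ^ (n - 1) with hr
  have hr1 : r < 1 := by
    obtain ⟨i, hi, hμ⟩ := e1_exists_two S
    rw [hr, ← μ.tsum_coe]
    have hle : ∀ n, μ n * s ^ (n - 1) ≤ μ n := fun n => by
      calc μ n * s ^ (n - 1) ≤ μ n * 1 := by
            gcongr
            exact pow_le_one₀ bot_le hs.le
        _ = μ n := mul_one _
    refine ENNReal.tsum_lt_tsum (i := i) ?_ hle ?_
    · refine ne_top_of_le_ne_top ENNReal.one_ne_top ?_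
      rw [← μ.tsum_coe]
      exact ENNReal.tsum_le_tsum hle
    · have h1 : s ^ (i - 1) < 1 := pow_lt_one₀ bot_le hs (by omega)
      calc μ i * s ^ (i - 1) < μ i * 1 :=
            (ENNReal.mul_lt_mul_iff_right hμ (μ.apply_ne_top i)).2 h1
        _ = μ i := mul_one _
  have hstep : ∀ t, t ≤ s → gf μ t ≤ r * t := by
    intro t ht
    unfold gf
    rw [hr, ← ENNReal.tsum_mul_right]
    refine ENNReal.tsum_le_tsum fun n => ?_
    rcases Nat.eq_zero_or_pos n with rfl | hn
    · simp [S.mu0]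
    · obtain ⟨m, rfl⟩ : ∃ m, n = m + 1 := ⟨n - 1, by omega⟩
      rw [pow_succ, ← mul_assoc, Nat.add_sub_cancel]
      gcongr
  have hall : ∀ n, (gf μ)^[n] s ≤ r ^ n * s ∧ (gf μ)^[n] s ≤ s := by
    intro n
    induction n with
    | zero => simp
    | succ n ih =>
      rw [Function.iterate_succ_apply']
      have h1 := hstep _ ih.2
      refine ⟨h1.trans ?_, h1.trans ?_⟩
      · rw [pow_succ', mul_assoc]
        gcongr
        exact ih.1
      · calc r * (gf μ)^[n] s ≤ 1 * s := by
              gcongr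
              exact ih.2
          _ = s := one_mul _
  have hlim : Tendsto (fun n : ℕ => r ^ n * s) atTop (𝓝 0) := by
    have h1 := ENNReal.tendsto_pow_atTop_nhds_zero_of_lt_one hr1
    have h2 := ENNReal.Tendsto.mul_const (b := s) h1 (Or.inr (ne_top_of_lt hs))
    simpa using h2
  exact tendsto_of_tendsto_of_tendsto_of_le_of_le tendsto_const_nhds hlim (fun _ => bot_le)
    (fun n => (hall n).1)

end gf

/-- one step formula for the Laplace transform of the potential of finitely many generations -/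
theorem e2_laplace_Dn_succ (μ : PMF ℕ) (ρ θ : ℝ≥0) (n : ℕ) (t : ℝ≥0∞) (x y : V) :
    ∫⁻ c, eneg (t * Dn nb ρ θ (n + 1) x y c) ∂(confLaw μ d) =
      eneg (t * green nb ρ θ x y) *
        gf μ (avg nb (fun z => ∫⁻ c, eneg (t * θ * Dn nb ρ θ n z y c) ∂(confLaw μ d)) x) := by
  have h1 : ∀ c : Conf d, eneg (t * Dn nb ρ θ (n + 1) x y c) = eneg (t * green nb ρ θ x y) *
      ∏ i ∈ Finset.range (c []).1,
        (fun j c' => eneg (t * θ * Dn nb ρ θ n (nb x j) y c')) ((c []).2 i) (sub i c) := by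
    intro c
    rw [← eneg_sum, ← eneg_add, ← Finset.mul_sum, mul_assoc, ← mul_add]
    rfl
  have hm : ∀ j : Fin d,
      Measurable ((fun j c' => eneg (t * θ * Dn nb ρ θ n (nb x j) y c')) j : Conf d → ℝ≥0∞) :=
    fun j => measurable_eneg.comp ((measurable_Dn ρ θ n (nb x j) y).const_mul _)
  simp_rw [h1]
  rw [lintegral_const_mul' _ _ (lt_of_le_of_lt (eneg_le_one _) ENNReal.one_lt_top).ne,
    lintegral_prod_children μ _ hm]
  rfl

/-- the Laplace transforms are invariant under an automorphism -/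
theorem e2_laplace_Dn_hom {φ : V ≃ V}
    (hφ : ∀ (F : V → ℝ≥0∞) (z : V), avg nb F (φ z) = avg nb (fun w => F (φ w)) z)
    (μ : PMF ℕ) (θ : ℝ≥0) (n : ℕ) (t : ℝ≥0∞) (x y : V) :
    ∫⁻ c, eneg (t * Dn nb ρ θ n (φ x) (φ y) c) ∂(confLaw μ d) =
      ∫⁻ c, eneg (t * Dn nb ρ θ n x y c) ∂(confLaw μ d) := by
  induction n generalizing t x with
  | zero => simp only [Dn, green_hom hφ]
  | succ n ih =>
    rw [e2_laplace_Dn_succ, e2_laplace_Dn_succ, green_hom hφ, hφ]
    simp_rw [ih]

/-- the Laplace transform of the potential is the limit of those of finitely many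
generations -/
theorem e2_tendsto (μ : PMF ℕ) (ρ θ : ℝ≥0) {t : ℝ≥0∞} (ht : t ≠ ⊤) (x y : V) :
    Tendsto (fun n => ∫⁻ c, eneg (t * Dn nb ρ θ n x y c) ∂(confLaw μ d)) atTop
      (𝓝 (∫⁻ c, eneg (t * D nb ρ θ x y c) ∂(confLaw μ d))) := by
  refine tendsto_lintegral_of_dominated_convergence (fun _ => 1)
    (fun n => measurable_eneg.comp ((measurable_Dn ρ θ n x y).const_mul _))
    (fun n => ae_of_all _ fun c => eneg_le_one _) (by simp) (ae_of_all _ fun c => ?_)
  refine (continuous_eneg.tendsto _).comp (ENNReal.Tendsto.const_mul ?_ (Or.inr ht))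
  exact tendsto_atTop_iSup (Dn_mono ρ θ x y c)

/-- TASK E2.  The law of `D(X^x; x)` does not depend on `x` (Laplace transforms). -/
theorem laplace_hom (S : Setting nb ρ μ) (θ : ℝ≥0) (t : ℝ≥0∞) (ht : t ≠ ⊤) (x x' : V) :
    ∫⁻ c, eneg (t * D nb ρ θ x x c) ∂(confLaw μ d) =
      ∫⁻ c, eneg (t * D nb ρ θ x' x' c) ∂(confLaw μ d) := by
  obtain ⟨φ, rfl, hφ⟩ := S.hom x x'
  refine tendsto_nhds_unique (e2_tendsto μ ρ θ ht x x) ?_
  have h := e2_tendsto (nb := nb) μ ρ θ ht (φ x) (φ x)
  simp_rw [e2_laplace_Dn_hom hφ] at h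
  exact h

/-- TASK E3.  Branching inequality for the Laplace transform. -/
theorem laplace_branch (S : Setting nb ρ μ) {θ c₀ : ℝ≥0}
    (hc : ∀ (x : V) (c : Conf d), (c₀ : ℝ≥0∞) * ∑ i ∈ Finset.range (c []).1,
        D nb ρ θ (nb x ((c []).2 i)) (nb x ((c []).2 i)) (sub i c) ≤ D nb ρ θ x x c)
    (t : ℝ≥0∞) (ht : t ≠ ⊤) (x : V) :
    ∫⁻ c, eneg (t * D nb ρ θ x x c) ∂(confLaw μ d) ≤
      gf μ (∫⁻ c, eneg (c₀ * t * D nb ρ θ x x c) ∂(confLaw μ d)) := by
  have hct : (c₀ : ℝ≥0∞) * t ≠ ⊤ := ENNReal.mul_ne_top ENNReal.coe_ne_top ht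
  set G : Fin d → Conf d → ℝ≥0∞ := fun j c => eneg (c₀ * t * D nb ρ θ (nb x j) (nb x j) c) with hG
  have hGm : ∀ j, Measurable (G j) := fun j =>
    measurable_eneg.comp ((measurable_D ρ θ (nb x j) (nb x j)).const_mul _)
  have h1 : ∫⁻ c, eneg (t * D nb ρ θ x x c) ∂(confLaw μ d) ≤
      ∫⁻ c, ∏ i ∈ Finset.range (c []).1, G ((c []).2 i) (sub i c) ∂(confLaw μ d) := by
    refine lintegral_mono fun c => ?_
    have h2 : t * ((c₀ : ℝ≥0∞) * ∑ i ∈ Finset.range (c []).1,
        D nb ρ θ (nb x ((c []).2 i)) (nb x ((c []).2 i)) (sub i c)) ≤ t * D nb ρ θ x x c := by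
      gcongr
      exact hc x c
    refine (eneg_anti h2).trans (le_of_eq ?_)
    rw [← mul_assoc, mul_comm t, Finset.mul_sum, eneg_sum]
  refine h1.trans (le_of_eq ?_)
  rw [lintegral_prod_children μ G hGm]
  congr 1
  have h3 : ∀ j, ∫⁻ c, G j c ∂(confLaw μ d) =
      ∫⁻ c, eneg (c₀ * t * D nb ρ θ x x c) ∂(confLaw μ d) := fun j =>
    laplace_hom S θ (c₀ * t) hct (nb x j) x
  simp only [h3, Finset.sum_const, Finset.card_univ, Fintype.card_fin, nsmul_eq_mul]
  rw [mul_comm]
  refine ENNReal.mul_div_cancel_right ?_ (ENNReal.natCast_ne_top d)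
  exact_mod_cast NeZero.ne d

/-- TASK E4.  Behaviour at `0`. -/
theorem laplace_zero (S : Setting nb ρ μ) {θ : ℝ≥0} (hθ0 : 0 < θ) (hθ : θ < 1) {c₀ : ℝ≥0}
    (hc : c₀ < 1) (t : ℝ≥0∞) (ht : t ≠ ⊤) (x : V) :
    Tendsto (fun n : ℕ => ∫⁻ c, eneg ((c₀ : ℝ≥0∞) ^ n * t * D nb ρ θ x x c) ∂(confLaw μ d))
      atTop (𝓝 1) := by
  have h1 : Tendsto (fun n : ℕ => ∫⁻ c, eneg ((c₀ : ℝ≥0∞) ^ n * t * D nb ρ θ x x c)
      ∂(confLaw μ d)) atTop (𝓝 (∫⁻ _ : Conf d, 1 ∂(confLaw μ d))) := by
    refine tendsto_lintegral_of_dominated_convergence (fun _ => 1) (fun n => ?_) (fun n => ?_) ?_ ?_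
    · exact measurable_eneg.comp ((measurable_D ρ θ x x).const_mul _)
    · exact Eventually.of_forall fun c => eneg_le_one _
    · simp
    · filter_upwards [ae_D_lt_top S hθ0 hθ x] with c hcD
      have hD : D nb ρ θ x x c ≠ ⊤ := (hcD x).ne
      have hpow : Tendsto (fun n : ℕ => (c₀ : ℝ≥0∞) ^ n) atTop (𝓝 0) :=
        ENNReal.tendsto_pow_atTop_nhds_zero_of_lt_one (by exact_mod_cast hc)
      have h2 : Tendsto (fun n : ℕ => (c₀ : ℝ≥0∞) ^ n * (t * D nb ρ θ x x c)) atTop
          (𝓝 (0 * (t * D nb ρ θ x x c))) :=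
        ENNReal.Tendsto.mul_const hpow (Or.inr (ENNReal.mul_ne_top ht hD))
      rw [zero_mul] at h2
      have h3 := (continuous_eneg.tendsto 0).comp h2
      rw [eneg_zero] at h3
      refine h3.congr fun n => ?_
      simp only [Function.comp, mul_assoc]
  simpa using h1

-- TASK E5 (helper72): replaces `quantiles` in Quant.lean (auxiliary lemmas e5_*)
theorem e5_eneg_one : eneg 1 = ENNReal.ofReal (Real.exp (-1)) := by
  simp [eneg]

theorem e5_eneg_one_pos : 0 < eneg 1 := by
  rw [e5_eneg_one, ENNReal.ofReal_pos]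
  exact Real.exp_pos _

theorem e5_exp_le : Real.exp (-1) ≤ 1 / 2 := by
  have h : (2 : ℝ) ≤ Real.exp 1 := by
    have := Real.add_one_le_exp (1 : ℝ)
    linarith
  rw [Real.exp_neg, one_div]
  exact inv_anti₀ (by norm_num) h

theorem e5_eneg_one_le : eneg 1 ≤ 1 / 2 := by
  rw [e5_eneg_one]
  have : (1 / 2 : ℝ≥0∞) = ENNReal.ofReal (1 / 2) := by
    rw [ENNReal.ofReal_div_of_pos (by norm_num)]; simp
  rw [this]
  exact ENNReal.ofReal_le_ofReal e5_exp_le

theorem e5_eneg_one_lt : eneg 1 < 1 :=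
  lt_of_le_of_lt e5_eneg_one_le (by
    rw [one_div]; exact ENNReal.inv_lt_one.mpr (by norm_num))

/-- Laplace transform -/
noncomputable def e5L (nb : V → Fin d → V) (ρ θ : ℝ≥0) (μ : PMF ℕ) (x : V) (t : ℝ≥0∞) : ℝ≥0∞ :=
  ∫⁻ c, eneg (t * D nb ρ θ x x c) ∂(confLaw μ d)

theorem e5_iter (S : Setting nb ρ μ) {θ c₀ : ℝ≥0}
    (hc : ∀ (x : V) (c : Conf d), (c₀ : ℝ≥0∞) * ∑ i ∈ Finset.range (c []).1,
        D nb ρ θ (nb x ((c []).2 i)) (nb x ((c []).2 i)) (sub i c) ≤ D nb ρ θ x x c)
    (x : V) (m : ℕ) (t : ℝ≥0∞) (ht : t ≠ ⊤) :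
    e5L nb ρ θ μ x t ≤ (gf μ)^[m] (e5L nb ρ θ μ x ((c₀ : ℝ≥0∞) ^ m * t)) := by
  induction m generalizing t with
  | zero => simp
  | succ m ih =>
    have h1 := laplace_branch S hc t ht x
    have h2 := ih ((c₀ : ℝ≥0∞) * t) (ENNReal.mul_ne_top ENNReal.coe_ne_top ht)
    rw [Function.iterate_succ_apply']
    have h3 : (c₀ : ℝ≥0∞) ^ (m + 1) * t = (c₀ : ℝ≥0∞) ^ m * ((c₀ : ℝ≥0∞) * t) := by
      rw [pow_succ, mul_assoc]
    rw [h3]
    exact h1.trans (gf_mono μ h2)

theorem e5_first {f : ℕ → ℝ≥0∞} (h0 : f 0 ≤ 1 / 2) (hf : Tendsto f atTop (𝓝 1)) :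
    ∃ k, f k ≤ 1 / 2 ∧ 1 / 2 < f (k + 1) := by
  by_contra hcon
  push Not at hcon
  have hall : ∀ k, f k ≤ 1 / 2 := by
    intro k
    induction k with
    | zero => exact h0
    | succ k ih => exact hcon k ih
  have h1 : (1 : ℝ≥0∞) ≤ 1 / 2 := le_of_tendsto' hf hall
  have h2 : (1 / 2 : ℝ≥0∞) < 1 := by
    rw [one_div]; exact ENNReal.inv_lt_one.mpr (by norm_num)
  exact absurd h1 (not_le.mpr h2)

/-- TASK E5.  Sharp quantiles, uniformly in `θ`. -/
theorem quantiles [Nonempty V] (S : Setting nb ρ μ) {θ₀ : ℝ≥0} (hθ₀ : 0 < θ₀) {ε : ℝ≥0∞}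
    (hε : 0 < ε) :
    ∃ κ₁ κ₂ : ℝ≥0, 0 < κ₁ ∧ 0 < κ₂ ∧ ∀ θ : ℝ≥0, θ₀ ≤ θ → θ < 1 →
      ∃ a : ℝ≥0, 0 < a ∧ ∀ x : V,
        confLaw μ d {c | D nb ρ θ x x c < κ₁ * a} ≤ ε ∧
        confLaw μ d {c | κ₂ * a < D nb ρ θ x x c} ≤ ε := by
  obtain ⟨c₀, hc0, hc1, hD⟩ := D_children S hθ₀
  have hhalf : (1 / 2 : ℝ≥0∞) < 1 := by
    rw [one_div]; exact ENNReal.inv_lt_one.mpr (by norm_num)
  have he0 := e5_eneg_one_pos
  have hgap0 : 0 < 1 - eneg 1 := tsub_pos_of_lt e5_eneg_one_lt
  have hgapt : 1 - eneg 1 ≠ ⊤ := ne_top_of_le_ne_top ENNReal.one_ne_top tsub_le_self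
  set δ : ℝ≥0∞ := (1 - eneg 1) * min ε 1 with hδ
  have hδ0 : 0 < δ := ENNReal.mul_pos hgap0.ne' (lt_min hε one_pos).ne'
  have hδ1 : δ ≤ 1 := by
    calc δ ≤ 1 * 1 := mul_le_mul' tsub_le_self (min_le_right _ _)
      _ = 1 := one_mul 1
  have hδ2 : 1 - δ < 1 := ENNReal.sub_lt_self ENNReal.one_ne_top one_ne_zero hδ0.ne'
  obtain ⟨m₁, hm₁⟩ := ((tendsto_order.1 (gf_iterate_tendsto S hhalf)).2 (ε * eneg 1)
    (ENNReal.mul_pos hε.ne' he0.ne')).exists
  obtain ⟨m₂, hm₂⟩ := ((tendsto_order.1 (gf_iterate_tendsto S hδ2)).2 (1 / 2)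
    (by rw [one_div]; exact ENNReal.inv_pos.mpr (by norm_num))).exists
  have hcm : ∀ m : ℕ, (c₀ : ℝ≥0∞) ^ m ≠ 0 := fun m => pow_ne_zero _ (ENNReal.coe_ne_zero.mpr hc0.ne')
  have hcmt : ∀ m : ℕ, (c₀ : ℝ≥0∞) ^ m ≠ ⊤ := fun m => ENNReal.pow_ne_top ENNReal.coe_ne_top
  refine ⟨c₀ ^ m₁, (c₀ ^ (m₂ + 1))⁻¹, by positivity, by positivity, ?_⟩
  intro θ hθ hθ1
  have hθ0 : 0 < θ := lt_of_lt_of_le hθ₀ hθ
  have hc := hD θ hθ
  obtain ⟨x₀⟩ := (inferInstance : Nonempty V)
  obtain ⟨k, hk1, hk2⟩ := e5_first (f := fun n => e5L nb ρ θ μ x₀ ((c₀ : ℝ≥0∞) ^ n * 1))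
    (by
      have h1 : e5L nb ρ θ μ x₀ ((c₀ : ℝ≥0∞) ^ 0 * 1) ≤ ∫⁻ c, eneg 1 ∂(confLaw μ d) := by
        refine lintegral_mono fun c => ?_
        refine eneg_anti ?_
        rw [pow_zero, one_mul, one_mul]
        exact one_le_D ρ θ x₀ c
      refine h1.trans ?_
      rw [lintegral_const, measure_univ, mul_one]
      exact e5_eneg_one_le)
    (laplace_zero S hθ0 hθ1 hc1 1 ENNReal.one_ne_top x₀)
  refine ⟨(c₀ ^ k)⁻¹, by positivity, fun x => ?_⟩
  have hLx : ∀ t : ℝ≥0∞, t ≠ ⊤ → e5L nb ρ θ μ x t = e5L nb ρ θ μ x₀ t := fun t ht =>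
    laplace_hom S θ t ht x x₀
  have hDm : Measurable (D nb ρ θ x x) := measurable_D ρ θ x x
  have hem : ∀ t : ℝ≥0∞, Measurable fun c => eneg (t * D nb ρ θ x x c) := fun t =>
    measurable_eneg.comp (hDm.const_mul t)
  constructor
  · -- lower quantile
    set s : ℝ≥0∞ := (c₀ : ℝ≥0∞) ^ k * ((c₀ : ℝ≥0∞) ^ m₁)⁻¹ with hs
    have hst : s ≠ ⊤ := ENNReal.mul_ne_top (hcmt k) (ENNReal.inv_ne_top.mpr (hcm m₁))
    have hms : (c₀ : ℝ≥0∞) ^ m₁ * s = (c₀ : ℝ≥0∞) ^ k * 1 := by
      rw [hs, mul_left_comm, ENNReal.mul_inv_cancel (hcm m₁) (hcmt m₁)]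
    have hL : e5L nb ρ θ μ x s ≤ ε * eneg 1 := by
      have h1 := e5_iter S hc x m₁ s hst
      rw [hms, hLx ((c₀ : ℝ≥0∞) ^ k * 1) (by simp)] at h1
      have hmono : Monotone ((gf μ)^[m₁]) := (gf_mono μ).iterate m₁
      exact (h1.trans (hmono hk1)).trans hm₁.le
    have hsub : {c | D nb ρ θ x x c < ((c₀ ^ m₁ : ℝ≥0) : ℝ≥0∞) * (((c₀ ^ k)⁻¹ : ℝ≥0) : ℝ≥0∞)} ⊆
        {c | eneg 1 ≤ eneg (s * D nb ρ θ x x c)} := by
      intro c hcc
      simp only [Set.mem_ofPred_eq] at hcc ⊢
      refine eneg_anti ?_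
      have h1 : s * (((c₀ ^ m₁ : ℝ≥0) : ℝ≥0∞) * (((c₀ ^ k)⁻¹ : ℝ≥0) : ℝ≥0∞)) = 1 := by
        rw [ENNReal.coe_inv (pow_ne_zero _ hc0.ne'), ENNReal.coe_pow, ENNReal.coe_pow, hs]
        calc (c₀ : ℝ≥0∞) ^ k * ((c₀ : ℝ≥0∞) ^ m₁)⁻¹ * ((c₀ : ℝ≥0∞) ^ m₁ * ((c₀ : ℝ≥0∞) ^ k)⁻¹)
            = ((c₀ : ℝ≥0∞) ^ k * ((c₀ : ℝ≥0∞) ^ k)⁻¹) *
              ((c₀ : ℝ≥0∞) ^ m₁ * ((c₀ : ℝ≥0∞) ^ m₁)⁻¹) := by ring
          _ = 1 := by
            rw [ENNReal.mul_inv_cancel (hcm k) (hcmt k),
              ENNReal.mul_inv_cancel (hcm m₁) (hcmt m₁), one_mul]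
      calc s * D nb ρ θ x x c ≤ s * (((c₀ ^ m₁ : ℝ≥0) : ℝ≥0∞) * (((c₀ ^ k)⁻¹ : ℝ≥0) : ℝ≥0∞)) :=
            mul_le_mul_right hcc.le _
        _ = 1 := h1
    have hmark := mul_meas_ge_le_lintegral (μ := confLaw μ d) (hem s) (eneg 1)
    have h2 : eneg 1 * confLaw μ d
        {c | D nb ρ θ x x c < ((c₀ ^ m₁ : ℝ≥0) : ℝ≥0∞) * (((c₀ ^ k)⁻¹ : ℝ≥0) : ℝ≥0∞)} ≤
        eneg 1 * ε := by
      calc _ ≤ eneg 1 * confLaw μ d {c | eneg 1 ≤ eneg (s * D nb ρ θ x x c)} :=
            mul_le_mul_right (measure_mono hsub) _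
        _ ≤ _ := hmark
        _ ≤ ε * eneg 1 := hL
        _ = eneg 1 * ε := mul_comm _ _
    exact (ENNReal.mul_le_mul_iff_right he0.ne' (ne_top_of_lt e5_eneg_one_lt)).mp h2
  · -- upper quantile
    set s : ℝ≥0∞ := (c₀ : ℝ≥0∞) ^ (m₂ + 1) * (c₀ : ℝ≥0∞) ^ k with hs
    have hst : s ≠ ⊤ := ENNReal.mul_ne_top (hcmt _) (hcmt k)
    have hL : 1 - δ < e5L nb ρ θ μ x s := by
      by_contra hcon
      push Not at hcon
      have h1 := e5_iter S hc x m₂ ((c₀ : ℝ≥0∞) ^ (k + 1) * 1) (by simp)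
      have h2 : (c₀ : ℝ≥0∞) ^ m₂ * ((c₀ : ℝ≥0∞) ^ (k + 1) * 1) = s := by
        rw [hs]; ring
      rw [h2, hLx _ (by simp)] at h1
      have hmono : Monotone ((gf μ)^[m₂]) := (gf_mono μ).iterate m₂
      have h3 := (h1.trans (hmono hcon)).trans_lt hm₂
      exact absurd (hk2.trans h3) (lt_irrefl _)
    set B : Set (Conf d) := {c | (((c₀ ^ (m₂ + 1))⁻¹ : ℝ≥0) : ℝ≥0∞) * (((c₀ ^ k)⁻¹ : ℝ≥0) : ℝ≥0∞) <
      D nb ρ θ x x c} with hB
    have hBm : MeasurableSet B := measurableSet_lt measurable_const hDm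
    have hpt : ∀ c, eneg (s * D nb ρ θ x x c) + B.indicator (fun _ => 1 - eneg 1) c ≤ 1 := by
      intro c
      by_cases hcB : c ∈ B
      · rw [Set.indicator_of_mem hcB]
        have h1 : s * ((((c₀ ^ (m₂ + 1))⁻¹ : ℝ≥0) : ℝ≥0∞) * (((c₀ ^ k)⁻¹ : ℝ≥0) : ℝ≥0∞)) = 1 := by
          rw [ENNReal.coe_inv (pow_ne_zero _ hc0.ne'), ENNReal.coe_inv (pow_ne_zero _ hc0.ne'),
            ENNReal.coe_pow, ENNReal.coe_pow, hs]
          calc (c₀ : ℝ≥0∞) ^ (m₂ + 1) * (c₀ : ℝ≥0∞) ^ k *
                (((c₀ : ℝ≥0∞) ^ (m₂ + 1))⁻¹ * ((c₀ : ℝ≥0∞) ^ k)⁻¹)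
              = ((c₀ : ℝ≥0∞) ^ k * ((c₀ : ℝ≥0∞) ^ k)⁻¹) *
                ((c₀ : ℝ≥0∞) ^ (m₂ + 1) * ((c₀ : ℝ≥0∞) ^ (m₂ + 1))⁻¹) := by ring
            _ = 1 := by
              rw [ENNReal.mul_inv_cancel (hcm k) (hcmt k),
                ENNReal.mul_inv_cancel (hcm _) (hcmt _), one_mul]
        have h2 : (1 : ℝ≥0∞) ≤ s * D nb ρ θ x x c := by
          rw [← h1]
          exact mul_le_mul_right (le_of_lt hcB) _
        calc eneg (s * D nb ρ θ x x c) + (1 - eneg 1) ≤ eneg 1 + (1 - eneg 1) :=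
              add_le_add_left (eneg_anti h2) _
          _ = 1 := add_tsub_cancel_of_le (eneg_le_one 1)
      · rw [Set.indicator_of_notMem hcB, add_zero]
        exact eneg_le_one _
    have hint : e5L nb ρ θ μ x s + (1 - eneg 1) * confLaw μ d B ≤ 1 := by
      have h1 : ∫⁻ c, (eneg (s * D nb ρ θ x x c) + B.indicator (fun _ => 1 - eneg 1) c)
          ∂(confLaw μ d) = e5L nb ρ θ μ x s + (1 - eneg 1) * confLaw μ d B := by
        rw [lintegral_add_left (hem s), lintegral_indicator hBm, setLIntegral_const]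
        rfl
      rw [← h1]
      calc _ ≤ ∫⁻ _c, 1 ∂(confLaw μ d) := lintegral_mono hpt
        _ = 1 := by rw [lintegral_const, measure_univ, mul_one]
    have h4 : (1 - eneg 1) * confLaw μ d B ≤ (1 - eneg 1) * min ε 1 := by
      have h5 : (1 - δ) + (1 - eneg 1) * confLaw μ d B ≤ (1 - δ) + δ := by
        calc _ ≤ e5L nb ρ θ μ x s + (1 - eneg 1) * confLaw μ d B := add_le_add_left hL.le _
          _ ≤ 1 := hint
          _ = (1 - δ) + δ := (tsub_add_cancel_of_le hδ1).symm
      exact (ENNReal.add_le_add_iff_left (ne_top_of_le_ne_top ENNReal.one_ne_top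
        tsub_le_self)).mp h5
    exact ((ENNReal.mul_le_mul_iff_right hgap0.ne' hgapt).mp h4).trans (min_le_left _ _)

end MP_9b4c76_pr
end
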