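import Pool.Agent.Lib.MP_9b4c76_pr.Mg.G001

section

/-! Hitting a space-time set at a good particle. -/

namespace MP_9b4c76_pr

open MeasureTheory ProbabilityTheory Filter Topology
open scoped ENNReal NNReal

variable {V : Type*} {d : ℕ} [NeZero d] {nb : V → Fin d → V} {ρ : ℝ≥0} {μ : PMF ℕ}

/-- TASK H1. -/
theorem measurableSet_ex {Q : ℕ → V → Conf d → Prop} (hQ : ∀ k z, MeasurableSet {c | Q k z c})
    (n : ℕ) (x : V) : MeasurableSet {c | Ex nb Q n x c} := by
  induction n generalizing Q x with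
  | zero =>
    have : {c : Conf d | Ex nb Q 0 x c} = {c | Q 0 x c} := by
      ext c; exact ex_zero nb Q x c
    rw [this]; exact hQ 0 x
  | succ n ih =>
    have : {c : Conf d | Ex nb Q (n + 1) x c} = {c | Q 0 x c} ∪
        {c : Conf d | ∃ i < (c []).1, sub i c ∈
          (fun j => {c : Conf d | Ex nb (fun k => Q (k + 1)) n (nb x j) c}) ((c []).2 i)} := by
      ext c; exact ex_succ nb Q n x c
    rw [this]
    exact (hQ 0 x).union (measurableSet_exists_child _ fun j => ih (fun k z => hQ (k + 1) z) _)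

/-- TASK H2.  One step formula for the probability that no particle has property `Q`. -/
theorem measure_not_ex_succ (μ : PMF ℕ) {Q : ℕ → V → Conf d → Prop}
    (hQ : ∀ k z, MeasurableSet {c | Q k z c}) (n : ℕ) (x : V) :
    confLaw μ d {c | ∀ i < (c []).1,
      ¬ Ex nb (fun k => Q (k + 1)) n (nb x ((c []).2 i)) (sub i c)} =
      gf μ (avg nb (fun z => confLaw μ d {c | ¬ Ex nb (fun k => Q (k + 1)) n z c}) x) := by
  have h := measure_forall_children (d := d) μ
    (fun j => {c : Conf d | ¬ Ex nb (fun k => Q (k + 1)) n (nb x j) c})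
    (fun j => (measurableSet_ex (fun k z => hQ (k + 1) z) n (nb x j)).compl)
  exact h

theorem h3_avg_affine (nb : V → Fin d → V) (ε : ℝ≥0∞) (q : V → ℝ≥0∞) (x : V) :
    avg nb (fun z => ε + (1 - ε) * q z) x = ε + (1 - ε) * avg nb q x := by
  unfold avg
  have hd : (d : ℝ≥0∞) ≠ 0 := by
    have := NeZero.ne d
    exact_mod_cast this
  have hd' : (d : ℝ≥0∞) ≠ ∞ := ENNReal.natCast_ne_top d
  rw [Finset.sum_add_distrib, ← Finset.mul_sum, Finset.sum_const, Finset.card_univ,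
    Fintype.card_fin, nsmul_eq_mul, ENNReal.add_div, mul_comm (d : ℝ≥0∞) ε,
    ENNReal.mul_div_cancel_right hd hd', mul_div_assoc]

omit [NeZero d] in
theorem h3_avg_mono (nb : V → Fin d → V) {p q : V → ℝ≥0∞} (h : ∀ z, p z ≤ q z) (x : V) :
    avg nb p x ≤ avg nb q x := by
  unfold avg
  exact ENNReal.div_le_div_right (Finset.sum_le_sum fun j _ => h _) _

/-- TASK H3.  Hitting at a good particle. -/
theorem hit_good (μ : PMF ℕ) {ε : ℝ≥0∞} (hε : ε ≤ 1) (Gd : V → Set (Conf d))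
    (hGd : ∀ z, MeasurableSet (Gd z)) (hbad : ∀ z, confLaw μ d (Gd z)ᶜ ≤ ε) (n : ℕ)
    (A : ℕ → V → Prop) (x : V) :
    confLaw μ d {c | ¬ Ex nb (fun k z c => A k z ∧ c ∈ Gd z) n x c} ≤
      ε + (1 - ε) * confLaw μ d {c | ¬ Ex nb (fun k z _ => A k z) n x c} := by
  induction n generalizing A x with
  | zero =>
    by_cases hA : A 0 x
    · refine le_trans (le_trans (measure_mono ?_) (hbad x)) le_self_add
      intro c hc hg
      have hs : subL [] c = c := by
        funext u; simp [subL]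
      exact hc ⟨[], le_rfl, trivial, hA, by rw [hs]; exact hg⟩
    · have h1 : {c : Conf d | ¬ Ex nb (fun k z _ => A k z) 0 x c} = Set.univ := by
        ext c
        simp only [Set.mem_ofPred_eq, Set.mem_univ, iff_true]
        rw [ex_zero]
        exact hA
      rw [h1, measure_univ, mul_one, add_tsub_cancel_of_le hε]
      exact prob_le_one
  | succ n ih =>
    by_cases hA : A 0 x
    · refine le_trans (le_trans (measure_mono ?_) (hbad x)) le_self_add
      intro c hc hg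
      have hs : subL [] c = c := by
        funext u; simp [subL]
      exact hc ⟨[], Nat.zero_le _, trivial, hA, by rw [hs]; exact hg⟩
    · have h1 : {c : Conf d | ¬ Ex nb (fun k z c => A k z ∧ c ∈ Gd z) (n + 1) x c} =
          {c | ∀ i < (c []).1, ¬ Ex nb (fun k => (fun k z c => A k z ∧ c ∈ Gd z) (k + 1)) n
            (nb x ((c []).2 i)) (sub i c)} := by
        ext c
        simp only [Set.mem_ofPred_eq]
        rw [ex_succ]
        push Not
        constructor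
        · rintro ⟨_, h⟩ i hi
          exact h i hi
        · intro h
          exact ⟨fun h' => absurd h' hA, fun i hi => h i hi⟩
      have h2 : {c : Conf d | ¬ Ex nb (fun k z _ => A k z) (n + 1) x c} =
          {c | ∀ i < (c []).1, ¬ Ex nb (fun k => (fun k z _ => A k z) (k + 1)) n
            (nb x ((c []).2 i)) (sub i c)} := by
        ext c
        simp only [Set.mem_ofPred_eq]
        rw [ex_succ]
        push Not
        constructor
        · rintro ⟨_, h⟩ i hi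
          exact h i hi
        · intro h
          exact ⟨hA, fun i hi => h i hi⟩
      have hQ1 : ∀ (k : ℕ) (z : V),
          MeasurableSet {c : Conf d | (fun (k : ℕ) (z : V) (c : Conf d) =>
            A k z ∧ c ∈ Gd z) k z c} := by
        intro k z
        by_cases h : A k z
        · have : {c : Conf d | A k z ∧ c ∈ Gd z} = Gd z := by
            ext c; simp [h]
          show MeasurableSet {c : Conf d | A k z ∧ c ∈ Gd z}
          rw [this]; exact hGd z
        · have : {c : Conf d | A k z ∧ c ∈ Gd z} = ∅ := by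
            ext c; simp [h]
          show MeasurableSet {c : Conf d | A k z ∧ c ∈ Gd z}
          rw [this]; exact MeasurableSet.empty
      have hQ2 : ∀ (k : ℕ) (z : V),
          MeasurableSet {c : Conf d | (fun (k : ℕ) (z : V) (_ : Conf d) => A k z) k z c} := by
        intro k z
        exact MeasurableSet.const _
      rw [h1, h2, measure_not_ex_succ μ hQ1, measure_not_ex_succ μ hQ2]
      refine le_trans (gf_mono μ ?_) (gf_convex μ hε)
      rw [← h3_avg_affine]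
      exact h3_avg_mono nb (fun z => ih (fun k => A (k + 1)) z) x

end MP_9b4c76_pr
end

section

/-! Lemma B: a branching random walk is seldom at sites where a superharmonic function is
large. -/

namespace MP_9b4c76_pr

open MeasureTheory ProbabilityTheory Filter Topology
open scoped ENNReal NNReal

variable {V : Type*} {d : ℕ} [NeZero d] {nb : V → Fin d → V} {ρ : ℝ≥0} {μ : PMF ℕ}

/-- real average -/
noncomputable def avgR (nb : V → Fin d → V) (F : V → ℝ) (x : V) : ℝ := (∑ j, F (nb x j)) / d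

/-- real generating function -/
noncomputable def gfR (μ : PMF ℕ) (s : ℝ) : ℝ := ∑' n, (μ n).toReal * s ^ n

/-- `h(t) = e^{-t} - 1 + t` -/
noncomputable def hh (t : ℝ) : ℝ := Real.exp (-t) - 1 + t

/-- TASK B1. -/
theorem hh_nonneg (t : ℝ) : 0 ≤ hh t := by
  have h := Real.add_one_le_exp (-t)
  unfold hh
  linarith

/-- TASK B1. -/
theorem hh_pos {t : ℝ} (ht : 0 < t) : 0 < hh t := by
  have h := Real.add_one_lt_exp (x := -t) (neg_ne_zero.2 ht.ne')
  unfold hh
  linarith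

/-- TASK B1. -/
theorem hh_mono {s t : ℝ} (hs : 0 ≤ s) (hst : s ≤ t) : hh s ≤ hh t := by
  unfold hh
  have h1 := Real.add_one_le_exp (-(t - s))
  have h2 : Real.exp (-t) = Real.exp (-s) * Real.exp (-(t - s)) := by
    rw [← Real.exp_add]
    congr 1
    ring
  have h3 : Real.exp (-s) ≤ 1 := Real.exp_le_one_iff.2 (by linarith)
  have h4 : 0 < Real.exp (-s) := Real.exp_pos _
  rw [h2]
  nlinarith [mul_le_mul_of_nonneg_left h1 h4.le, mul_nonneg (sub_nonneg.2 hst)
    (sub_nonneg.2 h3)]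

theorem b12_sum (μ : PMF ℕ) : HasSum (fun n => (μ n).toReal) 1 := by
  have h1 : ∑' n, μ n ≠ ⊤ := by
    rw [μ.tsum_coe]
    exact ENNReal.one_ne_top
  have h2 : Summable fun n => (μ n).toReal := ENNReal.summable_toReal h1
  have h3 := ENNReal.tsum_toReal_eq (fun n => μ.apply_ne_top n)
  rw [μ.tsum_coe, ENNReal.toReal_one] at h3
  rw [h3]
  exact h2.hasSum

theorem b12_mean (S : Setting nb ρ μ) :
    HasSum (fun n => (μ n).toReal * (n : ℝ)) ((ρ : ℝ)⁻¹) := by
  have h0 : ∀ n : ℕ, μ n * n ≠ ⊤ := fun n =>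
    ENNReal.mul_ne_top (μ.apply_ne_top n) (ENNReal.natCast_ne_top n)
  have h1 : ∑' n : ℕ, μ n * n ≠ ⊤ := by
    rw [S.crit]
    exact ENNReal.coe_ne_top
  have h2 := ENNReal.summable_toReal h1
  have h3 := ENNReal.tsum_toReal_eq h0
  rw [S.crit, ENNReal.coe_toReal, NNReal.coe_inv] at h3
  have h4 : (fun n : ℕ => (μ n * (n : ℝ≥0∞)).toReal) = fun n => (μ n).toReal * (n : ℝ) := by
    funext n
    rw [ENNReal.toReal_mul, ENNReal.toReal_natCast]
  rw [h4] at h2
  have h5 : ∑' n : ℕ, (μ n * (n : ℝ≥0∞)).toReal = ∑' n : ℕ, (μ n).toReal * (n : ℝ) :=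
    congrArg (fun f : ℕ → ℝ => ∑' n, f n) h4
  rw [h3, h5]
  exact h2.hasSum

theorem b12_summable (μ : PMF ℕ) {s : ℝ} (hs : 0 ≤ s) (hs1 : s ≤ 1) :
    Summable fun n => (μ n).toReal * s ^ n := by
  refine Summable.of_nonneg_of_le (fun n => mul_nonneg ENNReal.toReal_nonneg (pow_nonneg hs n))
    (fun n => ?_) (b12_sum μ).summable
  exact mul_le_of_le_one_right ENNReal.toReal_nonneg (pow_le_one₀ hs hs1)

/-- TASK B2.  Jensen for the generating function; `m = 1/ρ`. -/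
theorem exp_le_gfR (S : Setting nb ρ μ) {x : ℝ} (hx : 0 ≤ x) :
    Real.exp (-(x / ρ)) ≤ gfR μ (Real.exp (-x)) := by
  have h1 := b12_sum μ
  have h2 := b12_mean S
  have h3 : HasSum (fun n : ℕ => Real.exp (-(x / ρ)) * ((μ n).toReal * (1 + x / ρ)) -
      Real.exp (-(x / ρ)) * ((μ n).toReal * (n : ℝ) * x)) (Real.exp (-(x / ρ))) := by
    have h4 := ((h1.mul_right (1 + x / ρ)).mul_left (Real.exp (-(x / ρ)))).sub
      ((h2.mul_right x).mul_left (Real.exp (-(x / ρ))))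
    have h5 : Real.exp (-(x / ρ)) * (1 * (1 + x / ρ)) -
        Real.exp (-(x / ρ)) * ((ρ : ℝ)⁻¹ * x) = Real.exp (-(x / ρ)) := by
      rw [div_eq_mul_inv]
      ring
    rw [h5] at h4
    exact h4
  have hsm := b12_summable μ (Real.exp_pos (-x)).le (Real.exp_le_one_iff.2 (by linarith))
  unfold gfR
  rw [← h3.tsum_eq]
  refine h3.summable.tsum_le_tsum (fun n => ?_) hsm
  have h6 : Real.exp (-x) ^ n = Real.exp (-(x / ρ)) * Real.exp (x / ρ - n * x) := by
    rw [← Real.exp_nat_mul, ← Real.exp_add]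
    congr 1
    ring
  have h7 := Real.add_one_le_exp (x / ρ - n * x)
  have h8 : 0 ≤ (μ n).toReal * Real.exp (-(x / ρ)) :=
    mul_nonneg ENNReal.toReal_nonneg (Real.exp_pos _).le
  rw [h6]
  have h9 := mul_le_mul_of_nonneg_left h7 h8
  linarith

/-- TASK B2. -/
theorem gfR_mono (μ : PMF ℕ) {s t : ℝ} (hs : 0 ≤ s) (hst : s ≤ t) (ht : t ≤ 1) :
    gfR μ s ≤ gfR μ t := by
  unfold gfR
  exact (b12_summable μ hs (hst.trans ht)).tsum_le_tsum
    (fun n => mul_le_mul_of_nonneg_left (pow_le_pow_left₀ hs hst n) ENNReal.toReal_nonneg)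
    (b12_summable μ (hs.trans hst) ht)

/-- TASK B2. -/
theorem gf_ofReal (μ : PMF ℕ) {s : ℝ} (hs : 0 ≤ s) (hs1 : s ≤ 1) :
    gf μ (ENNReal.ofReal s) = ENNReal.ofReal (gfR μ s) := by
  unfold gf gfR
  rw [ENNReal.ofReal_tsum_of_nonneg
    (fun n => mul_nonneg ENNReal.toReal_nonneg (pow_nonneg hs n)) (b12_summable μ hs hs1)]
  refine tsum_congr fun n => ?_
  rw [ENNReal.ofReal_mul ENNReal.toReal_nonneg, ENNReal.ofReal_toReal (μ.apply_ne_top n),
    ENNReal.ofReal_pow hs]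

/-- TASK B2. -/
theorem avg_ofReal {F : V → ℝ} (hF : ∀ z, 0 ≤ F z) (x : V) :
    avg nb (fun z => ENNReal.ofReal (F z)) x = ENNReal.ofReal (avgR nb F x) := by
  unfold avg avgR
  have hd : (0 : ℝ) < d := by exact_mod_cast Nat.pos_of_ne_zero (NeZero.ne d)
  rw [ENNReal.ofReal_div_of_pos hd, ENNReal.ofReal_sum_of_nonneg fun j _ => hF _,
    ENNReal.ofReal_natCast]

theorem b34_dpos : (0 : ℝ) < d := by
  have := NeZero.ne d
  positivity

theorem b34_avgR_le {F : V → ℝ} {x : V} {c : ℝ} (h : ∀ j, F (nb x j) ≤ c) :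
    avgR nb F x ≤ c := by
  unfold avgR
  have hd : (0 : ℝ) < d := b34_dpos
  rw [div_le_iff₀ hd]
  refine (Finset.sum_le_sum fun j _ => h j).trans (le_of_eq ?_)
  rw [Finset.sum_const, Finset.card_univ, Fintype.card_fin, nsmul_eq_mul, mul_comm]

theorem b34_avgR_nonneg {F : V → ℝ} {x : V} (h : ∀ j, 0 ≤ F (nb x j)) :
    0 ≤ avgR nb F x := by
  unfold avgR
  exact div_nonneg (Finset.sum_nonneg fun j _ => h j) (Nat.cast_nonneg d)

/-- TASK B3.  Gain in the average: `y'` has the neighbour `y` where `ℓ` is above average. -/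
theorem avg_gain {ℓ : V → ℝ} {y' y : V} {j : Fin d} (hj : nb y' j = y) {κ : ℝ} (hκ : 0 ≤ κ)
    (hℓ : avgR nb ℓ y' + κ ≤ ℓ y) :
    Real.exp (-(avgR nb ℓ y')) * (1 + hh κ / d) ≤ avgR nb (fun z => Real.exp (-ℓ z)) y' := by
  have hd : (0 : ℝ) < d := b34_dpos
  set t : ℝ := avgR nb ℓ y' with ht
  have hsum : ∑ i, ℓ (nb y' i) = d * t := by
    rw [ht, avgR]
    field_simp
  have h1 : ∀ i : Fin d, Real.exp (-ℓ (nb y' i)) =
      Real.exp (-t) * (1 - (ℓ (nb y' i) - t) + hh (ℓ (nb y' i) - t)) := by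
    intro i
    have h2 : 1 - (ℓ (nb y' i) - t) + hh (ℓ (nb y' i) - t) = Real.exp (-(ℓ (nb y' i) - t)) := by
      unfold hh
      ring
    rw [h2, ← Real.exp_add]
    congr 1
    ring
  have h3 : hh κ ≤ ∑ i, hh (ℓ (nb y' i) - t) := by
    have h4 : hh (ℓ (nb y' j) - t) ≤ ∑ i, hh (ℓ (nb y' i) - t) :=
      Finset.single_le_sum (f := fun i => hh (ℓ (nb y' i) - t)) (fun i _ => hh_nonneg _)
        (Finset.mem_univ j)
    refine (hh_mono hκ ?_).trans h4
    rw [hj]
    linarith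
  have h5 : ∑ i, Real.exp (-ℓ (nb y' i)) = Real.exp (-t) * (d + ∑ i, hh (ℓ (nb y' i) - t)) := by
    simp only [h1]
    rw [← Finset.mul_sum, Finset.sum_add_distrib, Finset.sum_sub_distrib, Finset.sum_sub_distrib,
      hsum]
    simp only [Finset.sum_const, Finset.card_univ, Fintype.card_fin, nsmul_eq_mul]
    ring
  have h6 : avgR nb (fun z => Real.exp (-ℓ z)) y' =
      Real.exp (-t) * (d + ∑ i, hh (ℓ (nb y' i) - t)) / d := by
    unfold avgR
    rw [h5]
  rw [h6, le_div_iff₀ hd]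
  have h7 : Real.exp (-t) * (1 + hh κ / d) * d = Real.exp (-t) * (d + hh κ) := by
    field_simp
  rw [h7]
  exact mul_le_mul_of_nonneg_left (by linarith) (Real.exp_pos _).le

theorem b34_jensen {ℓ : V → ℝ} (z : V) :
    Real.exp (-(avgR nb ℓ z)) ≤ avgR nb (fun w => Real.exp (-ℓ w)) z := by
  have hd : (0 : ℝ) < d := b34_dpos
  set t : ℝ := avgR nb ℓ z with ht
  have hsum : ∑ i, ℓ (nb z i) = d * t := by
    rw [ht, avgR]
    field_simp
  have h1 : ∀ i : Fin d, Real.exp (-t) * (1 - (ℓ (nb z i) - t)) ≤ Real.exp (-ℓ (nb z i)) := by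
    intro i
    have h2 : 1 - (ℓ (nb z i) - t) ≤ Real.exp (-(ℓ (nb z i) - t)) := by
      have := Real.add_one_le_exp (-(ℓ (nb z i) - t))
      linarith
    refine (mul_le_mul_of_nonneg_left h2 (Real.exp_pos _).le).trans (le_of_eq ?_)
    rw [← Real.exp_add]
    congr 1
    ring
  unfold avgR
  rw [le_div_iff₀ hd]
  refine le_trans (le_of_eq ?_) (Finset.sum_le_sum fun i _ => h1 i)
  rw [← Finset.mul_sum, Finset.sum_sub_distrib, Finset.sum_sub_distrib, hsum]
  simp only [Finset.sum_const, Finset.card_univ, Fintype.card_fin, nsmul_eq_mul]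
  ring

/-- Jensen for a finite average with given indices -/
theorem b34_jensen_fin (a : Fin d → ℝ) :
    Real.exp (-((∑ j, a j) / d)) ≤ (∑ j, Real.exp (-a j)) / d := by
  have h := b34_jensen (V := Fin d) (d := d) (nb := fun _ j => j) (ℓ := a)
    (⟨0, Nat.pos_of_ne_zero (NeZero.ne d)⟩ : Fin d)
  exact h

theorem b34_gfR_nonneg (μ : PMF ℕ) {s : ℝ} (hs : 0 ≤ s) : 0 ≤ gfR μ s := by
  unfold gfR
  exact tsum_nonneg fun n => mul_nonneg ENNReal.toReal_nonneg (pow_nonneg hs n)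

theorem b34_gfR_one (μ : PMF ℕ) : gfR μ 1 = 1 := by
  have h := gf_ofReal μ (s := 1) zero_le_one le_rfl
  rw [ENNReal.ofReal_one, gf_one] at h
  have h0 := b34_gfR_nonneg μ (s := 1) zero_le_one
  have h2 := congrArg ENNReal.toReal h
  rw [ENNReal.toReal_ofReal h0, ENNReal.toReal_one] at h2
  exact h2.symm

theorem b34_gfR_le_one (μ : PMF ℕ) {s : ℝ} (hs : 0 ≤ s) (hs1 : s ≤ 1) : gfR μ s ≤ 1 := by
  rw [← b34_gfR_one μ]
  exact gfR_mono μ hs hs1 le_rfl

theorem b34_exp_le (S : Setting nb ρ μ) {x s : ℝ} (h : Real.exp (-x) ≤ s) (hs1 : s ≤ 1) :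
    Real.exp (-(x / ρ)) ≤ gfR μ s := by
  have hx : 0 ≤ x := by
    have h1 : Real.exp (-x) ≤ Real.exp 0 := by rw [Real.exp_zero]; exact h.trans hs1
    have h2 := Real.exp_le_exp.1 h1
    linarith
  exact (exp_le_gfR S hx).trans (gfR_mono μ (Real.exp_pos _).le h hs1)

/-- TASK B4.  Two generations: the analytic heart of Lemma B. -/
theorem two_step (S : Setting nb ρ μ) {θ : ℝ} (hθ : (ρ : ℝ) < θ) (hθ1 : θ ≤ 1) {ℓ : V → ℝ}
    (hℓ0 : ∀ z, 0 ≤ ℓ z) (hℓ : ∀ z, avgR nb ℓ z ≤ ρ / θ * ℓ z) (y : V) :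
    Real.exp (-(ℓ y / θ ^ 2)) * Real.exp (Real.log (1 + hh ((1 - (ρ / θ) ^ 2) * ℓ y) / d) / d) ≤
      gfR μ (avgR nb (fun z => gfR μ (avgR nb (fun w => Real.exp (-ℓ w)) z)) y) := by
  have hd : (0 : ℝ) < d := b34_dpos
  have hρ : (0 : ℝ) < ρ := by exact_mod_cast S.rpos
  have hρ1 : (ρ : ℝ) < 1 := by exact_mod_cast S.rlt
  have hθ0 : 0 < θ := hρ.trans hθ
  set q : ℝ := ρ / θ with hq
  have hq0 : 0 < q := div_pos hρ hθ0
  have hq1 : q < 1 := (div_lt_one hθ0).2 hθ
  set κ : ℝ := (1 - q ^ 2) * ℓ y with hκ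
  have hq2 : q ^ 2 < 1 := by nlinarith
  have hκ0 : 0 ≤ κ := mul_nonneg (by linarith) (hℓ0 y)
  set L : ℝ := Real.log (1 + hh κ / d) with hL
  have hh0 : 0 ≤ hh κ / d := div_nonneg (hh_nonneg κ) hd.le
  have hL0 : 0 ≤ L := Real.log_nonneg (by linarith)
  have hexpL : Real.exp L = 1 + hh κ / d := Real.exp_log (by linarith)
  -- the neighbour with a small value
  obtain ⟨j₀, hj₀⟩ : ∃ j : Fin d, ℓ (nb y j) ≤ q * ℓ y := by
    by_contra hcon
    push Not at hcon
    have h1 : avgR nb ℓ y ≤ q * ℓ y := hℓ y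
    unfold avgR at h1
    rw [div_le_iff₀ hd] at h1
    have h2 : ∑ _j : Fin d, q * ℓ y < ∑ j, ℓ (nb y j) :=
      Finset.sum_lt_sum_of_nonempty
        ⟨⟨0, Nat.pos_of_ne_zero (NeZero.ne d)⟩, Finset.mem_univ _⟩ fun j _ => hcon j
    rw [Finset.sum_const, Finset.card_univ, Fintype.card_fin, nsmul_eq_mul] at h2
    linarith
  obtain ⟨j', hj'⟩ := S.back y j₀
  have hav0 : ∀ z, 0 ≤ avgR nb ℓ z := fun z => b34_avgR_nonneg fun j => hℓ0 _
  have hin1 : ∀ z, avgR nb (fun w => Real.exp (-ℓ w)) z ≤ 1 := fun z =>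
    b34_avgR_le fun j => Real.exp_le_one_iff.2 (by linarith [hℓ0 (nb z j)])
  have hin0 : ∀ z, 0 ≤ avgR nb (fun w => Real.exp (-ℓ w)) z := fun z =>
    b34_avgR_nonneg fun j => (Real.exp_pos _).le
  -- lower bounds of the inner function
  have hinner : ∀ z, Real.exp (-(avgR nb ℓ z / ρ)) ≤
      gfR μ (avgR nb (fun w => Real.exp (-ℓ w)) z) := fun z =>
    b34_exp_le S (b34_jensen z) (hin1 z)
  have hgain : Real.exp (-((avgR nb ℓ (nb y j₀) - L) / ρ)) ≤
      gfR μ (avgR nb (fun w => Real.exp (-ℓ w)) (nb y j₀)) := by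
    refine b34_exp_le S ?_ (hin1 _)
    have h1 : avgR nb ℓ (nb y j₀) + κ ≤ ℓ y := by
      have h2 := hℓ (nb y j₀)
      have h3 : q * ℓ (nb y j₀) ≤ q * (q * ℓ y) := mul_le_mul_of_nonneg_left hj₀ hq0.le
      have h4 : κ = ℓ y - q * (q * ℓ y) := by rw [hκ]; ring
      linarith
    have h2 := avg_gain hj' hκ0 h1
    have h3 : Real.exp (-(avgR nb ℓ (nb y j₀) - L)) =
        Real.exp (-(avgR nb ℓ (nb y j₀))) * (1 + hh κ / d) := by
      rw [← hexpL, ← Real.exp_add]
      congr 1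
      ring
    rw [h3]
    exact h2
  -- the outer average
  set a : Fin d → ℝ := fun j => avgR nb ℓ (nb y j) / ρ - if j = j₀ then L / ρ else 0 with ha
  have hout : Real.exp (-((∑ j, a j) / d)) ≤
      avgR nb (fun z => gfR μ (avgR nb (fun w => Real.exp (-ℓ w)) z)) y := by
    refine (b34_jensen_fin a).trans ?_
    unfold avgR
    refine div_le_div_of_nonneg_right (Finset.sum_le_sum fun j _ => ?_) hd.le
    by_cases hj : j = j₀
    · have e : a j = (avgR nb ℓ (nb y j₀) - L) / ρ := by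
        simp only [ha, hj, if_true]
        ring
      rw [e, hj]
      exact hgain
    · have e : a j = avgR nb ℓ (nb y j) / ρ := by
        simp only [ha, if_neg hj, sub_zero]
      rw [e]
      exact hinner _
  have hout1 : avgR nb (fun z => gfR μ (avgR nb (fun w => Real.exp (-ℓ w)) z)) y ≤ 1 :=
    b34_avgR_le fun j => b34_gfR_le_one μ (hin0 _) (hin1 _)
  refine le_trans ?_ (b34_exp_le S hout hout1)
  rw [← Real.exp_add]
  apply Real.exp_le_exp.2
  have hsum : (∑ j, a j) / d = avgR nb (avgR nb ℓ) y / ρ - L / (ρ * d) := by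
    simp only [ha]
    rw [Finset.sum_sub_distrib, Finset.sum_ite_eq', if_pos (Finset.mem_univ _), ← Finset.sum_div]
    unfold avgR
    field_simp
  have h2 : avgR nb (avgR nb ℓ) y ≤ q * (q * ℓ y) := by
    have h3 : avgR nb (avgR nb ℓ) y ≤ q * avgR nb ℓ y := by
      have h4 : q * avgR nb ℓ y = avgR nb (fun z => q * ℓ z) y := by
        unfold avgR
        rw [← Finset.mul_sum, mul_div_assoc]
      rw [h4]
      unfold avgR
      exact div_le_div_of_nonneg_right (Finset.sum_le_sum fun j _ => hℓ _) hd.le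
    exact h3.trans (mul_le_mul_of_nonneg_left (hℓ y) hq0.le)
  rw [hsum]
  have h5 : (avgR nb (avgR nb ℓ) y / ρ - L / (ρ * d)) / ρ =
      avgR nb (avgR nb ℓ) y / ρ ^ 2 - L / d * (1 / ρ ^ 2) := by
    field_simp
  have h6 : avgR nb (avgR nb ℓ) y / ρ ^ 2 ≤ ℓ y / θ ^ 2 := by
    rw [div_le_iff₀ (by positivity)]
    refine h2.trans (le_of_eq ?_)
    rw [hq]
    field_simp
  have h7 : L / d ≤ L / d * (1 / (ρ : ℝ) ^ 2) := by
    have h8 : 1 ≤ 1 / (ρ : ℝ) ^ 2 := by
      rw [le_div_iff₀ (by positivity)]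
      nlinarith
    exact le_mul_of_one_le_right (div_nonneg hL0 hd.le) h8
  rw [h5]
  linarith

theorem b5_sum_nat (G : Fin d → Conf d → ℕ) (hG : ∀ j, Measurable (G j)) :
    Measurable fun c : Conf d => ∑ i ∈ Finset.range (c []).1, G ((c []).2 i) (sub i c) := by
  have h1 : Measurable fun q : Fin d × Conf d => G q.1 q.2 :=
    measurable_from_prod_countable_right hG
  have h2 : ∀ i, Measurable fun c : Conf d => G ((c []).2 i) (sub i c) := by
    intro i
    have h3 : Measurable fun c : Conf d => ((c []).2 i, sub i c) := by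
      have := measurable_sub (d := d) i
      fun_prop
    exact h1.comp h3
  have h4 : Measurable fun q : ℕ × Conf d => ∑ i ∈ Finset.range q.1, G ((q.2 []).2 i) (sub i q.2) :=
    measurable_from_prod_countable_right fun n => by
      show Measurable fun c : Conf d => ∑ i ∈ Finset.range n, G ((c []).2 i) (sub i c)
      exact Finset.measurable_sum _ fun i _ => h2 i
  have h5 : Measurable fun c : Conf d => ((c []).1, c) := by fun_prop
  exact h4.comp h5

/-- TASK B5. -/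
theorem measurable_cnt (f : V → ℝ) (a : ℝ) (n : ℕ) (b : Bool) (y : V) :
    Measurable (cnt nb f a n b y) := by
  induction n generalizing b y with
  | zero => exact measurable_const
  | succ n ih =>
    have := b5_sum_nat (fun j => cnt nb f a n (!b) (nb y j)) (fun j => ih (!b) (nb y j))
    exact measurable_const.add this

/-- TASK B5.  Recursion for the Laplace transform of the count. -/
theorem lintegral_cnt_succ (μ : PMF ℕ) (f : V → ℝ) (a s : ℝ) (n : ℕ) (b : Bool)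
    (y : V) :
    ∫⁻ c, ENNReal.ofReal (Real.exp (-(s * (cnt nb f a (n + 1) b y c : ℝ)))) ∂(confLaw μ d) =
      ENNReal.ofReal (Real.exp (-(s * (cnt nb f a 0 b y (fun _ => (0, fun _ => 0)) : ℝ)))) *
      gf μ (avg nb (fun z => ∫⁻ c, ENNReal.ofReal
        (Real.exp (-(s * (cnt nb f a n (!b) z c : ℝ)))) ∂(confLaw μ d)) y) := by
  set G : Fin d → Conf d → ℝ≥0∞ := fun j c => ENNReal.ofReal
    (Real.exp (-(s * (cnt nb f a n (!b) (nb y j) c : ℝ)))) with hG
  have hGm : ∀ j, Measurable (G j) := by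
    intro j
    have h1 := measurable_cnt (nb := nb) f a n (!b) (nb y j)
    have h2 : Measurable fun m : ℕ => ENNReal.ofReal (Real.exp (-(s * (m : ℝ)))) :=
      measurable_from_nat
    exact h2.comp h1
  have h := lintegral_prod_children μ G hGm
  have e : ∀ c : Conf d, ENNReal.ofReal (Real.exp (-(s * (cnt nb f a (n + 1) b y c : ℝ)))) =
      ENNReal.ofReal (Real.exp (-(s * (cnt nb f a 0 b y (fun _ => (0, fun _ => 0)) : ℝ)))) *
        ∏ i ∈ Finset.range (c []).1, G ((c []).2 i) (sub i c) := by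
    intro c
    have e1 : cnt nb f a (n + 1) b y c = cnt nb f a 0 b y (fun _ => (0, fun _ => 0)) +
      ∑ i ∈ Finset.range (c []).1, cnt nb f a n (!b) (nb y ((c []).2 i)) (sub i c) := rfl
    rw [e1]
    simp only [hG]
    rw [← ENNReal.ofReal_prod_of_nonneg (fun i _ => (Real.exp_pos _).le), ← Real.exp_sum,
      ← ENNReal.ofReal_mul (Real.exp_pos _).le, ← Real.exp_add]
    congr 2
    push_cast
    rw [mul_add, Finset.mul_sum, neg_add, Finset.sum_neg_distrib]
  simp only [e]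
  rw [lintegral_const_mul' _ _ ENNReal.ofReal_ne_top, h]
  rfl

omit [NeZero d] in
theorem b6_avg_mono {F G : V → ℝ≥0∞} (h : ∀ z, F z ≤ G z) (x : V) :
    avg nb F x ≤ avg nb G x := by
  unfold avg
  gcongr with j _
  exact h _

theorem b6_avg_one (x : V) : avg nb (fun _ => 1) x = 1 := by
  unfold avg
  simp only [Finset.sum_const, Finset.card_univ, Fintype.card_fin, nsmul_eq_mul, mul_one]
  exact ENNReal.div_self (by exact_mod_cast NeZero.ne d) (ENNReal.natCast_ne_top d)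

omit [NeZero d] in
theorem b6_avgR_nonneg {F : V → ℝ} (h : ∀ z, 0 ≤ F z) (x : V) : 0 ≤ avgR nb F x := by
  unfold avgR
  exact div_nonneg (Finset.sum_nonneg fun j _ => h _) (Nat.cast_nonneg _)

theorem b6_avgR_le_one {F : V → ℝ} (h : ∀ z, F z ≤ 1) (x : V) : avgR nb F x ≤ 1 := by
  unfold avgR
  have hd : (0 : ℝ) < d := by
    have := NeZero.ne d
    positivity
  rw [div_le_one hd]
  calc ∑ j, F (nb x j) ≤ ∑ _j : Fin d, (1 : ℝ) := Finset.sum_le_sum fun j _ => h _
    _ = d := by simp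

theorem b6_gfR_nonneg (μ : PMF ℕ) {s : ℝ} (hs : 0 ≤ s) : 0 ≤ gfR μ s :=
  tsum_nonneg fun n => mul_nonneg ENNReal.toReal_nonneg (pow_nonneg hs n)

theorem b6_gfR_one (μ : PMF ℕ) : gfR μ 1 = 1 := by
  have h := gf_ofReal μ (s := 1) zero_le_one le_rfl
  rw [ENNReal.ofReal_one, gf_one] at h
  have h' := congrArg ENNReal.toReal h
  rw [ENNReal.toReal_ofReal (b6_gfR_nonneg μ zero_le_one), ENNReal.toReal_one] at h'
  exact h'.symm

theorem b6_gfR_le_one (μ : PMF ℕ) {s : ℝ} (hs : 0 ≤ s) (hs1 : s ≤ 1) : gfR μ s ≤ 1 := by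
  rw [← b6_gfR_one μ]
  exact gfR_mono μ hs hs1 le_rfl

/-- the passage of two generations from the extended to the real setting -/
theorem b6_two_ofReal (μ : PMF ℕ) {ℓ : V → ℝ} (hℓ : ∀ z, 0 ≤ ℓ z) (y : V) :
    gf μ (avg nb (fun z => gf μ (avg nb (fun w => ENNReal.ofReal (Real.exp (-ℓ w))) z)) y) =
      ENNReal.ofReal
        (gfR μ (avgR nb (fun z => gfR μ (avgR nb (fun w => Real.exp (-ℓ w)) z)) y)) := by
  have h0 : ∀ z, 0 ≤ avgR nb (fun w => Real.exp (-ℓ w)) z :=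
    fun z => b6_avgR_nonneg (fun w => (Real.exp_pos _).le) z
  have h1 : ∀ z, avgR nb (fun w => Real.exp (-ℓ w)) z ≤ 1 :=
    fun z => b6_avgR_le_one (fun w => Real.exp_le_one_iff.2 (by linarith [hℓ w])) z
  have e1 : ∀ z, gf μ (avg nb (fun w => ENNReal.ofReal (Real.exp (-ℓ w))) z) =
      ENNReal.ofReal (gfR μ (avgR nb (fun w => Real.exp (-ℓ w)) z)) := by
    intro z
    rw [avg_ofReal (fun w => (Real.exp_pos _).le), gf_ofReal μ (h0 z) (h1 z)]
  simp_rw [e1]
  rw [avg_ofReal (fun z => b6_gfR_nonneg μ (h0 z)), gf_ofReal μ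
    (b6_avgR_nonneg (fun z => b6_gfR_nonneg μ (h0 z)) y)
    (b6_avgR_le_one (fun z => b6_gfR_le_one μ (h0 z) (h1 z)) y)]

/-- TASK B6.  Lemma B, exponential form. -/
theorem lemmaB_exp (S : Setting nb ρ μ) {θ₀ : ℝ} (hθ₀ : (ρ : ℝ) < θ₀) {η a : ℝ} (hη : 0 < η)
    (ha : 0 < a) :
    ∃ s : ℝ, 0 < s ∧ ∀ θ : ℝ, θ₀ ≤ θ → θ < 1 → ∀ f : V → ℝ, (∀ z, 0 ≤ f z) →
      (∀ z, avgR nb f z ≤ ρ / θ * f z) → ∀ (n : ℕ) (y : V),
      ENNReal.ofReal (Real.exp (-(η * f y / θ ^ n))) ≤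
        ∫⁻ c, ENNReal.ofReal (Real.exp (-(s * (cnt nb f a n true y c : ℝ)))) ∂(confLaw μ d) := by
  have hρ : (0 : ℝ) < ρ := by exact_mod_cast S.rpos
  have hd : (0 : ℝ) < d := by
    have := NeZero.ne d
    positivity
  have hθ₀' : 0 < θ₀ := hρ.trans hθ₀
  set κ : ℝ := 1 - (ρ / θ₀) ^ 2 with hκdef
  have hκ : 0 < κ := by
    have h1 : (ρ : ℝ) / θ₀ < 1 := (div_lt_one hθ₀').2 hθ₀
    have h2 : 0 ≤ (ρ : ℝ) / θ₀ := (div_pos hρ hθ₀').le
    have : ((ρ : ℝ) / θ₀) ^ 2 < 1 := by nlinarith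
    linarith
  have hκa : 0 < κ * (η * a) := by positivity
  have hH : 0 < hh (κ * (η * a)) := hh_pos hκa
  set s₁ : ℝ := Real.log (1 + hh (κ * (η * a)) / d) / d with hs₁def
  have hs₁ : 0 < s₁ := by
    refine div_pos (Real.log_pos ?_) hd
    have : 0 < hh (κ * (η * a)) / d := div_pos hH hd
    linarith
  refine ⟨min s₁ (η * a), lt_min hs₁ (by positivity), ?_⟩
  set s : ℝ := min s₁ (η * a) with hsdef
  have hs0 : 0 < s := lt_min hs₁ (by positivity)
  have hss₁ : s ≤ s₁ := min_le_left _ _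
  have hsa : s ≤ η * a := min_le_right _ _
  intro θ hθ hθ1 f hf0 hf n
  have hθp : 0 < θ := lt_of_lt_of_le hθ₀' hθ
  -- the root term
  have hroot : ∀ (n : ℕ) (y : V), ENNReal.ofReal (Real.exp (-(η * f y / θ ^ n))) ≤
      ENNReal.ofReal (Real.exp
        (-(s * (cnt nb f a 0 true y (fun _ => (0, fun _ => 0)) : ℝ)))) := by
    intro n y
    refine ENNReal.ofReal_le_ofReal (Real.exp_le_exp.2 (neg_le_neg ?_))
    have hθn : θ ^ n ≤ 1 := pow_le_one₀ hθp.le hθ1.le
    have hθn0 : 0 < θ ^ n := pow_pos hθp n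
    have h2 : η * f y ≤ η * f y / θ ^ n := by
      rw [le_div_iff₀ hθn0]
      nlinarith [mul_nonneg hη.le (hf0 y)]
    by_cases h : a ≤ f y
    · simp only [cnt, h, and_self, if_true, Nat.cast_one, mul_one]
      have : η * a ≤ η * f y := mul_le_mul_of_nonneg_left h hη.le
      linarith
    · simp only [cnt, h, and_false, if_false, Nat.cast_zero, mul_zero]
      exact le_trans (mul_nonneg hη.le (hf0 y)) h2
  have hfalse : ∀ y : V, ENNReal.ofReal (Real.exp
        (-(s * (cnt nb f a 0 false y (fun _ => (0, fun _ => 0)) : ℝ)))) = 1 := by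
    intro y
    simp [cnt]
  induction n using Nat.twoStepInduction with
  | zero =>
    intro y
    have h : ∀ c : Conf d, cnt nb f a 0 true y c =
        cnt nb f a 0 true y (fun _ => (0, fun _ => 0)) := fun c => rfl
    simp_rw [h]
    rw [lintegral_const, measure_univ, mul_one]
    exact hroot 0 y
  | one =>
    intro y
    rw [lintegral_cnt_succ]
    have h : ∀ z : V, ∫⁻ c, ENNReal.ofReal
        (Real.exp (-(s * (cnt nb f a 0 (!true) z c : ℝ)))) ∂(confLaw μ d) = 1 := by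
      intro z
      have h : ∀ c : Conf d, cnt nb f a 0 (!true) z c =
        cnt nb f a 0 false z (fun _ => (0, fun _ => 0)) := fun c => rfl
      simp_rw [h]
      rw [lintegral_const, measure_univ, mul_one]
      exact hfalse z
    simp_rw [h]
    rw [b6_avg_one, gf_one, mul_one]
    exact hroot 1 y
  | more n ih _ =>
    intro y
    rw [lintegral_cnt_succ]
    have h : ∀ z : V, gf μ (avg nb (fun w => ENNReal.ofReal (Real.exp (-(η * f w / θ ^ n)))) z) ≤
        ∫⁻ c, ENNReal.ofReal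
        (Real.exp (-(s * (cnt nb f a (n + 1) (!true) z c : ℝ)))) ∂(confLaw μ d) := by
      intro z
      rw [lintegral_cnt_succ]
      simp only [Bool.not_true, Bool.not_false]
      rw [hfalse z, one_mul]
      exact gf_mono μ (b6_avg_mono (fun w => ih w) z)
    refine le_trans ?_ (mul_le_mul_right (gf_mono μ (b6_avg_mono h y)) _)
    set ℓ : V → ℝ := fun w => η * f w / θ ^ n with hℓdef
    have hθn : θ ^ n ≤ 1 := pow_le_one₀ hθp.le hθ1.le
    have hθn0 : 0 < θ ^ n := pow_pos hθp n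
    have hℓ0 : ∀ z, 0 ≤ ℓ z := fun z => div_nonneg (mul_nonneg hη.le (hf0 z)) hθn0.le
    have hℓ : ∀ z, avgR nb ℓ z ≤ ρ / θ * ℓ z := by
      intro z
      have e : avgR nb ℓ z = η / θ ^ n * avgR nb f z := by
        simp only [avgR, hℓdef]
        rw [← mul_div_assoc, Finset.mul_sum]
        congr 1
        exact Finset.sum_congr rfl fun j _ => by ring
      rw [e]
      calc η / θ ^ n * avgR nb f z ≤ η / θ ^ n * (ρ / θ * f z) :=
            mul_le_mul_of_nonneg_left (hf z) (by positivity)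
        _ = ρ / θ * ℓ z := by simp only [hℓdef]; ring
    rw [b6_two_ofReal μ hℓ0 y, ← ENNReal.ofReal_mul (Real.exp_pos _).le]
    refine ENNReal.ofReal_le_ofReal ?_
    refine le_trans ?_ (mul_le_mul_of_nonneg_left
      (two_step S (lt_of_lt_of_le hθ₀ hθ) hθ1.le hℓ0 hℓ y) (Real.exp_pos _).le)
    rw [← Real.exp_add, ← Real.exp_add]
    refine Real.exp_le_exp.2 ?_
    have e1 : ℓ y / θ ^ 2 = η * f y / θ ^ (n + 2) := by
      simp only [hℓdef]
      rw [div_div, pow_add]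
    rw [e1]
    by_cases hc : a ≤ f y
    · have hc1 : cnt nb f a 0 true y (fun _ => (0, fun _ => 0)) = 1 := by simp [cnt, hc]
      rw [hc1, Nat.cast_one, mul_one]
      have k1 : κ ≤ 1 - (ρ / θ) ^ 2 := by
        have : (ρ : ℝ) / θ ≤ ρ / θ₀ := div_le_div_of_nonneg_left hρ.le hθ₀' hθ
        have h0 : 0 ≤ (ρ : ℝ) / θ := (div_pos hρ hθp).le
        have : ((ρ : ℝ) / θ) ^ 2 ≤ (ρ / θ₀) ^ 2 := pow_le_pow_left₀ h0 this 2
        linarith
      have k2 : η * a ≤ ℓ y := by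
        simp only [hℓdef]
        rw [le_div_iff₀ hθn0]
        have : η * a ≤ η * f y := mul_le_mul_of_nonneg_left hc hη.le
        nlinarith [mul_pos hη ha]
      have k3 : κ * (η * a) ≤ (1 - (ρ / θ) ^ 2) * ℓ y :=
        mul_le_mul k1 k2 (by positivity) (hκ.le.trans k1)
      have k4 : s₁ ≤ Real.log (1 + hh ((1 - (ρ / θ) ^ 2) * ℓ y) / d) / d := by
        have := hh_mono hκa.le k3
        have hpos : 0 < 1 + hh (κ * (η * a)) / d := by
          have : 0 < hh (κ * (η * a)) / d := div_pos hH hd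
          linarith
        rw [hs₁def]
        refine div_le_div_of_nonneg_right (Real.log_le_log hpos ?_) hd.le
        have := div_le_div_of_nonneg_right this hd.le
        linarith
      linarith
    · have hc1 : cnt nb f a 0 true y (fun _ => (0, fun _ => 0)) = 0 := by simp [cnt, hc]
      rw [hc1, Nat.cast_zero, mul_zero, neg_zero, zero_add]
      have : 0 ≤ Real.log (1 + hh ((1 - (ρ / θ) ^ 2) * ℓ y) / d) / d := by
        refine div_nonneg (Real.log_nonneg ?_) hd.le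
        have := div_nonneg (hh_nonneg ((1 - (ρ / θ) ^ 2) * ℓ y)) hd.le
        linarith
      linarith

/-- TASK B7.  Lemma B: tail of the count. -/
theorem lemmaB (S : Setting nb ρ μ) {θ₀ : ℝ} (hθ₀ : (ρ : ℝ) < θ₀) {δ a : ℝ} (hδ : 0 < δ)
    (ha : 0 < a) :
    ∃ K : ℕ, 0 < K ∧ ∀ θ : ℝ, θ₀ ≤ θ → θ < 1 → ∀ f : V → ℝ, (∀ z, 0 ≤ f z) →
      (∀ z, avgR nb f z ≤ ρ / θ * f z) → ∀ (n : ℕ) (y : V),
      confLaw μ d {c | K ≤ cnt nb f a n true y c} ≤ ENNReal.ofReal (δ * f y / θ ^ n) := by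
  obtain ⟨s, hs, H⟩ := lemmaB_exp S hθ₀ (η := δ / 2) (half_pos hδ) ha
  obtain ⟨K, hK0, hK⟩ : ∃ K : ℕ, 0 < K ∧ Real.exp (-(s * (K : ℝ))) ≤ 1 / 2 := by
    obtain ⟨K, hK⟩ := exists_nat_gt (Real.log 2 / s)
    refine ⟨K + 1, Nat.succ_pos _, ?_⟩
    have h1 : Real.log 2 ≤ s * ((K + 1 : ℕ) : ℝ) := by
      rw [div_lt_iff₀ hs] at hK
      push_cast
      nlinarith
    calc Real.exp (-(s * ((K + 1 : ℕ) : ℝ))) ≤ Real.exp (-Real.log 2) :=
          Real.exp_le_exp.2 (neg_le_neg h1)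
      _ = 1 / 2 := by
          rw [Real.exp_neg, Real.exp_log (by norm_num)]; norm_num
  refine ⟨K, hK0, fun θ hθ0 hθ1 f hf0 hf n y => ?_⟩
  have hH := H θ hθ0 hθ1 f hf0 hf n y
  have hθpos : 0 < θ := lt_of_le_of_lt (NNReal.coe_nonneg ρ) (lt_of_lt_of_le hθ₀ hθ0)
  set X : Conf d → ℝ := fun c => Real.exp (-(s * (cnt nb f a n true y c : ℝ))) with hX
  have hmeasX : Measurable X := by
    have hm : Measurable (fun c => ((cnt nb f a n true y c : ℕ) : ℝ)) :=
      measurable_from_nat.comp (measurable_cnt f a n true y)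
    exact Real.measurable_exp.comp ((hm.const_mul s).neg)
  have hX0 : ∀ c, 0 ≤ X c := fun c => (Real.exp_pos _).le
  have hX1 : ∀ c, X c ≤ 1 := fun c => by
    rw [hX]; simp only
    rw [Real.exp_le_one_iff]
    have : 0 ≤ s * (cnt nb f a n true y c : ℝ) := by positivity
    linarith
  have hsum : (∫⁻ c, ENNReal.ofReal (X c) ∂(confLaw μ d)) +
      ∫⁻ c, ENNReal.ofReal (1 - X c) ∂(confLaw μ d) = 1 := by
    rw [← lintegral_add_left (hmeasX.ennreal_ofReal)]
    have : ∀ c, ENNReal.ofReal (X c) + ENNReal.ofReal (1 - X c) = 1 := fun c => by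
      rw [← ENNReal.ofReal_add (hX0 c) (by linarith [hX1 c])]
      simp
    simp [this]
  set t : ℝ := δ / 2 * f y / θ ^ n with ht
  have ht0 : 0 ≤ t := by
    have := hf0 y
    positivity
  have hE : ENNReal.ofReal (1 - t) ≤ ∫⁻ c, ENNReal.ofReal (X c) ∂(confLaw μ d) := by
    refine le_trans (ENNReal.ofReal_le_ofReal ?_) hH
    have := Real.add_one_le_exp (-t)
    linarith
  have hI : ∫⁻ c, ENNReal.ofReal (1 - X c) ∂(confLaw μ d) ≤ ENNReal.ofReal t := by
    rcases le_total t 1 with h1 | h1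
    · have hfin : ∫⁻ c, ENNReal.ofReal (X c) ∂(confLaw μ d) ≠ ⊤ := by
        intro h
        rw [h] at hsum
        simp at hsum
      have h2 : ENNReal.ofReal (1 - t) + ∫⁻ c, ENNReal.ofReal (1 - X c) ∂(confLaw μ d) ≤
          ENNReal.ofReal (1 - t) + ENNReal.ofReal t := by
        rw [← ENNReal.ofReal_add (by linarith) ht0]
        simp only [sub_add_cancel, ENNReal.ofReal_one]
        rw [← hsum]
        gcongr
      exact (ENNReal.add_le_add_iff_left ENNReal.ofReal_ne_top).1 h2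
    · calc ∫⁻ c, ENNReal.ofReal (1 - X c) ∂(confLaw μ d) ≤ 1 := by
            rw [← hsum]; exact le_add_self
        _ ≤ ENNReal.ofReal t := by
            rw [← ENNReal.ofReal_one]; exact ENNReal.ofReal_le_ofReal h1
  have hM : ENNReal.ofReal (1 / 2) * confLaw μ d {c | K ≤ cnt nb f a n true y c} ≤
      ∫⁻ c, ENNReal.ofReal (1 - X c) ∂(confLaw μ d) := by
    refine le_trans ?_ (mul_meas_ge_le_lintegral
      ((measurable_const.sub hmeasX).ennreal_ofReal) (ENNReal.ofReal (1 / 2)))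
    gcongr
    rename_i c
    intro hc
    refine ENNReal.ofReal_le_ofReal ?_
    have hc' : (K : ℝ) ≤ (cnt nb f a n true y c : ℝ) := by exact_mod_cast hc
    have : X c ≤ 1 / 2 := by
      refine le_trans (Real.exp_le_exp.2 ?_) hK
      have := mul_le_mul_of_nonneg_left hc' hs.le
      linarith
    change 1 / 2 ≤ 1 - X c
    linarith
  calc confLaw μ d {c | K ≤ cnt nb f a n true y c}
      = ENNReal.ofReal 2 * (ENNReal.ofReal (1 / 2) *
          confLaw μ d {c | K ≤ cnt nb f a n true y c}) := by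
        rw [← mul_assoc, ← ENNReal.ofReal_mul (by norm_num)]
        norm_num
    _ ≤ ENNReal.ofReal 2 * ENNReal.ofReal t := by gcongr; exact hM.trans hI
    _ = ENNReal.ofReal (δ * f y / θ ^ n) := by
        rw [← ENNReal.ofReal_mul (by norm_num)]
        congr 1
        rw [ht]; ring

/-- TASK B8.  Lemma B for functions with values in `[0,∞]`, finite everywhere. -/
theorem lemmaB_SH (S : Setting nb ρ μ) {θ₀ : ℝ≥0} (hθ₀ : ρ < θ₀) {δ a : ℝ≥0} (hδ : 0 < δ)
    (ha : 0 < a) :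
    ∃ K : ℕ, 0 < K ∧ ∀ θ : ℝ≥0, θ₀ ≤ θ → θ < 1 → ∀ F : V → ℝ≥0∞, (∀ z, F z ≠ ⊤) →
      SH nb ρ θ F → ∀ (n : ℕ) (y : V),
      confLaw μ d {c | K ≤ cnt nb (fun z => (F z).toReal) a n true y c} ≤
        δ * F y / (θ : ℝ≥0∞) ^ n := by
  obtain ⟨K, hK0, HK⟩ := lemmaB S (θ₀ := (θ₀ : ℝ)) (by exact_mod_cast hθ₀)
    (δ := (δ : ℝ)) (a := (a : ℝ)) (by exact_mod_cast hδ) (by exact_mod_cast ha)
  refine ⟨K, hK0, fun θ hθ0 hθ1 F hF hSH n y => ?_⟩
  have hθpos : 0 < θ := lt_of_le_of_lt bot_le (lt_of_lt_of_le hθ₀ hθ0)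
  have hd : (0 : ℝ) < d := by exact_mod_cast Nat.pos_of_ne_zero (NeZero.ne d)
  have h := HK (θ : ℝ) (by exact_mod_cast hθ0) (by exact_mod_cast hθ1)
    (fun z => (F z).toReal) (fun z => ENNReal.toReal_nonneg) (fun z => ?_) n y
  · refine h.trans (le_of_eq ?_)
    rw [ENNReal.ofReal_div_of_pos (by positivity), ENNReal.ofReal_mul (by positivity),
      ENNReal.ofReal_toReal (hF y), ENNReal.ofReal_coe_nnreal, ENNReal.ofReal_pow (by positivity),
      ENNReal.ofReal_coe_nnreal]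
  · have hz := hSH z
    have h1 : (((θ / ρ : ℝ≥0) : ℝ≥0∞) * avg nb F z).toReal ≤ (F z).toReal :=
      ENNReal.toReal_mono (hF z) hz
    rw [ENNReal.toReal_mul, ENNReal.coe_toReal] at h1
    have h2 : (avg nb F z).toReal = avgR nb (fun z => (F z).toReal) z := by
      unfold avg avgR
      rw [ENNReal.toReal_div, ENNReal.toReal_sum (fun j _ => hF _)]
      simp
    rw [h2] at h1
    have hρ : (0 : ℝ) < ρ := by exact_mod_cast S.rpos
    have hθ' : (0 : ℝ) < θ := by exact_mod_cast hθpos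
    push_cast at h1
    calc avgR nb (fun z => (F z).toReal) z
        = (ρ : ℝ) / θ * ((θ : ℝ) / ρ * avgR nb (fun z => (F z).toReal) z) := by
          field_simp
      _ ≤ (ρ : ℝ) / θ * (F z).toReal := by gcongr

end MP_9b4c76_pr
end

section

/-! Two independent branching random walks meet finitely often. -/

namespace MP_9b4c76_pr

open MeasureTheory ProbabilityTheory Filter Topology
open scoped ENNReal NNReal

variable {V : Type*} {d : ℕ} [NeZero d] {nb : V → Fin d → V} {ρ : ℝ≥0} {μ : PMF ℕ}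

/-- sites visited by both walks, by the second one in an even generation -/
def meetEven (nb : V → Fin d → V) (x y : V) (c c' : Conf d) : Set V :=
  {z | (∃ u, Alive c u ∧ pos nb x c u = z) ∧
    ∃ v, Alive c' v ∧ Even v.length ∧ pos nb y c' v = z}

/-- meeting in the block `[k,l)` -/
def Mt (nb : V → Fin d → V) (k l : ℕ) (x y : V) (c c' : Conf d) : Prop :=
  ∃ u v : List ℕ, Alive c u ∧ Alive c' v ∧ k ≤ u.length ∧ u.length < l ∧ k ≤ v.length ∧
    v.length < l ∧ Even v.length ∧ pos nb x c u = pos nb y c' v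

/-- meeting in the block `[k,l)` at a good particle of the first walk -/
def GM (nb : V → Fin d → V) (ρ θ : ℝ≥0) (t : ℝ≥0∞) (k l : ℕ) (x y : V) (c c' : Conf d) : Prop :=
  ∃ u v : List ℕ, Alive c u ∧ Alive c' v ∧ k ≤ u.length ∧ u.length < l ∧ k ≤ v.length ∧
    v.length < l ∧ Even v.length ∧ pos nb x c u = pos nb y c' v ∧
    t ≤ D nb ρ θ (pos nb x c u) (pos nb x c u) (subL u c)

theorem meet_exists {x y : V} {c c' : Conf d} (h : (meetEven nb x y c c').Infinite) (k : ℕ) :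
    ∃ l, Mt nb k l x y c c' := by
  have h1 : ((pos nb x c) '' {u : List ℕ | u.length ≤ k ∧ Alive c u}).Finite :=
    (finite_alive_le c k).image _
  have h2 : ((pos nb y c') '' {u : List ℕ | u.length ≤ k ∧ Alive c' u}).Finite :=
    (finite_alive_le c' k).image _
  obtain ⟨z, hz, hz'⟩ := h.exists_notMem_finite (h1.union h2)
  obtain ⟨⟨u, hu, huz⟩, v, hv, hve, hvz⟩ := hz
  have hu' : k < u.length := by
    by_contra hcon
    push Not at hcon
    exact hz' (Or.inl ⟨u, ⟨hcon, hu⟩, huz⟩)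
  have hv' : k < v.length := by
    by_contra hcon
    push Not at hcon
    exact hz' (Or.inr ⟨v, ⟨hcon, hv⟩, hvz⟩)
  refine ⟨max u.length v.length + 1, u, v, hu, hv, hu'.le, ?_, hv'.le, ?_, hve, huz.trans hvz.symm⟩
  · exact Nat.lt_succ_of_le (le_max_left _ _)
  · exact Nat.lt_succ_of_le (le_max_right _ _)

theorem Mt_mono {k l l' : ℕ} (h : l ≤ l') {x y : V} {c c' : Conf d}
    (hM : Mt nb k l x y c c') :
    Mt nb k l' x y c c' := by
  obtain ⟨u, v, hu, hv, h1, h2, h3, h4, h5⟩ := hM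
  exact ⟨u, v, hu, hv, h1, h2.trans_le h, h3, h4.trans_le h, h5⟩

omit [NeZero d] in
theorem m2_alive (u : List ℕ) : MeasurableSet {c : Conf d | Alive c u} := by
  induction u with
  | nil =>
    have h : {c : Conf d | Alive c []} = Set.univ := by
      ext c
      simp [Alive]
    rw [h]
    exact MeasurableSet.univ
  | cons i u ih =>
    have h : {c : Conf d | Alive c (i :: u)} =
        {c | Alive c u} ∩ (fun c : Conf d => (c u).1) ⁻¹' Set.Ioi i := by
      ext c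
      simp [Alive]
    rw [h]
    exact ih.inter ((measurable_fst.comp (measurable_pi_apply u)) measurableSet_Ioi)

omit [NeZero d] in
theorem m2_pos (x : V) (u : List ℕ) (A : Set V) :
    MeasurableSet {c : Conf d | pos nb x c u ∈ A} := by
  induction u generalizing A with
  | nil =>
    simp only [pos]
    exact MeasurableSet.const _
  | cons i u ih =>
    have h : {c : Conf d | pos nb x c (i :: u) ∈ A} =
        ⋃ j : Fin d, ({c | pos nb x c u ∈ {z | nb z j ∈ A}} ∩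
          (fun c : Conf d => (c u).2 i) ⁻¹' {j}) := by
      ext c
      simp only [pos, Set.mem_setOf_eq, Set.mem_iUnion, Set.mem_inter_iff, Set.mem_preimage,
        Set.mem_singleton_iff]
      constructor
      · intro h
        exact ⟨_, h, rfl⟩
      · rintro ⟨j, h, rfl⟩
        exact h
    rw [h]
    refine MeasurableSet.iUnion fun j => (ih _).inter ?_
    exact ((measurable_pi_apply i).comp (measurable_snd.comp (measurable_pi_apply u)))
      (measurableSet_singleton j)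

omit [NeZero d] in
theorem m2_range (x : V) (u : List ℕ) : (Set.range fun c : Conf d => pos nb x c u).Finite := by
  induction u with
  | nil =>
    refine (Set.finite_singleton x).subset ?_
    rintro _ ⟨c, rfl⟩
    simp [pos]
  | cons i u ih =>
    refine (ih.prod (Set.finite_univ : (Set.univ : Set (Fin d)).Finite)
      |>.image (fun p : V × Fin d => nb p.1 p.2)).subset ?_
    rintro _ ⟨c, rfl⟩
    exact ⟨(pos nb x c u, (c u).2 i), ⟨⟨c, rfl⟩, Set.mem_univ _⟩, rfl⟩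

omit [NeZero d] in
theorem m2_eq (x y : V) (u v : List ℕ) (E : V → Set (Conf d × Conf d))
    (hE : ∀ z, MeasurableSet (E z)) :
    MeasurableSet {p : Conf d × Conf d | pos nb x p.1 u = pos nb y p.2 v ∧
      p ∈ E (pos nb x p.1 u)} := by
  have h : {p : Conf d × Conf d | pos nb x p.1 u = pos nb y p.2 v ∧ p ∈ E (pos nb x p.1 u)} =
      ⋃ z ∈ (Set.range fun c : Conf d => pos nb x c u),
        ((Prod.fst ⁻¹' {c : Conf d | pos nb x c u ∈ ({z} : Set V)}) ∩
          (Prod.snd ⁻¹' {c : Conf d | pos nb y c v ∈ ({z} : Set V)}) ∩ E z) := by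
    ext p
    simp only [Set.mem_setOf_eq, Set.mem_iUnion, Set.mem_inter_iff, Set.mem_preimage,
      Set.mem_singleton_iff, exists_prop]
    constructor
    · rintro ⟨h1, h2⟩
      exact ⟨pos nb x p.1 u, ⟨p.1, rfl⟩, ⟨rfl, h1.symm⟩, h2⟩
    · rintro ⟨z, -, ⟨h1, h2⟩, h3⟩
      exact ⟨h1.trans h2.symm, by rw [h1]; exact h3⟩
  rw [h]
  exact (m2_range x u).measurableSet_biUnion fun z _ =>
    ((measurable_fst (m2_pos x u {z})).inter (measurable_snd (m2_pos y v {z}))).inter (hE z)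

omit [NeZero d] in
theorem m2_main (k l : ℕ) (x y : V) (E : List ℕ → V → Set (Conf d × Conf d))
    (hE : ∀ u z, MeasurableSet (E u z)) :
    MeasurableSet {p : Conf d × Conf d | ∃ u v : List ℕ, Alive p.1 u ∧ Alive p.2 v ∧
      k ≤ u.length ∧ u.length < l ∧ k ≤ v.length ∧ v.length < l ∧ Even v.length ∧
      pos nb x p.1 u = pos nb y p.2 v ∧ p ∈ E u (pos nb x p.1 u)} := by
  have h : {p : Conf d × Conf d | ∃ u v : List ℕ, Alive p.1 u ∧ Alive p.2 v ∧
      k ≤ u.length ∧ u.length < l ∧ k ≤ v.length ∧ v.length < l ∧ Even v.length ∧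
      pos nb x p.1 u = pos nb y p.2 v ∧ p ∈ E u (pos nb x p.1 u)} =
      ⋃ u : List ℕ, ⋃ v : List ℕ, ((Prod.fst ⁻¹' {c : Conf d | Alive c u}) ∩
        (Prod.snd ⁻¹' {c : Conf d | Alive c v}) ∩
        {_p | k ≤ u.length ∧ u.length < l ∧ k ≤ v.length ∧ v.length < l ∧ Even v.length} ∩
        {p | pos nb x p.1 u = pos nb y p.2 v ∧ p ∈ E u (pos nb x p.1 u)}) := by
    ext p
    simp only [Set.mem_setOf_eq, Set.mem_iUnion, Set.mem_inter_iff, Set.mem_preimage]
    constructor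
    · rintro ⟨u, v, h1, h2, h3, h4, h5, h6, h7, h8, h9⟩
      exact ⟨u, v, ⟨⟨⟨h1, h2⟩, h3, h4, h5, h6, h7⟩, h8, h9⟩⟩
    · rintro ⟨u, v, ⟨⟨⟨h1, h2⟩, h3, h4, h5, h6, h7⟩, h8, h9⟩⟩
      exact ⟨u, v, h1, h2, h3, h4, h5, h6, h7, h8, h9⟩
  rw [h]
  refine MeasurableSet.iUnion fun u => MeasurableSet.iUnion fun v => ?_
  exact (((measurable_fst (m2_alive u)).inter (measurable_snd (m2_alive v))).inter
    (MeasurableSet.const _)).inter (m2_eq x y u v (E u) (hE u))

/-- TASK M2. -/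
theorem measurableSet_Mt (k l : ℕ) (x y : V) :
    MeasurableSet {p : Conf d × Conf d | Mt nb k l x y p.1 p.2} := by
  have h := m2_main (nb := nb) k l x y (fun _ _ => (Set.univ : Set (Conf d × Conf d)))
    fun _ _ => MeasurableSet.univ
  simp only [Set.mem_univ, and_true] at h
  exact h

/-- TASK M2. -/
theorem measurableSet_GM (ρ θ : ℝ≥0) (t : ℝ≥0∞) (k l : ℕ) (x y : V) :
    MeasurableSet {p : Conf d × Conf d | GM nb ρ θ t k l x y p.1 p.2} := by
  have h := m2_main (nb := nb) k l x y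
    (fun u z => {p : Conf d × Conf d | t ≤ D nb ρ θ z z (subL u p.1)}) fun u z => by
      exact measurableSet_le measurable_const
        ((measurable_D ρ θ z z).comp ((measurable_subL u).comp measurable_fst))
  exact h

/-- TASK M3 (from `hit_good`, Fubini). -/
theorem good_meet (μ : PMF ℕ) (θ : ℝ≥0) {ε t : ℝ≥0∞} (hε : ε ≤ 1)
    (hbad : ∀ z, confLaw μ d {c | D nb ρ θ z z c < t} ≤ ε) (k l : ℕ) (x y : V) :
    (1 - ε) * ((confLaw μ d).prod (confLaw μ d)) {p | Mt nb k l x y p.1 p.2} ≤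
      ((confLaw μ d).prod (confLaw μ d)) {p | GM nb ρ θ t k l x y p.1 p.2} := by
  rw [Measure.prod_apply_symm (measurableSet_Mt k l x y),
    Measure.prod_apply_symm (measurableSet_GM ρ θ t k l x y)]
  rw [← lintegral_const_mul' _ _ (ne_top_of_le_ne_top ENNReal.one_ne_top tsub_le_self)]
  apply lintegral_mono
  intro c'
  simp only [Set.preimage_setOf_eq]
  let A : ℕ → V → Prop := fun j z => k ≤ j ∧ j < l ∧ ∃ v : List ℕ, Alive c' v ∧ k ≤ v.length ∧
    v.length < l ∧ Even v.length ∧ z = pos nb y c' v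
  let Gd : V → Set (Conf d) := fun z => {c | t ≤ D nb ρ θ z z c}
  have hGd : ∀ z, MeasurableSet (Gd z) := fun z =>
    measurableSet_le measurable_const (measurable_D ρ θ z z)
  have hb : ∀ z, confLaw μ d (Gd z)ᶜ ≤ ε := by
    intro z
    have : (Gd z)ᶜ = {c | D nb ρ θ z z c < t} := by
      ext c; simp [Gd]
    rw [this]; exact hbad z
  have h1 := hit_good (nb := nb) μ hε Gd hGd hb l A x
  have e1 : {c | Mt nb k l x y c c'} = {c | Ex nb (fun k z _ => A k z) l x c} := by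
    ext c
    simp only [Set.mem_setOf_eq, Mt, Ex, A]
    constructor
    · rintro ⟨u, v, hu, hv, h1, h2, h3, h4, h5, h6⟩
      exact ⟨u, h2.le, hu, h1, h2, v, hv, h3, h4, h5, h6⟩
    · rintro ⟨u, _, hu, h1, h2, v, hv, h3, h4, h5, h6⟩
      exact ⟨u, v, hu, hv, h1, h2, h3, h4, h5, h6⟩
  have e2 : {c | GM nb ρ θ t k l x y c c'} =
      {c | Ex nb (fun k z c => A k z ∧ c ∈ Gd z) l x c} := by
    ext c
    simp only [Set.mem_setOf_eq, GM, Ex, A, Gd]
    constructor
    · rintro ⟨u, v, hu, hv, h1, h2, h3, h4, h5, h6, h7⟩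
      exact ⟨u, h2.le, hu, ⟨h1, h2, v, hv, h3, h4, h5, h6⟩, h7⟩
    · rintro ⟨u, _, hu, ⟨h1, h2, v, hv, h3, h4, h5, h6⟩, h7⟩
      exact ⟨u, v, hu, hv, h1, h2, h3, h4, h5, h6, h7⟩
  rw [e1, e2]
  have m1 : MeasurableSet {c | Ex nb (fun k z _ => A k z) l x c} := by
    apply measurableSet_ex
    intro j z
    by_cases h : A j z
    · simp [h]
    · simp [h]
  have m2 : MeasurableSet {c | Ex nb (fun k z c => A k z ∧ c ∈ Gd z) l x c} := by
    apply measurableSet_ex
    intro j z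
    by_cases h : A j z
    · simp only [h, true_and]; exact hGd z
    · simp [h]
  have c1 : {c | ¬ Ex nb (fun k z _ => A k z) l x c} =
      {c | Ex nb (fun k z _ => A k z) l x c}ᶜ := rfl
  have c2 : {c | ¬ Ex nb (fun k z c => A k z ∧ c ∈ Gd z) l x c} =
      {c | Ex nb (fun k z c => A k z ∧ c ∈ Gd z) l x c}ᶜ := rfl
  rw [c1, c2, prob_compl_eq_one_sub m1, prob_compl_eq_one_sub m2] at h1
  set P1 := confLaw μ d {c | Ex nb (fun k z _ => A k z) l x c} with hP1
  set P2 := confLaw μ d {c | Ex nb (fun k z c => A k z ∧ c ∈ Gd z) l x c} with hP2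
  have hP1' : P1 ≤ 1 := prob_le_one
  have hP2' : P2 ≤ 1 := prob_le_one
  have hsum : (1 - ε) * P1 + (1 - P2) ≤ 1 := by
    calc (1 - ε) * P1 + (1 - P2) ≤ (1 - ε) * P1 + (ε + (1 - ε) * (1 - P1)) := by gcongr
      _ = ε + (1 - ε) * (P1 + (1 - P1)) := by ring
      _ = 1 := by
        rw [add_tsub_cancel_of_le hP1', mul_one, add_tsub_cancel_of_le hε]
  have hne : (1 - P2) ≠ ⊤ := ne_top_of_le_ne_top ENNReal.one_ne_top tsub_le_self
  have h2 : (1 - ε) * P1 ≤ 1 - (1 - P2) := ENNReal.le_sub_of_add_le_right hne hsum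
  rwa [ENNReal.sub_sub_cancel ENNReal.one_ne_top hP2'] at h2

open Classical in
theorem good_blocks_le_cnt {θ : ℝ≥0} (hθ1 : θ ≤ 1) {t : ℝ≥0∞} (n J : ℕ) (κ : ℕ → ℕ)
    (hκ : StrictMono κ) (hκn : κ J ≤ n) (x y : V) (c c' : Conf d) {a : ℝ≥0} (ha : 0 < a)
    (hfin : ∀ z, D nb ρ θ x z c ≠ ⊤) {b : ℝ≥0} (hb : b * a ≤ (θ : ℝ≥0∞) ^ n * t)
    (s : Finset ℕ) (hs : ∀ j ∈ s, j < J ∧ GM nb ρ θ t (κ j) (κ (j + 1)) x y c c') :
    s.card ≤ cnt nb (fun z => (((a⁻¹ : ℝ≥0) : ℝ≥0∞) * D nb ρ θ x z c).toReal) b n true y c' := by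
  have hs' : ∀ j ∈ s, ∃ m, κ j ≤ m ∧ m < κ (j + 1) ∧ m ≤ n ∧ Even m ∧
      ∃ v : List ℕ, v.length = m ∧ Alive c' v ∧
        (b : ℝ) ≤ (((a⁻¹ : ℝ≥0) : ℝ≥0∞) * D nb ρ θ x (pos nb y c' v) c).toReal := by
    intro j hj
    obtain ⟨hjJ, u, v, hu, hv, h1, h2, h3, h4, h5, h6, h7⟩ := hs j hj
    have hle : κ (j + 1) ≤ n := (hκ.monotone (Nat.succ_le_of_lt hjJ)).trans hκn
    refine ⟨v.length, h3, h4, (h4.trans_le hle).le, h5, v, rfl, hv, ?_⟩
    rw [← h6]
    have hD : (b : ℝ≥0∞) * a ≤ D nb ρ θ x (pos nb x c u) c := by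
      calc (b : ℝ≥0∞) * a ≤ (θ : ℝ≥0∞) ^ n * t := hb
        _ ≤ (θ : ℝ≥0∞) ^ u.length * D nb ρ θ (pos nb x c u) (pos nb x c u) (subL u c) := by
          apply mul_le_mul' _ h7
          exact pow_le_pow_right_of_le_one' (by exact_mod_cast hθ1) ((h2.trans_le hle).le)
        _ ≤ _ := D_subL ρ θ x _ c u hu
    have h8 : (b : ℝ≥0∞) ≤ ((a⁻¹ : ℝ≥0) : ℝ≥0∞) * D nb ρ θ x (pos nb x c u) c := by
      calc (b : ℝ≥0∞) = ((a⁻¹ : ℝ≥0) : ℝ≥0∞) * (b * a) := by
            norm_cast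
            field_simp
        _ ≤ _ := by gcongr
    have h9 := ENNReal.toReal_mono (ENNReal.mul_ne_top ENNReal.coe_ne_top (hfin _)) h8
    simpa using h9
  choose! m hm1 hm2 hm3 hm4 hm5 using hs'
  have hinj : Set.InjOn m s := by
    intro i hi j hj hij
    by_contra hne
    rcases lt_or_gt_of_ne hne with h | h
    · have h1 : m i < κ (i + 1) := hm2 i hi
      have h2 : κ (i + 1) ≤ κ j := hκ.monotone h
      have h3 : κ j ≤ m j := hm1 j hj
      omega
    · have h1 : m j < κ (j + 1) := hm2 j hj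
      have h2 : κ (j + 1) ≤ κ i := hκ.monotone h
      have h3 : κ i ≤ m i := hm1 i hi
      omega
  rw [← Finset.card_image_of_injOn hinj]
  apply le_cnt
  intro k hk
  obtain ⟨j, hj, rfl⟩ := Finset.mem_image.mp hk
  exact ⟨hm3 j hj, hm4 j hj, hm5 j hj⟩

omit [NeZero d] in
theorem m5_avg_const_mul (k : ℝ≥0∞) (F : V → ℝ≥0∞) (x : V) :
    avg nb (fun z => k * F z) x = k * avg nb F x := by
  unfold avg
  rw [← Finset.mul_sum, mul_div_assoc]

omit [NeZero d] in
theorem m5_SH_const_mul {θ : ℝ≥0} {F : V → ℝ≥0∞} (hF : SH nb ρ θ F) (k : ℝ≥0∞) :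
    SH nb ρ θ (fun z => k * F z) := by
  intro z
  rw [m5_avg_const_mul, mul_left_comm]
  exact mul_le_mul_right (hF z) k

open Classical in
theorem m5_fixed (_S : Setting nb ρ μ) {θ : ℝ≥0} (hθ : θ < 1) {a b : ℝ≥0}
    (ha : 0 < a) {t : ℝ≥0∞} (n J K : ℕ) (κ : ℕ → ℕ) (hκ : StrictMono κ) (hκn : κ J ≤ n)
    (x y : V) (hb : b * a ≤ (θ : ℝ≥0∞) ^ n * t) (c : Conf d)
    (hfin : ∀ z, D nb ρ θ x z c ≠ ⊤) :
    ∑ j ∈ Finset.range J, confLaw μ d {c' | GM nb ρ θ t (κ j) (κ (j + 1)) x y c c'} ≤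
      K + J * confLaw μ d {c' | K ≤ cnt nb
        (fun z => (((a⁻¹ : ℝ≥0) : ℝ≥0∞) * D nb ρ θ x z c).toReal) b n true y c'} := by
  set f : V → ℝ := fun z => (((a⁻¹ : ℝ≥0) : ℝ≥0∞) * D nb ρ θ x z c).toReal with hf
  have mE : ∀ j, MeasurableSet {c' | GM nb ρ θ t (κ j) (κ (j + 1)) x y c c'} := fun j =>
    measurable_prodMk_left (measurableSet_GM ρ θ t (κ j) (κ (j + 1)) x y)
  have mC : MeasurableSet {c' | K ≤ cnt nb f b n true y c'} :=
    measurable_cnt f b n true y (measurableSet_Ici (a := K))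
  have e1 : ∀ j, confLaw μ d {c' | GM nb ρ θ t (κ j) (κ (j + 1)) x y c c'} =
      ∫⁻ c', Set.indicator {c' | GM nb ρ θ t (κ j) (κ (j + 1)) x y c c'} 1 c' ∂(confLaw μ d) :=
    fun j => (lintegral_indicator_one (mE j)).symm
  have e2 : confLaw μ d {c' | K ≤ cnt nb f b n true y c'} =
      ∫⁻ c', Set.indicator {c' | K ≤ cnt nb f b n true y c'} 1 c' ∂(confLaw μ d) :=
    (lintegral_indicator_one mC).symm
  simp only [e1, e2]
  rw [← lintegral_finsetSum _ (fun j _ => (measurable_one.indicator (mE j)))]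
  rw [← lintegral_const_mul _ (measurable_one.indicator mC)]
  have e3 : (K : ℝ≥0∞) = ∫⁻ _ : Conf d, (K : ℝ≥0∞) ∂(confLaw μ d) := by simp
  conv_rhs => rw [e3]
  rw [← lintegral_add_left measurable_const]
  apply lintegral_mono
  intro c'
  show ∑ j ∈ Finset.range J,
      Set.indicator {c' | GM nb ρ θ t (κ j) (κ (j + 1)) x y c c'} 1 c' ≤
    (K : ℝ≥0∞) + J * Set.indicator {c' | K ≤ cnt nb f b n true y c'} 1 c'
  have e4 : ∑ j ∈ Finset.range J,
      Set.indicator {c' | GM nb ρ θ t (κ j) (κ (j + 1)) x y c c'} (1 : Conf d → ℝ≥0∞) c' =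
      (((Finset.range J).filter (fun j => GM nb ρ θ t (κ j) (κ (j + 1)) x y c c')).card : ℝ≥0∞) := by
    rw [Finset.card_filter]
    push_cast
    apply Finset.sum_congr rfl
    intro j _
    by_cases h : GM nb ρ θ t (κ j) (κ (j + 1)) x y c c'
    · rw [if_pos h, Set.indicator_of_mem (by exact h)]; rfl
    · rw [if_neg h, Set.indicator_of_notMem (by exact h)]
  rw [e4]
  have hcard := good_blocks_le_cnt (nb := nb) (ρ := ρ) (θ := θ) hθ.le (t := t) n J κ hκ hκn x y c c'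
    ha hfin hb ((Finset.range J).filter (fun j => GM nb ρ θ t (κ j) (κ (j + 1)) x y c c'))
    (fun j hj => by simpa using hj)
  by_cases h : K ≤ cnt nb f b n true y c'
  · rw [Set.indicator_of_mem (by exact h)]
    simp only [Pi.one_apply, mul_one]
    calc (((Finset.range J).filter
          (fun j => GM nb ρ θ t (κ j) (κ (j + 1)) x y c c')).card : ℝ≥0∞)
        ≤ (J : ℝ≥0∞) := by
          exact_mod_cast (Finset.card_filter_le _ _).trans (by simp)
      _ ≤ K + J := le_add_self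
  · rw [Set.indicator_of_notMem (by exact h)]
    simp only [mul_zero, add_zero]
    push Not at h
    exact_mod_cast hcard.trans h.le

/-- TASK M5.  Sum over the blocks of the probabilities of a good meeting. -/
theorem sum_good_le (S : Setting nb ρ μ) {θ : ℝ≥0} (hθ0 : 0 < θ) (hθ : θ < 1) {a b : ℝ≥0}
    (ha : 0 < a) {t R ε δ : ℝ≥0∞} (n J K : ℕ) (κ : ℕ → ℕ) (hκ : StrictMono κ) (hκn : κ J ≤ n)
    (x y : V) (hb : b * a ≤ (θ : ℝ≥0∞) ^ n * t)
    (hK : ∀ F : V → ℝ≥0∞, (∀ z, F z ≠ ⊤) → SH nb ρ θ F →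
      confLaw μ d {c | K ≤ cnt nb (fun z => (F z).toReal) b n true y c} ≤ δ * F y)
    (hR : confLaw μ d {c | R * a < D nb ρ θ x y c} ≤ ε) :
    ∑ j ∈ Finset.range J, ((confLaw μ d).prod (confLaw μ d))
      {p | GM nb ρ θ t (κ j) (κ (j + 1)) x y p.1 p.2} ≤ K + J * (ε + δ * R) := by
  have mG : ∀ j, MeasurableSet {p : Conf d × Conf d | GM nb ρ θ t (κ j) (κ (j + 1)) x y p.1 p.2} :=
    fun j => measurableSet_GM ρ θ t (κ j) (κ (j + 1)) x y
  have mB : MeasurableSet {c : Conf d | R * a < D nb ρ θ x y c} :=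
    measurableSet_lt measurable_const (measurable_D ρ θ x y)
  have e1 : ∀ j, ((confLaw μ d).prod (confLaw μ d))
      {p | GM nb ρ θ t (κ j) (κ (j + 1)) x y p.1 p.2} =
      ∫⁻ c, confLaw μ d {c' | GM nb ρ θ t (κ j) (κ (j + 1)) x y c c'} ∂(confLaw μ d) := by
    intro j
    rw [Measure.prod_apply (mG j)]
    rfl
  simp only [e1]
  have mM : ∀ j, Measurable (fun c : Conf d =>
      confLaw μ d {c' | GM nb ρ θ t (κ j) (κ (j + 1)) x y c c'}) := fun j =>
    measurable_measure_prodMk_left (mG j)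
  rw [← lintegral_finsetSum _ (fun j _ => mM j)]
  calc ∫⁻ c, ∑ j ∈ Finset.range J,
        confLaw μ d {c' | GM nb ρ θ t (κ j) (κ (j + 1)) x y c c'} ∂(confLaw μ d)
      ≤ ∫⁻ c, ((K : ℝ≥0∞) + J * (δ * R)) +
          J * Set.indicator {c : Conf d | R * a < D nb ρ θ x y c} 1 c ∂(confLaw μ d) := by
        apply lintegral_mono_ae
        filter_upwards [ae_D_lt_top S hθ0 hθ x] with c hc
        by_cases h : R * a < D nb ρ θ x y c
        · rw [Set.indicator_of_mem (by exact h)]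
          simp only [Pi.one_apply, mul_one]
          calc ∑ j ∈ Finset.range J,
                confLaw μ d {c' | GM nb ρ θ t (κ j) (κ (j + 1)) x y c c'}
              ≤ ∑ j ∈ Finset.range J, 1 := Finset.sum_le_sum fun j _ => prob_le_one
            _ = (J : ℝ≥0∞) := by simp
            _ ≤ _ := le_add_self
        · rw [Set.indicator_of_notMem (by exact h)]
          simp only [mul_zero, add_zero]
          have hfin : ∀ z, D nb ρ θ x z c ≠ ⊤ := fun z => (hc z).ne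
          refine (m5_fixed S hθ ha n J K κ hκ hκn x y hb c hfin).trans ?_
          gcongr
          have h2 := hK (fun z => ((a⁻¹ : ℝ≥0) : ℝ≥0∞) * D nb ρ θ x z c)
            (fun z => ENNReal.mul_ne_top ENNReal.coe_ne_top (hfin z))
            (m5_SH_const_mul (D_SH S θ x c) _)
          refine h2.trans ?_
          gcongr
          push Not at h
          calc ((a⁻¹ : ℝ≥0) : ℝ≥0∞) * D nb ρ θ x y c ≤ ((a⁻¹ : ℝ≥0) : ℝ≥0∞) * (R * a) := by gcongr
            _ = R * (((a⁻¹ : ℝ≥0) : ℝ≥0∞) * a) := by ring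
            _ = R := by
              rw [← ENNReal.coe_mul, inv_mul_cancel₀ ha.ne', ENNReal.coe_one, mul_one]
    _ = (K : ℝ≥0∞) + J * (δ * R) + J * confLaw μ d {c : Conf d | R * a < D nb ρ θ x y c} := by
        rw [lintegral_add_left measurable_const, lintegral_const_mul _ (measurable_one.indicator mB),
          lintegral_indicator_one mB]
        simp
    _ ≤ (K : ℝ≥0∞) + J * (δ * R) + J * ε := by gcongr
    _ = K + J * (ε + δ * R) := by ring

theorem exists_blocks (μ : PMF ℕ) (x y : V) {q : ℝ≥0∞}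
    (hq : q < ((confLaw μ d).prod (confLaw μ d))
      {p | ∀ k, ∃ l, Mt nb k l x y p.1 p.2}) :
    ∃ κ : ℕ → ℕ, StrictMono κ ∧ ∀ j, q ≤ ((confLaw μ d).prod (confLaw μ d))
      {p | Mt nb (κ j) (κ (j + 1)) x y p.1 p.2} := by
  have h1 : ∀ k, ∃ l, k < l ∧ q ≤ ((confLaw μ d).prod (confLaw μ d))
      {p | Mt nb k l x y p.1 p.2} := by
    intro k
    have hmono : Monotone (fun l => {p : Conf d × Conf d | Mt nb k l x y p.1 p.2}) := by
      intro l l' h p hp
      exact Mt_mono h hp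
    have h2 : q < ((confLaw μ d).prod (confLaw μ d))
        (⋃ l, {p : Conf d × Conf d | Mt nb k l x y p.1 p.2}) := by
      refine hq.trans_le (measure_mono ?_)
      intro p hp
      obtain ⟨l, hl⟩ := hp k
      exact Set.mem_iUnion.mpr ⟨l, hl⟩
    rw [hmono.measure_iUnion] at h2
    obtain ⟨l, hl⟩ := lt_iSup_iff.mp h2
    refine ⟨max l (k + 1), lt_of_lt_of_le (Nat.lt_succ_self k) (le_max_right _ _), ?_⟩
    exact hl.le.trans (measure_mono (fun p hp => Mt_mono (le_max_left _ _) hp))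
  choose l hl1 hl2 using h1
  refine ⟨fun j => l^[j] 0, ?_, ?_⟩
  · apply strictMono_nat_of_lt_succ
    intro j
    rw [Function.iterate_succ_apply']
    exact hl1 _
  · intro j
    simp only [Function.iterate_succ_apply']
    exact hl2 _

theorem m7_exists_theta {θ₀ : ℝ≥0} (h : θ₀ < 1) (n : ℕ) :
    ∃ θ : ℝ≥0, θ₀ ≤ θ ∧ θ < 1 ∧ 1 / 2 ≤ θ ^ n := by
  have h2 : ∀ᶠ θ : ℝ in 𝓝[<] (1 : ℝ), (1 / 2 : ℝ) ≤ θ ^ n := by
    have hc : Tendsto (fun θ : ℝ => θ ^ n) (𝓝[<] (1 : ℝ)) (𝓝 1) :=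
      ((continuous_pow n).tendsto' 1 1 (one_pow n)).mono_left nhdsWithin_le_nhds
    exact (hc.eventually (lt_mem_nhds (by norm_num : (1 / 2 : ℝ) < 1))).mono fun θ h => h.le
  have h3 : ∀ᶠ θ : ℝ in 𝓝[<] (1 : ℝ), (θ₀ : ℝ) < θ := by
    apply eventually_nhdsWithin_of_eventually_nhds
    exact lt_mem_nhds (by exact_mod_cast h)
  have h4 : ∀ᶠ θ : ℝ in 𝓝[<] (1 : ℝ), θ < 1 := eventually_mem_nhdsWithin
  obtain ⟨θ, h2, h3, h4⟩ := (h2.and (h3.and h4)).exists
  refine ⟨⟨θ, (θ₀.coe_nonneg.trans h3.le)⟩, ?_, ?_, ?_⟩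
  · exact_mod_cast h3.le
  · exact_mod_cast h4
  · rw [← NNReal.coe_le_coe]; push_cast; exact h2

theorem m7_null (S : Setting nb ρ μ) (x y : V) :
    ((confLaw μ d).prod (confLaw μ d)) {p | ∀ k, ∃ l, Mt nb k l x y p.1 p.2} = 0 := by
  have : Nonempty V := ⟨x⟩
  by_contra hne
  set P : ℝ≥0∞ := ((confLaw μ d).prod (confLaw μ d)) {p | ∀ k, ∃ l, Mt nb k l x y p.1 p.2}
    with hP
  have hP1 : P ≤ 1 := prob_le_one
  obtain ⟨p, hp⟩ : ∃ p : ℝ≥0, P = p := ⟨P.toNNReal, (ENNReal.coe_toNNReal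
    (ne_top_of_le_ne_top ENNReal.one_ne_top hP1)).symm⟩
  have hp0 : 0 < p := by
    rw [pos_iff_ne_zero]; rintro rfl; exact hne (by simpa using hp)
  have hp1 : p ≤ 1 := by rw [hp] at hP1; exact_mod_cast hP1
  -- θ₀
  obtain ⟨θ₀, hρθ, hθ₀1⟩ : ∃ θ₀ : ℝ≥0, ρ < θ₀ ∧ θ₀ < 1 := exists_between S.rlt
  have hθ₀ : 0 < θ₀ := S.rpos.trans hρθ
  obtain ⟨κ₁, κ₂, hκ₁, hκ₂, hquant⟩ := quantiles S hθ₀ (ε := ((p / 64 : ℝ≥0) : ℝ≥0∞))
    (by exact_mod_cast (by positivity : 0 < p / 64))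
  obtain ⟨C, hC, hharn⟩ := harnack S hθ₀ x y
  set R : ℝ≥0 := C * κ₂ with hR
  have hR0 : 0 < R := by positivity
  set δ : ℝ≥0 := p / 64 / (2 * R) with hδ
  have hδ0 : 0 < δ := by positivity
  obtain ⟨K, -, hK⟩ := lemmaB_SH (d := d) S hρθ (δ := δ) (a := κ₁ / 2) hδ0 (by positivity)
  obtain ⟨κ, hκ, hblocks⟩ := exists_blocks (nb := nb) μ x y (q := ((p / 2 : ℝ≥0) : ℝ≥0∞)) (by
    rw [← hP, hp]; exact_mod_cast (by exact half_lt_self hp0))
  obtain ⟨J, hJ⟩ : ∃ J : ℕ, (K : ℝ≥0) < J * (p / 8) := by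
    obtain ⟨J, hJ⟩ := exists_nat_gt ((K : ℝ≥0) / (p / 8))
    exact ⟨J, by rwa [div_lt_iff₀ (by positivity)] at hJ⟩
  set n := κ J with hn
  obtain ⟨θ, hθθ, hθ1, hθn⟩ := m7_exists_theta hθ₀1 n
  have hθ0 : 0 < θ := hθ₀.trans_le hθθ
  obtain ⟨a, ha, hq⟩ := hquant θ hθθ hθ1
  have hθn0 : 0 < θ ^ n := by positivity
  -- lower bound
  have hlow : (J : ℝ≥0∞) * ((1 - ((p / 64 : ℝ≥0) : ℝ≥0∞)) * ((p / 2 : ℝ≥0) : ℝ≥0∞)) ≤
      ∑ j ∈ Finset.range J, ((confLaw μ d).prod (confLaw μ d))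
        {q | GM nb ρ θ (κ₁ * a) (κ j) (κ (j + 1)) x y q.1 q.2} := by
    calc (J : ℝ≥0∞) * ((1 - ((p / 64 : ℝ≥0) : ℝ≥0∞)) * ((p / 2 : ℝ≥0) : ℝ≥0∞))
        = ∑ j ∈ Finset.range J, (1 - ((p / 64 : ℝ≥0) : ℝ≥0∞)) * ((p / 2 : ℝ≥0) : ℝ≥0∞) := by simp
      _ ≤ _ := by
        apply Finset.sum_le_sum
        intro j _
        refine le_trans ?_ (good_meet (nb := nb) (ρ := ρ) μ θ (ε := ((p / 64 : ℝ≥0) : ℝ≥0∞)) ?_
          (fun z => (hq z).1) (κ j) (κ (j + 1)) x y)
        · gcongr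
          exact hblocks j
        · have : p / 64 ≤ 1 := (div_le_self zero_le (by norm_num)).trans hp1
          exact_mod_cast this
  have hup := sum_good_le S hθ0 hθ1 (a := a) (b := κ₁ / 2) ha (t := κ₁ * a) (R := R)
    (ε := ((p / 64 : ℝ≥0) : ℝ≥0∞)) (δ := ((δ / θ ^ n : ℝ≥0) : ℝ≥0∞)) n J K κ hκ le_rfl x y
    (by
      have : κ₁ / 2 * a ≤ θ ^ n * (κ₁ * a) := by
        calc κ₁ / 2 * a = (1 / 2) * (κ₁ * a) := by ring
          _ ≤ θ ^ n * (κ₁ * a) := by gcongr
      exact_mod_cast this)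
    (by
      intro F hF hSH
      refine (hK θ hθθ hθ1 F hF hSH n y).trans (le_of_eq ?_)
      rw [ENNReal.coe_div hθn0.ne', ENNReal.coe_pow, ENNReal.div_eq_inv_mul, ENNReal.div_eq_inv_mul,
        mul_assoc])
    (by
      refine (measure_mono ?_).trans (hq x).2
      intro c hc
      simp only [Set.mem_setOf_eq] at hc ⊢
      by_contra hcon
      push Not at hcon
      have h1 : D nb ρ θ x y c ≤ C * D nb ρ θ x x c :=
        hharn θ hθθ (fun z => D nb ρ θ x z c) (D_SH S θ x c)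
      have h2 : D nb ρ θ x y c ≤ R * a := by
        calc D nb ρ θ x y c ≤ C * D nb ρ θ x x c := h1
          _ ≤ C * (κ₂ * a) := by gcongr
          _ = R * a := by rw [hR]; push_cast; ring
      exact absurd hc (not_lt.mpr h2))
  have hfin := hlow.trans hup
  have hfin' : (J : ℝ≥0) * ((1 - p / 64) * (p / 2)) ≤ K + J * (p / 64 + δ / θ ^ n * R) := by
    exact_mod_cast hfin
  have hδR : δ / θ ^ n * R ≤ p / 64 := by
    calc δ / θ ^ n * R ≤ δ / (1 / 2) * R := by gcongr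
      _ = p / 64 := by rw [hδ]; field_simp
  have h3 : (J : ℝ≥0) * ((1 - p / 64) * (p / 2)) ≤ K + J * (p / 32) := by
    refine hfin'.trans ?_
    gcongr
    calc p / 64 + δ / θ ^ n * R ≤ p / 64 + p / 64 := by gcongr
      _ = p / 32 := by ring
  have h4 : (J : ℝ) * ((1 - p / 64) * (p / 2)) ≤ K + J * (p / 32) := by
    have h5 : p / 64 ≤ 1 := (div_le_self zero_le (by norm_num)).trans hp1
    have := NNReal.coe_le_coe.mpr h3
    push_cast [NNReal.coe_sub h5] at this
    exact this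
  have h5 : (K : ℝ) < J * (p / 8) := by exact_mod_cast hJ
  have h6 : (p : ℝ) ≤ 1 := by exact_mod_cast hp1
  have h7 : (0 : ℝ) < p := by exact_mod_cast hp0
  have h8 : (0 : ℝ) ≤ J := Nat.cast_nonneg J
  have h9 : (p : ℝ) / 4 ≤ (1 - p / 64) * (p / 2) := by nlinarith
  have h10 : (J : ℝ) * (p / 4) ≤ J * ((1 - p / 64) * (p / 2)) := by gcongr
  nlinarith

/-- TASK M7.  Theorem A, even generations. -/
theorem meetEven_null (S : Setting nb ρ μ) (x y : V) :
    ∀ᵐ p ∂((confLaw μ d).prod (confLaw μ d)), (meetEven nb x y p.1 p.2).Finite := by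
  rw [ae_iff]
  refine measure_mono_null ?_ (m7_null S x y)
  intro p hp
  simp only [Set.mem_setOf_eq] at hp ⊢
  exact fun k => meet_exists hp k

/-- TASK M8.  Theorem A: two independent branching random walks meet at finitely many sites. -/
theorem meet_null (S : Setting nb ρ μ) (x y : V) :
    ∀ᵐ p ∂((confLaw μ d).prod (confLaw μ d)),
      {z | (∃ u, Alive p.1 u ∧ pos nb x p.1 u = z) ∧
        ∃ v, Alive p.2 v ∧ pos nb y p.2 v = z}.Finite := by
  have h1 := meetEven_null (μ := μ) S x y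
  have h2 : ∀ (i : ℕ) (j : Fin d), ∀ᵐ p ∂((confLaw μ d).prod (confLaw μ d)),
      (meetEven nb x (nb y j) p.1 (sub i p.2)).Finite := by
    intro i j
    have hm : MeasurePreserving (sub (d := d) i) (confLaw μ d) (confLaw μ d) :=
      ⟨measurable_sub i, map_subL μ [i]⟩
    have hp := (MeasurePreserving.id (confLaw μ d)).prod hm
    exact hp.quasiMeasurePreserving.ae (meetEven_null (μ := μ) S x (nb y j))
  have h3 : ∀ᵐ p ∂((confLaw μ d).prod (confLaw μ d)), ∀ (i : ℕ) (j : Fin d),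
      (meetEven nb x (nb y j) p.1 (sub i p.2)).Finite :=
    ae_all_iff.2 fun i => ae_all_iff.2 fun j => h2 i j
  filter_upwards [h1, h3] with p hp1 hp3
  refine (hp1.union ((Set.finite_Iio (p.2 []).1).biUnion
    fun i _ => hp3 i ((p.2 []).2 i))).subset ?_
  rintro z ⟨⟨u, hu1, hu2⟩, v, hv1, hv2⟩
  rcases Nat.even_or_odd v.length with hv | hv
  · exact Or.inl ⟨⟨u, hu1, hu2⟩, v, hv1, hv, hv2⟩
  · right
    have hne : v ≠ [] := by
      rintro rfl
      simp at hv
    obtain ⟨v', i, rfl⟩ : ∃ v' i, v = v' ++ [i] :=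
      ⟨v.dropLast, v.getLast hne, (List.dropLast_append_getLast hne).symm⟩
    rw [alive_append_singleton] at hv1
    rw [pos_append_singleton] at hv2
    refine Set.mem_iUnion₂.2 ⟨i, hv1.1, ⟨u, hu1, hu2⟩, v', hv1.2, ?_, hv2⟩
    rw [List.length_append, List.length_singleton, Nat.odd_add_one, Nat.not_odd_iff_even] at hv
    exact hv

end MP_9b4c76_pr
end

section

/-! Transience, growth, and the separation of branches. -/

namespace MP_9b4c76_pr

open MeasureTheory ProbabilityTheory Filter Topology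
open scoped ENNReal NNReal

variable {V : Type*} {d : ℕ} [NeZero d] {nb : V → Fin d → V} {ρ : ℝ≥0} {μ : PMF ℕ}

omit [NeZero d] in
theorem r1_SH_const_mul {θ : ℝ≥0} {F : V → ℝ≥0∞} (hF : SH nb ρ θ F) (a : ℝ≥0∞) :
    SH nb ρ θ (fun z => a * F z) := by
  intro z
  have e : avg nb (fun w => a * F w) z = a * avg nb F z := by
    unfold avg
    rw [← Finset.mul_sum, mul_div_assoc]
  rw [e, ← mul_assoc, mul_comm _ a, mul_assoc]
  exact mul_le_mul_right (hF z) a

/-- a parameter below one with a large power -/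
theorem r1_exists_theta {θ₀ : ℝ≥0} (h : θ₀ < 1) (n : ℕ) :
    ∃ θ : ℝ≥0, θ₀ ≤ θ ∧ θ < 1 ∧ (1 / 2 : ℝ≥0) ≤ θ ^ n := by
  have h1 : Tendsto (fun θ : ℝ≥0 => θ ^ n) (𝓝[<] 1) (𝓝 1) := by
    have : Tendsto (fun θ : ℝ≥0 => θ ^ n) (𝓝 1) (𝓝 (1 ^ n)) := (continuous_pow n).tendsto 1
    rw [one_pow] at this
    exact this.mono_left nhdsWithin_le_nhds
  have h2 : ∀ᶠ θ : ℝ≥0 in 𝓝[<] 1, (1 / 2 : ℝ≥0) < θ ^ n :=
    h1.eventually (lt_mem_nhds (by
      rw [div_lt_one (by norm_num)]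
      norm_num))
  have h3 : ∀ᶠ θ : ℝ≥0 in 𝓝[<] 1, θ ∈ Set.Ico θ₀ 1 := Ico_mem_nhdsLT h
  have : (𝓝[<] (1 : ℝ≥0)).NeBot := nhdsLT_neBot_of_exists_lt ⟨θ₀, h⟩
  obtain ⟨θ, hθ, hθ'⟩ := (h2.and h3).exists
  exact ⟨θ, hθ'.1, hθ'.2, hθ.le⟩

/-- uniform bound for the probability of many visits -/
theorem r1_visits (S : Setting nb ρ μ) {θ₀ : ℝ≥0} (hρθ : ρ < θ₀) (hθ₀1 : θ₀ < 1) {C : ℝ≥0}
    {x z : V} (hC : ∀ θ : ℝ≥0, θ₀ ≤ θ → ∀ F : V → ℝ≥0∞, SH nb ρ θ F → F x ≤ C * F z)
    {δ : ℝ≥0} (hδ : 0 < δ) :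
    ∃ K : ℕ, ∀ n : ℕ, confLaw μ d {c | ∃ s : Finset ℕ, K ≤ s.card ∧ ∀ k ∈ s, k ≤ n ∧
      (Even k ∧ ∃ u : List ℕ, u.length = k ∧ Alive c u ∧ pos nb x c u = z)} ≤
        δ * (C * 2) := by
  obtain ⟨K, _, hK⟩ := lemmaB_SH S hρθ hδ (a := 1) one_pos
  refine ⟨K, fun n => ?_⟩
  obtain ⟨θ, hθ, hθ1, hθn⟩ := r1_exists_theta hθ₀1 n
  have hfin : ∀ y, green nb ρ θ z y < ⊤ := by
    intro y
    have h := avg_iter_green_le S hθ1 0 z y
    simp only [Function.iterate_zero, id, pow_zero, one_mul] at h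
    refine lt_of_le_of_lt h ?_
    rw [ENNReal.inv_lt_top]
    exact tsub_pos_of_lt (by exact_mod_cast hθ1)
  have hg1 : 1 ≤ green nb ρ θ z z := one_le_green_self ρ θ z
  have hg0 : green nb ρ θ z z ≠ 0 := (lt_of_lt_of_le one_pos hg1).ne'
  set F : V → ℝ≥0∞ := fun y => (green nb ρ θ z z)⁻¹ * green nb ρ θ z y with hFdef
  have hFz : F z = 1 := ENNReal.inv_mul_cancel hg0 (hfin z).ne
  have hFtop : ∀ y, F y ≠ ⊤ := fun y =>
    ENNReal.mul_ne_top (ENNReal.inv_ne_top.2 hg0) (hfin y).ne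
  have hFSH : SH nb ρ θ F := r1_SH_const_mul (green_SH S θ z) _
  have hFx : F x ≤ C := by
    have := hC θ hθ F hFSH
    rwa [hFz, mul_one] at this
  refine le_trans (measure_mono ?_) ((hK θ hθ hθ1 F hFtop hFSH n x).trans ?_)
  · rintro c ⟨s, hsK, hs⟩
    refine le_trans hsK (le_cnt nb (fun y => (F y).toReal) 1 n x c s fun k hk => ?_)
    obtain ⟨h1, h2, u, h3, h4, h5⟩ := hs k hk
    refine ⟨h1, h2, u, h3, h4, ?_⟩
    rw [h5, hFz, ENNReal.toReal_one]
  · have h2 : (1 / 2 : ℝ≥0∞) ≤ (θ : ℝ≥0∞) ^ n := by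
      have : ((1 / 2 : ℝ≥0) : ℝ≥0∞) ≤ ((θ ^ n : ℝ≥0) : ℝ≥0∞) := by exact_mod_cast hθn
      simpa [ENNReal.coe_div] using this
    calc δ * F x / (θ : ℝ≥0∞) ^ n ≤ δ * C / (1 / 2) := by
          gcongr
      _ = δ * (C * 2) := by
          rw [div_eq_mul_inv, one_div, inv_inv, mul_assoc]

/-- TASK R1.  Finitely many visits in even generations. -/
theorem transient_even (S : Setting nb ρ μ) (x z : V) :
    ∀ᵐ c ∂(confLaw μ d), {u | Alive c u ∧ Even u.length ∧ pos nb x c u = z}.Finite := by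
  set vis : Conf d → Set ℕ := fun c =>
    {k | Even k ∧ ∃ u : List ℕ, u.length = k ∧ Alive c u ∧ pos nb x c u = z} with hvis
  have hnull : confLaw μ d {c | (vis c).Infinite} = 0 := by
    obtain ⟨θ₀, hρθ, hθ₀1⟩ := exists_between S.rlt
    have hθ₀ : 0 < θ₀ := S.rpos.trans hρθ
    obtain ⟨C, _, hC⟩ := harnack S hθ₀ z x
    have hle : ∀ δ : ℝ≥0, 0 < δ → confLaw μ d {c | (vis c).Infinite} ≤ δ * (C * 2) := by
      intro δ hδ
      obtain ⟨K, hK⟩ := r1_visits S hρθ hθ₀1 hC hδ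
      set A : ℕ → Set (Conf d) := fun n => {c | ∃ s : Finset ℕ, K ≤ s.card ∧ ∀ k ∈ s, k ≤ n ∧
        (Even k ∧ ∃ u : List ℕ, u.length = k ∧ Alive c u ∧ pos nb x c u = z)} with hA
      have hmono : Monotone A := by
        rintro n m hnm c ⟨s, hs1, hs2⟩
        exact ⟨s, hs1, fun k hk => ⟨(hs2 k hk).1.trans hnm, (hs2 k hk).2⟩⟩
      have hsub : {c | (vis c).Infinite} ⊆ ⋃ n, A n := by
        intro c hc
        obtain ⟨t, ht, htK⟩ := Set.Infinite.exists_subset_card_eq hc K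
        refine Set.mem_iUnion.2 ⟨t.sup id, t, htK.ge, fun k hk => ⟨?_, ht hk⟩⟩
        exact Finset.le_sup (f := id) hk
      calc confLaw μ d {c | (vis c).Infinite} ≤ confLaw μ d (⋃ n, A n) := measure_mono hsub
        _ = ⨆ n, confLaw μ d (A n) := hmono.measure_iUnion
        _ ≤ δ * (C * 2) := iSup_le hK
    by_contra hne
    have hpos : 0 < confLaw μ d {c | (vis c).Infinite} := pos_iff_ne_zero.2 hne
    have htend : Tendsto (fun δ : ℝ≥0 => (δ : ℝ≥0∞) * (C * 2)) (𝓝[>] 0) (𝓝 0) := by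
      have h1 : Tendsto (fun δ : ℝ≥0 => (δ : ℝ≥0∞) * ((C * 2 : ℝ≥0) : ℝ≥0∞)) (𝓝 0)
          (𝓝 (((0 : ℝ≥0) : ℝ≥0∞) * ((C * 2 : ℝ≥0) : ℝ≥0∞))) := by
        refine ENNReal.Tendsto.mul_const ?_ (Or.inr ENNReal.coe_ne_top)
        exact (ENNReal.continuous_coe.tendsto 0)
      rw [ENNReal.coe_zero, zero_mul] at h1
      have h2 : Tendsto (fun δ : ℝ≥0 => (δ : ℝ≥0∞) * (C * 2)) (𝓝 0) (𝓝 0) := by
        simpa using h1
      exact h2.mono_left nhdsWithin_le_nhds
    have : (𝓝[>] (0 : ℝ≥0)).NeBot := nhdsGT_neBot_of_exists_gt ⟨1, one_pos⟩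
    obtain ⟨δ, hδ1, hδ2⟩ := ((htend.eventually (gt_mem_nhds hpos)).and
      (self_mem_nhdsWithin : Set.Ioi (0 : ℝ≥0) ∈ 𝓝[>] 0)).exists
    exact absurd (hle δ hδ2) (not_le.2 hδ1)
  have hae : ∀ᵐ c ∂(confLaw μ d), ¬ (vis c).Infinite := by
    rw [ae_iff]
    simpa using hnull
  filter_upwards [hae] with c hc
  rw [Set.not_infinite] at hc
  obtain ⟨N, hN⟩ := hc.bddAbove
  refine (finite_alive_le c N).subset ?_
  rintro u ⟨h1, h2, h3⟩
  exact ⟨hN ⟨h2, u, rfl, h1, h3⟩, h1⟩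

/-- TASK R2.  Transience. -/
theorem transient (S : Setting nb ρ μ) (x z : V) :
    ∀ᵐ c ∂(confLaw μ d), {u | Alive c u ∧ pos nb x c u = z}.Finite := by
  have hsub : ∀ (i : ℕ) (j : Fin d), ∀ᵐ c ∂(confLaw μ d),
      {u | Alive (sub i c) u ∧ Even u.length ∧ pos nb (nb x j) (sub i c) u = z}.Finite := by
    intro i j
    have h := transient_even S (nb x j) z
    rw [← map_subL μ [i]] at h
    exact ae_of_ae_map (measurable_subL [i]).aemeasurable h
  have hall : ∀ᵐ c ∂(confLaw μ d), ∀ (i : ℕ) (j : Fin d),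
      {u | Alive (sub i c) u ∧ Even u.length ∧ pos nb (nb x j) (sub i c) u = z}.Finite :=
    ae_all_iff.2 fun i => ae_all_iff.2 fun j => hsub i j
  filter_upwards [transient_even S x z, hall] with c h0 h1
  have hodd : (⋃ i ∈ Finset.range (c []).1, (fun v : List ℕ => v ++ [i]) ''
      {v | Alive (sub i c) v ∧ Even v.length ∧
        pos nb (nb x ((c []).2 i)) (sub i c) v = z}).Finite :=
    Set.Finite.biUnion (Finset.finite_toSet _) fun i _ => (h1 i ((c []).2 i)).image _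
  refine (h0.union hodd).subset ?_
  rintro u ⟨hu, hz⟩
  by_cases he : Even u.length
  · exact Or.inl ⟨hu, he, hz⟩
  · right
    rcases List.eq_nil_or_concat u with rfl | ⟨v, i, rfl⟩
    · exact absurd (by simp) he
    · rw [List.concat_eq_append] at hu hz he ⊢
      rw [alive_append_singleton] at hu
      rw [pos_append_singleton] at hz
      refine Set.mem_biUnion (x := i) ?_ ?_
      · exact Finset.mem_coe.2 (Finset.mem_range.2 hu.1)
      · refine ⟨v, ⟨hu.2, ?_, hz⟩, rfl⟩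
        rw [List.length_append, List.length_singleton, Nat.even_add_one] at he
        exact not_not.1 he

/-- TASK R3. -/
theorem offspring_pos (S : Setting nb ρ μ) : ∀ᵐ c ∂(confLaw μ d), ∀ u : List ℕ, 0 < (c u).1 := by
  rw [ae_all_iff]
  intro u
  have h1 : (confLaw μ d).map (fun c => c u) = markLaw μ d :=
    Measure.infinitePi_map_eval (μ := fun _ : List ℕ => markLaw μ d) u
  have h2 : (markLaw μ d).map Prod.fst = μ.toMeasure := by
    unfold markLaw
    exact Measure.map_fst_prod.trans (by simp)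
  have h3 : (confLaw μ d).map (fun c => (c u).1) = μ.toMeasure := by
    rw [← h2, ← h1, Measure.map_map measurable_fst (measurable_pi_apply u)]
    rfl
  have hm : Measurable fun c : Conf d => (c u).1 := measurable_fst.comp (measurable_pi_apply u)
  have h4 : confLaw μ d {c : Conf d | (c u).1 = 0} = 0 := by
    have : confLaw μ d {c : Conf d | (c u).1 = 0} =
        (confLaw μ d).map (fun c => (c u).1) {0} := by
      rw [Measure.map_apply hm (measurableSet_singleton 0)]; rfl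
    rw [this, h3, PMF.toMeasure_apply_singleton _ _ (measurableSet_singleton 0), S.mu0]
  rw [ae_iff]
  convert h4 using 3
  ext c; simp

/-- number of particles of generation `g` -/
def r3_Z : ℕ → Conf d → ℕ
  | 0, _ => 1
  | g + 1, c => ∑ i ∈ Finset.range (c []).1, r3_Z g (sub i c)

theorem r3_finset (g : ℕ) (c : Conf d) : ∃ s : Finset (List ℕ), s.card = r3_Z g c ∧
    ∀ u ∈ s, u.length = g ∧ Alive c u := by
  classical
  induction g generalizing c with
  | zero => exact ⟨{[]}, by simp [r3_Z], by simp [Alive]⟩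
  | succ g ih =>
    choose s hs1 hs2 using fun i => ih (sub i c)
    refine ⟨(Finset.range (c []).1).biUnion fun i => (s i).image (fun u => u ++ [i]), ?_, ?_⟩
    · rw [Finset.card_biUnion]
      · simp only [r3_Z]
        refine Finset.sum_congr rfl fun i _ => ?_
        rw [Finset.card_image_of_injective _ (List.append_left_injective [i]), hs1]
      · intro i _ j _ hij
        rw [Function.onFun, Finset.disjoint_left]
        intro u hu hu'
        simp only [Finset.mem_image] at hu hu'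
        obtain ⟨a, _, rfl⟩ := hu
        obtain ⟨b, _, hb⟩ := hu'
        have := List.append_inj_right' hb rfl
        simp only [List.cons.injEq, and_true] at this
        exact hij this.symm
    · intro u hu
      simp only [Finset.mem_biUnion, Finset.mem_range, Finset.mem_image] at hu
      obtain ⟨i, hi, a, ha, rfl⟩ := hu
      obtain ⟨h1, h2⟩ := hs2 i a ha
      exact ⟨by simp [h1], (alive_append_singleton c a i).2 ⟨hi, h2⟩⟩

theorem r3_measurable_cast (g : ℕ) : Measurable fun c : Conf d => (r3_Z g c : ℝ≥0∞) := by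
  induction g with
  | zero => simp only [r3_Z]; exact measurable_const
  | succ g ih =>
    have := measurable_sum_children (d := d) (fun _ c => (r3_Z g c : ℝ≥0∞)) (fun _ => ih)
    simpa only [r3_Z, Nat.cast_sum] using this

theorem r3_measurable (g : ℕ) : Measurable fun c : Conf d => r3_Z g c := by
  refine measurable_to_countable' fun k => ?_
  have : (fun c : Conf d => r3_Z g c) ⁻¹' {k} = (fun c : Conf d => (r3_Z g c : ℝ≥0∞)) ⁻¹' {(k : ℝ≥0∞)} := by
    ext c; simp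
  rw [this]
  exact r3_measurable_cast g (measurableSet_singleton _)

theorem r3_lintegral (g : ℕ) (s : ℝ≥0∞) :
    ∫⁻ c, s ^ (r3_Z g c) ∂(confLaw μ d) = (gf μ)^[g] s := by
  induction g with
  | zero => simp [r3_Z]
  | succ g ih =>
    have h := lintegral_prod_children (d := d) μ (fun _ c => s ^ (r3_Z g c))
      (fun _ => (measurable_from_top (f := fun k : ℕ => s ^ k)).comp (r3_measurable g))
    simp only [r3_Z, Finset.prod_pow_eq_pow_sum] at h ⊢
    rw [h, ih, Function.iterate_succ_apply']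
    congr 1
    rw [Finset.sum_const, Finset.card_univ, Fintype.card_fin, nsmul_eq_mul, mul_comm,
      ENNReal.mul_div_cancel_right]
    · exact_mod_cast NeZero.ne d
    · exact ENNReal.natCast_ne_top d

/-- TASK R3.  Growth of the population. -/
theorem growth (S : Setting nb ρ μ) : ∀ᵐ c ∂(confLaw μ d), ∀ n : ℕ, ∃ g,
    (n : ℕ∞) ≤ {u : List ℕ | u.length = g ∧ Alive c u}.encard := by
  rw [ae_all_iff]
  intro n
  have key : confLaw μ d {c | ∀ g, r3_Z g c < n} = 0 := by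
    have h1 : ∀ g, (2⁻¹ : ℝ≥0∞) ^ n * confLaw μ d {c | ∀ g, r3_Z g c < n} ≤ (gf μ)^[g] 2⁻¹ := by
      intro g
      have hme : Measurable fun c : Conf d => (2⁻¹ : ℝ≥0∞) ^ (r3_Z g c) :=
        (measurable_from_top (f := fun k : ℕ => (2⁻¹ : ℝ≥0∞) ^ k)).comp (r3_measurable g)
      calc (2⁻¹ : ℝ≥0∞) ^ n * confLaw μ d {c | ∀ g, r3_Z g c < n}
          ≤ (2⁻¹ : ℝ≥0∞) ^ n * confLaw μ d {c | (2⁻¹ : ℝ≥0∞) ^ n ≤ 2⁻¹ ^ (r3_Z g c)} := by
            gcongr
            intro h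
            exact pow_le_pow_right_of_le_one' (by simp) (h g).le
        _ ≤ ∫⁻ c, (2⁻¹ : ℝ≥0∞) ^ (r3_Z g c) ∂(confLaw μ d) :=
            mul_meas_ge_le_lintegral₀ hme.aemeasurable _
        _ = _ := r3_lintegral g _
    have h2 : (2⁻¹ : ℝ≥0∞) ^ n * confLaw μ d {c | ∀ g, r3_Z g c < n} ≤ 0 :=
      ge_of_tendsto' (gf_iterate_tendsto S (s := 2⁻¹) (by
        rw [ENNReal.inv_lt_one]; exact ENNReal.one_lt_two)) h1
    have h3 := nonpos_iff_eq_zero.1 h2
    rcases mul_eq_zero.1 h3 with h | h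
    · exact absurd h (pow_ne_zero _ (by simp))
    · exact h
  have h5 : ∀ᵐ c ∂(confLaw μ d), ¬ ∀ g, r3_Z g c < n := by
    rw [ae_iff]; simpa using key
  filter_upwards [h5] with c hc
  push Not at hc
  obtain ⟨g, hg⟩ := hc
  obtain ⟨s, hs1, hs2⟩ := r3_finset g c
  refine ⟨g, ?_⟩
  calc (n : ℕ∞) ≤ (r3_Z g c : ℕ∞) := by exact_mod_cast hg
    _ = (s.card : ℕ∞) := by rw [hs1]
    _ = (s : Set (List ℕ)).encard := (Set.encard_coe_eq_coe_finsetCard s).symm
    _ ≤ _ := Set.encard_le_encard fun u hu => hs2 u hu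

theorem r4_subL_cons (w : List ℕ) (i : ℕ) (c : Conf d) :
    subL (i :: w) c = sub i (subL w c) := by
  funext u
  change c (u ++ (i :: w)) = c ((u ++ [i]) ++ w)
  rw [List.append_assoc]
  rfl

/-- TASK R4.  Branches of different children meet finitely often, everywhere in the tree. -/
theorem branches [Countable V] (S : Setting nb ρ μ) : ∀ᵐ c ∂(confLaw μ d),
    ∀ (w : List ℕ) (i j : ℕ), i ≠ j → ∀ x y : V,
      {z | (∃ u, Alive (subL (i :: w) c) u ∧ pos nb x (subL (i :: w) c) u = z) ∧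
        ∃ v, Alive (subL (j :: w) c) v ∧ pos nb y (subL (j :: w) c) v = z}.Finite := by
  refine ae_all_iff.2 fun w => ae_all_iff.2 fun i => ae_all_iff.2 fun j =>
    ae_all_iff.2 fun hij => ae_all_iff.2 fun x => ae_all_iff.2 fun y => ?_
  have h1 : MeasurePreserving (subL (d := d) w) (confLaw μ d) (confLaw μ d) :=
    ⟨measurable_subL w, map_subL μ w⟩
  have h2 : MeasurePreserving (fun c : Conf d => (sub i c, sub j c)) (confLaw μ d)
      ((confLaw μ d).prod (confLaw μ d)) :=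
    ⟨(measurable_sub i).prodMk (measurable_sub j), map_sub_pair μ hij⟩
  have h3 := (h2.comp h1).quasiMeasurePreserving.ae (meet_null (μ := μ) S x y)
  filter_upwards [h3] with c hc
  rw [r4_subL_cons, r4_subL_cons]
  exact hc

end MP_9b4c76_pr
end
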